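import Pool.Agent.Lib.CTF.Defs

/-!
# Transplanting names
-/

namespace CTF

open Cardinal CAT9

section

variable {G0 X0 L M : Type} [LinearOrder L] [Preorder G0] [PtsD G0 X0]

/-- The points which extend `g`. -/
def On (g : G0) : Set (X0 × (ℕ → Bool)) := {x | x.1 ∈ Pts.cy (X := X0) g}

theorem on_clop (g : G0) : Clop (G0 × AddOmega) (On (X0 := X0) g) := by
  rintro ⟨g0, f0⟩
  by_cases h : ∃ k, k ≤ g0 ∧ k ≤ g
  · obtain ⟨k, hk, hk'⟩ := h
    exact ⟨(k, f0), ⟨hk, le_rfl⟩, Or.inl fun x hx => Pts.cy_mono _ _ hk' hx.1⟩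
  · refine ⟨(g0, f0), le_rfl, Or.inr fun x hx hcon => h ?_⟩
    obtain ⟨k, hk, hk', -⟩ := PtsD.dir g0 g x.1 hx.1 hcon
    exact ⟨k, hk, hk'⟩

open Classical in
/-- Equal to `t1` at the points in `C`, to `t` elsewhere. -/
noncomputable def mixT {X : Type} (C : Set X) (t t1 : L → M → Nm X L) : L → M → Nm X L :=
  fun a i => mix C (t a i) (t1 a i)

theorem LocIn.mixT {G X : Type} [Preorder G] [Pts G X] {C : Set X} (hC : Clop G C)
    {t t1 : L → M → Nm X L} {a : L} {y y1 : Nm X L} (hy : LocIn G t a y) (hy1 : LocIn G t1 a y1) :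
    LocIn G (CTF.mixT C t t1) a (mix C y y1) := by
  intro f
  obtain ⟨g, hg, h | h⟩ := hC f
  · obtain ⟨g', hg', i, hi⟩ := hy1 g
    refine ⟨g', hg'.trans hg, i, fun c hc ξ hξ => ?_⟩
    have hcC := h (Pts.cy_mono _ _ hg' hc)
    change mix C y y1 c ξ = mix C (t a i) (t1 a i) c ξ
    rw [mix_pos hcC, mix_pos hcC, hi c hc ξ hξ]
  · obtain ⟨g', hg', i, hi⟩ := hy g
    refine ⟨g', hg'.trans hg, i, fun c hc ξ hξ => ?_⟩
    have hcC := h c (Pts.cy_mono _ _ hg' hc)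
    change mix C y y1 c ξ = mix C (t a i) (t1 a i) c ξ
    rw [mix_neg hcC, mix_neg hcC, hi c hc ξ hξ]

theorem LocIn.congrOn {G X : Type} [Preorder G] [Pts G X] {C : Set X} (hC : Clop G C)
    {t : L → M → Nm X L} {a : L} {y y1 z : Nm X L} (hy : LocIn G t a y) (hy1 : LocIn G t a y1)
    (h : ∀ c ξ, ξ < a → z c ξ = mix C y y1 c ξ) : LocIn G t a z :=
  LocIn.congr h (LocIn.mix hC hy hy1)

theorem repl_mix {X : Type} (C : Set X) (a : L) (y y1 z z1 : Nm X L) :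
    repl a (mix C y y1) (mix C z z1) = mix C (repl a y z) (repl a y1 z1) := by
  funext c ξ
  by_cases hc : c ∈ C
  · rcases lt_or_ge ξ a with h | h
    · rw [repl_lt h, mix_pos hc, mix_pos hc, repl_lt h]
    · rw [repl_ge h, mix_pos hc, mix_pos hc, repl_ge h]
  · rcases lt_or_ge ξ a with h | h
    · rw [repl_lt h, mix_neg hc, mix_neg hc, repl_lt h]
    · rw [repl_ge h, mix_neg hc, mix_neg hc, repl_ge h]

theorem flp_mix {X : Type} (C : Set X) (a : L) (y y1 : Nm X L) :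
    flp a (mix C y y1) = mix C (flp a y) (flp a y1) := by
  funext c ξ
  by_cases hc : c ∈ C
  · rw [mix_pos hc]
    unfold flp
    rw [mix_pos hc]
  · rw [mix_neg hc]
    unfold flp
    rw [mix_neg hc]

theorem Sys.mixT {G X : Type} [Preorder G] [Pts G X] {C : Set X} (hC : Clop G C)
    {t t1 : L → M → Nm X L} {D : Set L} (h : Sys G t D) (h1 : Sys G t1 D) :
    Sys G (CTF.mixT C t t1) D := by
  refine ⟨fun a b hab hb j => ?_, fun a b hab hb i j => ?_, fun a b hab hb j => ?_⟩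
  · exact LocIn.mixT hC (h.coh a b hab hb j) (h1.coh a b hab hb j)
  · change LocIn G _ b (repl a (mix C (t a i) (t1 a i)) (mix C (t b j) (t1 b j)))
    rw [repl_mix]
    exact LocIn.mixT hC (h.rep a b hab hb i j) (h1.rep a b hab hb i j)
  · change LocIn G _ b (flp a (mix C (t b j) (t1 b j)))
    rw [flp_mix]
    exact LocIn.mixT hC (h.flip a b hab hb j) (h1.flip a b hab hb j)

/-- Extending to a given height. -/
theorem exact_ht {G X : Type} [Preorder G] [Pts G X] [hA : Amb L M] (q : QQ G L M X) (β : L)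
    (hβ : q.p.ht ≤ β) : ∃ q', q' ≤ q ∧ q'.p.ht = β := by
  obtain ⟨q1, hq1, h1⟩ := ht_dense β q
  refine ⟨mkQ ⟨β, q1.p.t, q1.p.sys.mono (Set.Iic_subset_Iic.2 h1)⟩ (q1.y ())
    (q1.p.sys.down h1 (Set.mem_Iic.2 le_rfl) (q1.mem ())), ?_, rfl⟩
  refine QQ.le_iff.2 ⟨⟨hβ, fun a ha => hq1.1.2 a ha⟩, fun c ξ hξ => ?_⟩
  exact (QQ.le_iff.1 hq1).2 c ξ hξ

/-- If `q1` extends `q` at the points which extend `g`, there is an extension of `q` which looks
like `q1` at these points. -/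
theorem transplant [hA : Amb L M] (g : G0) (q q1 : QQ (G0 × AddOmega) L M (X0 × (ℕ → Bool)))
    (h : ExtOn g q1.p q.p)
    (hy : ∀ x, x ∈ On g → ∀ ξ, ξ < q.p.ht → q1.y () x ξ = q.y () x ξ) :
    ∃ q', q' ≤ q ∧ q'.p.ht = q1.p.ht ∧
      (∀ a i x, x ∈ On g → q'.p.t a i x = q1.p.t a i x) ∧
      ∀ x, x ∈ On g → q'.y () x = q1.y () x := by
  obtain ⟨q2, hq2, h2⟩ := exact_ht q q1.p.ht h.1
  have hC := on_clop (X0 := X0) g
  have hs : Sys (G0 × AddOmega) (CTF.mixT (On g) q2.p.t q1.p.t) (Set.Iic q1.p.ht) :=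
    Sys.mixT hC (h2 ▸ q2.p.sys) q1.p.sys
  have hm : LocIn (G0 × AddOmega) (CTF.mixT (On g) q2.p.t q1.p.t) q1.p.ht
      (mix (On g) (q2.y ()) (q1.y ())) :=
    LocIn.mixT hC (h2 ▸ q2.mem ()) (q1.mem ())
  refine ⟨mkQ ⟨q1.p.ht, CTF.mixT (On g) q2.p.t q1.p.t, hs⟩ (mix (On g) (q2.y ()) (q1.y ())) hm,
    ?_, rfl, fun a i x hx => ?_, fun x hx => ?_⟩
  · have hq2' := QQ.le_iff.1 hq2
    refine QQ.le_iff.2 ⟨⟨h.1, fun a ha => ?_⟩, fun x ξ hξ => ?_⟩
    · funext i x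
      funext ξ
      change mix (On g) (q2.p.t a i) (q1.p.t a i) x ξ = q.p.t a i x ξ
      by_cases hx : x ∈ On g
      · rw [mix_pos hx, h.2 a ha i x hx]
      · rw [mix_neg hx, hq2.1.2 a ha]
    · change mix (On g) (q2.y ()) (q1.y ()) x ξ = q.y () x ξ
      by_cases hx : x ∈ On g
      · rw [mix_pos hx, hy x hx ξ hξ]
      · rw [mix_neg hx, hq2'.2 x ξ hξ]
  · funext ξ
    exact mix_pos hx ξ
  · funext ξ
    exact mix_pos hx ξ

/-- The version for conditions without a name. -/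
theorem transplant' [hA : Amb L M] (g : G0)
    (q : QQ (G0 × AddOmega) L M (X0 × (ℕ → Bool)))
    (p1 : Cond (G0 × AddOmega) L M (X0 × (ℕ → Bool))) (h : ExtOn g p1 q.p) :
    ∃ q', q' ≤ q ∧ q'.p.ht = p1.ht ∧ ∀ a i x, x ∈ On g → q'.p.t a i x = p1.t a i x := by
  obtain ⟨w, hw⟩ := exists_mem p1
  have hC := on_clop (X0 := X0) g
  -- the name `q.y` at the points of `g`
  have key : LocIn (G0 × AddOmega) p1.t q.p.ht
      (mix (On g) (p1.t q.p.ht (Classical.choice (Amb.neM L hA))) (q.y ())) := by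
    intro f
    obtain ⟨f', hf', hc | hc⟩ := hC f
    · obtain ⟨f'', hf'', i, hi⟩ := q.mem () f'
      refine ⟨f'', hf''.trans hf', i, fun c hcc ξ hξ => ?_⟩
      have hcg := hc (Pts.cy_mono _ _ hf'' hcc)
      rw [mix_pos hcg, hi c hcc ξ hξ, h.2 _ le_rfl i c hcg]
    · refine ⟨f', hf', Classical.choice (Amb.neM L hA), fun c hcc ξ _ => mix_neg (hc c hcc) ξ⟩
  have hm := p1.sys.repl' h.1 (Set.mem_Iic.2 le_rfl) key hw
  obtain ⟨q', h1, h2, h3, -⟩ := transplant g q (mkQ p1 _ hm) h (fun x hx ξ hξ => by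
    change repl q.p.ht _ w x ξ = _
    rw [repl_lt hξ, mix_pos hx])
  exact ⟨q', h1, h2, h3⟩

/-- From the product to the iteration. -/
def toIt {CC Z : Type} (r : G0 × CC × Z × QQ (G0 × AddOmega) L M (X0 × (ℕ → Bool))) :
    It G0 X0 CC L M := (r.1, r.2.1, r.2.2.2.p)

theorem toIt_proj [hA : Amb L M] {CC Z : Type} [Preorder CC] [Preorder Z] :
    IsProj (toIt : G0 × CC × Z × QQ (G0 × AddOmega) L M (X0 × (ℕ → Bool)) → It G0 X0 CC L M) where
  mono a b h := ⟨h.1, h.2.1, h.2.2.2.1.1, fun α hα i x _ => by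
    change a.2.2.2.p.t α i x = b.2.2.2.p.t α i x
    rw [h.2.2.2.1.2 α hα]⟩
  lift := by
    rintro ⟨g, c, z, q⟩ ⟨g', c', p'⟩ ⟨h1, h2, h3⟩
    obtain ⟨q', h4, h5, h6⟩ := transplant' g' q p' h3
    exact ⟨(g', c', z, q'), ⟨h1, h2, le_rfl, h4⟩, le_rfl, le_rfl, h5.ge,
      fun a _ i x hx => h6 a i x hx⟩

end

end CTF
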