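import Pool.Agent.Lib.CTF.LF
import Pool.Agent.Lib.CLC.Posets

/-!
# Sizes of the forcing notions
-/

namespace CTF

open Cardinal CAT9 CLC

theorem mk_col_le {δ κ : Cardinal.{0}} (hκ : κ.IsInaccessible) (hδκ : δ < κ) {D : Type}
    (hD : #D < κ) : #(Col δ (Nod κ) D) ≤ κ := by
  classical
  let L : Nod κ → Set (Col δ (Nod κ) D) := fun α => {f | ∀ a ζ, f.f (a, ζ) ≠ none → a < α}
  have hcov : (Set.univ : Set (Col δ (Nod κ) D)) ⊆ ⋃ α, L α := by
    intro f _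
    have h1 : #(Prod.fst '' {x | f.f x ≠ none} : Set (Nod κ)) < κ :=
      (mk_image_le.trans f.small).trans_lt hδκ
    obtain ⟨α, hα⟩ := LFAux.exists_bound hκ _ h1
    exact Set.mem_iUnion.2 ⟨α, fun a ζ h => hα a ⟨(a, ζ), h, rfl⟩⟩
  have hL : ∀ α, #(L α) ≤ κ := by
    intro α
    let X := {a : Nod κ // a < α} × D × {b : Nod κ // b < α}
    have hX : #X < κ := by
      have h0 : #X = #{a : Nod κ // a < α} * (#D * #{b : Nod κ // b < α}) := by
        change #({a : Nod κ // a < α} × D × {b : Nod κ // b < α}) = _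
        rw [mk_prod, mk_prod]
        simp only [lift_uzero, lift_id]
      rw [h0]
      exact mul_lt_of_lt hκ.aleph0_lt.le (LFAux.mk_iio_lt α)
        (mul_lt_of_lt hκ.aleph0_lt.le hD (LFAux.mk_iio_lt α))
    let g : L α → Set X := fun f => {x | f.1.f (x.1.1, x.2.1) = some x.2.2.1}
    have hg : ∀ (f : L α) (a : Nod κ) (ζ : D) (b : Nod κ),
        f.1.f (a, ζ) = some b → ∃ (ha : a < α) (hb : b < α),
          ((⟨a, ha⟩, ζ, ⟨b, hb⟩) : X) ∈ g f := by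
      intro f a ζ b h
      have ha : a < α := f.2 a ζ (by rw [h]; simp)
      have hb : b < a := f.1.lt (a, ζ) b h
      exact ⟨ha, hb.trans ha, h⟩
    have hinj : Function.Injective g := by
      intro f f' h
      have key : ∀ f f' : L α, g f = g f' → ∀ x b, f.1.f x = some b → f'.1.f x = some b := by
        rintro f f' h ⟨a, ζ⟩ b hb
        obtain ⟨ha, hb', hm⟩ := hg f a ζ b hb
        rw [h] at hm
        exact hm
      apply Subtype.ext
      apply Col.ext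
      funext x
      refine Option.ext fun b => ⟨key f f' h x b, key f' f h.symm x b⟩
    calc #(L α) ≤ #(Set X) := mk_le_of_injective hinj
      _ = 2 ^ #X := mk_set
      _ ≤ κ := (hκ.isStrongPrelimit hX).le
  calc #(Col δ (Nod κ) D) = #(Set.univ : Set (Col δ (Nod κ) D)) := mk_univ.symm
    _ ≤ #(⋃ α, L α : Set (Col δ (Nod κ) D)) := mk_le_mk_of_subset hcov
    _ ≤ Cardinal.sum fun α => #(L α) := mk_iUnion_le_sum_mk
    _ ≤ Cardinal.sum fun _ : Nod κ => κ := sum_le_sum _ _ hL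
    _ = #(Nod κ) * κ := sum_const' _ _
    _ = κ := by rw [mk_ord_toType, mul_eq_self hκ.aleph0_lt.le]

theorem mk_fn_le (B : Type) (hB : ℵ₀ ≤ #B) : #(CLC.Fn B) ≤ #B := mk_fin0_le B hB

section

variable {κ : ℕ → Cardinal.{0}}

theorem mu_lt (h0 : ℵ₀ < κ 0) (a : Nod (κ 0)) : mu κ a < κ 0 := max_lt h0 (LFAux.mk_iio_lt a)

theorem aleph0_le_mu (a : Nod (κ 0)) : ℵ₀ ≤ mu κ a := le_max_left _ _

theorem mk_KK_le (a : Nod (κ 0)) : #(KK κ a) ≤ mu κ a := by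
  have h := mk_fn_le (Nod (mu κ a)) (by rw [mk_ord_toType]; exact aleph0_le_mu a)
  rwa [mk_ord_toType] at h

theorem mk_CC_le (hin : ∀ n, (κ n).IsInaccessible) (a : Nod (κ 0)) : #(CLC.CC κ a) ≤ κ 0 := by
  refine mk_col_le (hin 0) (mu_lt (hin 0).aleph0_lt a) ?_
  rw [mk_ord_toType]
  exact (hin 0).isSuccLimit.succ_lt (mu_lt (hin 0).aleph0_lt a)

theorem mk_CJ_le (hκ : StrictMono κ) (hin : ∀ n, (κ n).IsInaccessible) (j : ℕ) :
    #(CJ κ j) ≤ κ (j + 1) := by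
  have h1 : Order.succ (κ j) < κ (j + 1) := (hin (j + 1)).isSuccLimit.succ_lt (hκ (Nat.lt_succ_self j))
  refine mk_col_le (hin (j + 1)) h1 ?_
  rw [mk_ord_toType]
  exact (hin (j + 1)).isSuccLimit.succ_lt h1

theorem mk_prod_fin_le {D : ℕ → Type} (hκ : StrictMono κ) (h0 : ℵ₀ ≤ κ 0)
    (hD : ∀ j, #(D j) ≤ κ (j + 1)) (m : ℕ) : #(∀ j : Fin m, D j) ≤ κ m := by
  have hinf : ∀ n, ℵ₀ ≤ κ n := fun n => h0.trans (hκ.monotone (Nat.zero_le n))
  induction m with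
  | zero =>
    have : #(∀ j : Fin 0, D j) ≤ 1 := by
      rw [Cardinal.le_one_iff_subsingleton]
      exact ⟨fun f g => funext fun j => j.elim0⟩
    exact this.trans (one_le_aleph0.trans (hinf 0))
  | succ m ih =>
    let f : (∀ j : Fin (m + 1), D j) → (∀ j : Fin m, D j) × D m :=
      fun s => (fun j => s j.castSucc, s (Fin.last m))
    have hf : Function.Injective f := by
      intro s s' h
      have h1 := congrArg Prod.fst h
      have h2 := congrArg Prod.snd h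
      funext j
      refine Fin.lastCases ?_ (fun j => ?_) j
      · exact h2
      · exact congrFun h1 j
    refine (mk_le_of_injective hf).trans ?_
    rw [mk_prod, lift_id, lift_id]
    refine (mul_le_mul' (ih.trans (hκ (Nat.lt_succ_self m)).le) (hD m)).trans ?_
    exact (mul_eq_self (hinf (m + 1))).le

theorem mk_small_le (hκ : StrictMono κ) (hin : ∀ n, (κ n).IsInaccessible) (a : Nod (κ 0))
    (m : ℕ) : #(KK κ a × CLC.CC κ a × (∀ j : Fin m, CJ κ j)) ≤ κ m := by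
  have h0 := (hin 0).aleph0_lt.le
  have hm0 : κ 0 ≤ κ m := hκ.monotone (Nat.zero_le m)
  rw [mk_prod, mk_prod]
  simp only [lift_id]
  refine (mul_le_mul' (((mk_KK_le a).trans (mu_lt (hin 0).aleph0_lt a).le).trans hm0)
    (mul_le_mul' ((mk_CC_le hin a).trans hm0) (mk_prod_fin_le hκ h0 (mk_CJ_le hκ hin) m))).trans ?_
  rw [mul_eq_self (h0.trans hm0), mul_eq_self (h0.trans hm0)]

theorem cj_closed (hκ : StrictMono κ) (h0 : ℵ₀ ≤ κ 0) {m j : ℕ} (h : m ≤ j) :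
    DirectedClosed (κ m) (CJ κ j) := by
  have h1 : ℵ₀ ≤ κ j := h0.trans (hκ.monotone (Nat.zero_le j))
  have hc : DirectedClosed (Order.succ (κ j)) (CJ κ j) :=
    Col.closed (h1.trans (Order.le_succ _))
  exact fun S hS hd => hc S (hS.trans ((hκ.monotone h).trans (Order.le_succ _))) hd

theorem pi_closed {σ : Cardinal.{0}} {ι : Type} {D : ι → Type} [∀ j, Preorder (D j)]
    (hD : ∀ j, DirectedClosed σ (D j)) : DirectedClosed σ (∀ j, D j) := by
  intro S hS hd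
  have h : ∀ j, ∃ q : D j, ∀ s ∈ S, q ≤ s j := by
    intro j
    obtain ⟨q, hq⟩ := hD j ((fun s => s j) '' S) (mk_image_le.trans hS) (by
      rintro _ ⟨s, hs, rfl⟩ _ ⟨s', hs', rfl⟩
      obtain ⟨t, ht, h1, h2⟩ := hd s hs s' hs'
      exact ⟨_, ⟨t, ht, rfl⟩, h1 j, h2 j⟩)
    exact ⟨q, fun s hs => hq _ ⟨s, hs, rfl⟩⟩
  choose q hq using h
  exact ⟨q, fun s hs j => hq j s hs⟩

theorem prod_closed {σ : Cardinal.{0}} {P Q : Type} [Preorder P] [Preorder Q]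
    (hP : DirectedClosed σ P) (hQ : DirectedClosed σ Q) : DirectedClosed σ (P × Q) := by
  intro S hS hd
  obtain ⟨p, hp⟩ := hP (Prod.fst '' S) (mk_image_le.trans hS) (by
    rintro _ ⟨a, ha, rfl⟩ _ ⟨b, hb, rfl⟩
    obtain ⟨c, hc, h1, h2⟩ := hd a ha b hb
    exact ⟨_, ⟨c, hc, rfl⟩, h1.1, h2.1⟩)
  obtain ⟨q, hq⟩ := hQ (Prod.snd '' S) (mk_image_le.trans hS) (by
    rintro _ ⟨a, ha, rfl⟩ _ ⟨b, hb, rfl⟩
    obtain ⟨c, hc, h1, h2⟩ := hd a ha b hb
    exact ⟨_, ⟨c, hc, rfl⟩, h1.2, h2.2⟩)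
  exact ⟨(p, q), fun s hs => ⟨hp _ ⟨s, hs, rfl⟩, hq _ ⟨s, hs, rfl⟩⟩⟩

theorem ww_closed (hκ : StrictMono κ) (h0 : ℵ₀ < κ 0) (a : Nod (κ 0)) :
    DirectedClosed (mu κ a) (WW κ a) :=
  prod_closed (Col.closed (aleph0_le_mu a)) (pi_closed fun _ S hS hd =>
    cj_closed hκ h0.le (Nat.zero_le _) S (hS.trans (mu_lt h0 a).le) hd)

theorem exists_pieces' (hκ : StrictMono κ) (h0 : ℵ₀ ≤ κ 0) :
    ∃ ν : Nod (nu κ) → ℕ, ∀ n, #{i // ν i ≤ n} ≤ κ n := by
  obtain ⟨ν, hν⟩ := exists_pieces κ hκ h0 (Nod (nu κ)) (mk_ord_toType _)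
  refine ⟨fun i => ν i + 1, fun n => ?_⟩
  rcases n with _ | n
  · have : #{i // ν i + 1 ≤ 0} = 0 := by
      rw [Cardinal.mk_eq_zero_iff]
      exact ⟨fun i => absurd i.2 (by omega)⟩
    rw [this]
    exact bot_le
  · refine le_trans ?_ (hν n).le
    exact mk_subtype_mono fun i hi => Nat.le_of_succ_le_succ hi

theorem le_nu (κ : ℕ → Cardinal.{0}) (n : ℕ) : κ n ≤ nu κ := by
  have hb : BddAbove (Set.range κ) := Cardinal.bddAbove_of_small
  exact le_ciSup hb n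

theorem amb_nu (h0 : ℵ₀ ≤ κ 0) : Amb (Lev (nu κ)) (Nod (nu κ)) := amb_lev (h0.trans (le_nu κ 0))

theorem mk_lev_le (hκ : StrictMono κ) : #(Lev (nu κ)) ≤ #(ℕ → Nod (nu κ)) := by
  rw [mk_ord_toType, ← Cardinal.power_def, Cardinal.mk_nat, mk_ord_toType]
  exact Order.succ_le_of_lt (sup_lt_pow κ hκ)

end

end CTF
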