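import Pool.Agent.Lib.CTF.HDefs

namespace CTF

open Cardinal CAT9

/-! MODULE FU: fusion for products of collapses -/

theorem fus_prod {G0 C M : Type} [Preorder G0] [Preorder C] {D : ℕ → Type}
    [∀ j, Preorder (D j)] (κ : ℕ → Cardinal.{0}) (hκ : Monotone κ) (h0 : ℵ₀ ≤ κ 0)
    (hM : ∀ n, κ n ≤ #M) (ν : M → ℕ) (hν : ∀ n, #{i // ν i ≤ n} ≤ κ n)
    (hS : ∀ m, #(G0 × C × (∀ j : Fin m, D j)) ≤ κ m)
    (hD : ∀ m j, m ≤ j → DirectedClosed (κ m) (D j)) : Fus G0 (C × ∀ j, D j) M := by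
  sorry

/-! MODULE RG: regularity -/

theorem Fus.reg {G0 CC L M : Type} [Preorder G0] [Preorder CC] [LinearOrder L] [hA : Amb L M]
    (hF : Fus G0 CC M) {Z : Type} [Preorder Z] (cZ : DirectedClosed #M Z)
    (J : L → M → G0 → CC → Z → Prop)
    (hJ : ∀ ξ j g c z g' c' z', g' ≤ g → c' ≤ c → z' ≤ z → J ξ j g c z → J ξ j g' c' z')
    (g0 : G0) (c0 : CC) (z0 : Z)
    (hT : ∀ ξ g c z, g ≤ g0 → c ≤ c0 → z ≤ z0 →
      ∃ g' c' z', g' ≤ g ∧ c' ≤ c ∧ z' ≤ z ∧ ∃ j, J ξ j g' c' z') :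
    ∃ ξ η, ξ ≠ η ∧ ∃ j g c z, g ≤ g0 ∧ c ≤ c0 ∧ z ≤ z0 ∧ J ξ j g c z ∧ J η j g c z := by
  sorry

section

variable {G0 X0 CC Z L M : Type} [LinearOrder L] [Preorder G0] [PtsD G0 X0] [Preorder CC]
  [Preorder Z] [hA : Amb L M]

/-! MODULE T2: transplanting -/

theorem transplant2 (g : G0) (q q1 : Q2 G0 X0 L M) (h : ExtOn g q1.p q.p) :
    ∃ q', q' ≤ q ∧ q'.p.ht = q1.p.ht ∧
      (∀ a i x, x ∈ On (X0 := X0) g → q'.p.t a i x = q1.p.t a i x) ∧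
      ∀ x, x ∈ On (X0 := X0) g → ∀ ξ, ξ < q1.p.ht →
        q'.y () x ξ = repl q.p.ht (q.y ()) (q1.y ()) x ξ := by
  sorry

/-- If `q0` and `q1` agree at the points of `g` and `q1'` extends `q1`, then `q0` has an extension
which agrees with `q1'` at these points. -/
theorem agr_extend (g : G0) (q0 q1 q1' : Q2 G0 X0 L M) (h : AgrOn g q0 q1) (h' : q1' ≤ q1) :
    ∃ q0', q0' ≤ q0 ∧ AgrOn g q0' q1' := by
  sorry

variable {T : TreeName (It G0 X0 CC L M) L M} {r0 : G0 × CC × Z × Q2 G0 X0 L M}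

/-! MODULE H0: pairs which agree on a fixed condition -/

theorem ns1_exists (hF : Fus G0 CC M) (hLM : #L ≤ #(ℕ → M)) (cC : DirectedClosed ℵ₀ CC)
    (cZ : DirectedClosed #M Z) (B : BranchName (liftT Z T) r0) (g1 g2 : G0) (c2 : CC) (z2 : Z)
    (q2 : Q2 G0 X0 L M) (hg : g2 ≤ g1) (hle : (g2, c2, z2, q2) ≤ r0) :
    ∃ g c z q, g ≤ g2 ∧ c ≤ c2 ∧ z ≤ z2 ∧ q ≤ q2 ∧ ¬ Split1 B g1 g c z q := by
  sorry

/-! MODULE HB: the branch -/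

theorem branch_of_not_splitK (B : BranchName (liftT Z T) r0) {g : G0} {c : CC} {z : Z}
    {q : Q2 G0 X0 L M} (hle : (g, c, z, q) ≤ r0) (h : ¬ SplitK B g c z q Set.univ) :
    Nonempty (BranchName T (toIt (g, c, z, q))) := by
  sorry

/-! MODULE HU: unions -/

theorem SplitK.mono {B : BranchName (liftT Z T) r0} {g g' : G0} {c c' : CC} {z z' : Z}
    {q q' : Q2 G0 X0 L M} {C C' : Set (X0 × (ℕ → Bool))} (hg : g' ≤ g) (hc : c' ≤ c)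
    (hz : z' ≤ z) (hq : q' ≤ q) (hC : ∀ x, x ∈ On (X0 := X0) g' → x ∈ C' → x ∈ C)
    (h : SplitK B g' c' z' q' C') : SplitK B g c z q C := by
  sorry

theorem splitK_union {B : BranchName (liftT Z T) r0} {g : G0} {c : CC} {z : Z}
    {q : Q2 G0 X0 L M} (hle : (g, c, z, q) ≤ r0) {C0 C1 : Set (X0 × (ℕ → Bool))}
    (hC0 : Clop (G0 × AddOmega) C0) (h0 : ¬ SplitK B g c z q C0)
    (h1 : ¬ SplitK B g c z q C1) : ¬ SplitK B g c z q (C0 ∪ C1) := by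
  sorry

/-! MODULE HX: the name for a real -/

theorem exists_realX {χ : Cardinal.{0}} (hχ : ℵ₀ ≤ χ) (hχM : χ ≤ #M) (hG : #G0 ≤ χ)
    (cC : DirectedClosed χ CC) (cZ : DirectedClosed #M Z) (B : BranchName (liftT Z T) r0)
    {g0 : G0} {c0 : CC} {z0 : Z} {q0 : Q2 G0 X0 L M} (hle : (g0, c0, z0, q0) ≤ r0)
    (h : ∀ g c z q, g ≤ g0 → c ≤ c0 → z ≤ z0 → q ≤ q0 → SplitK B g c z q Set.univ) :
    ∃ x : X0 → ℕ → Bool, LocX G0 x ∧ ∃ c1 z1 q1, c1 ≤ c0 ∧ z1 ≤ z0 ∧ q1 ≤ q0 ∧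
      ∀ m g c z q, g ≤ g0 → c ≤ c1 → z ≤ z1 → q ≤ q1 → SplitK B g c z q (CX x m) := by
  sorry

/-! MODULE HN: splitting by names only -/

theorem splitN_of_splitK (B : BranchName (liftT Z T) r0) {g0 : G0} {c0 : CC} {z0 : Z}
    {q0 : Q2 G0 X0 L M} (hle : (g0, c0, z0, q0) ≤ r0)
    (hNS : ∀ g1 g c, g ≤ g1 → g ≤ g0 → c ≤ c0 → ∃ g' c', g' ≤ g ∧ c' ≤ c ∧
      ¬ Split1 B g1 g' c' z0 q0) {g : G0} {c : CC} {z : Z} {q : Q2 G0 X0 L M} (hg : g ≤ g0)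
    (hc : c ≤ c0) (hz : z ≤ z0) (hq : q ≤ q0) {C : Set (X0 × (ℕ → Bool))}
    (h : SplitK B g c z q C) : SplitN B g c z q C := by
  sorry

/-! MODULE HS: the descent -/

theorem no_splittingN (hF : Fus G0 CC M) (hLM : #L ≤ #(ℕ → M)) (cC : DirectedClosed ℵ₀ CC)
    (cZ : DirectedClosed #M Z) (B : BranchName (liftT Z T) r0) {g0 : G0} {c0 : CC} {z0 : Z}
    {q0 : Q2 G0 X0 L M} (hle : (g0, c0, z0, q0) ≤ r0) {x : X0 → ℕ → Bool} (hx : LocX G0 x)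
    (h : ∀ m g c z q, g ≤ g0 → c ≤ c0 → z ≤ z0 → q ≤ q0 → SplitN B g c z q (CX x m)) :
    False := by
  sorry

/-! Assembly -/

theorem ns1_fusion (hF : Fus G0 CC M) (hG : #G0 ≤ #M) (hLM : #L ≤ #(ℕ → M))
    (cC : DirectedClosed ℵ₀ CC) (cZ : DirectedClosed #M Z) (B : BranchName (liftT Z T) r0) :
    ∃ c1 z1 q1, c1 ≤ r0.2.1 ∧ z1 ≤ r0.2.2.1 ∧ q1 ≤ r0.2.2.2 ∧
      ∀ g1 g c, g ≤ g1 → g ≤ r0.1 → c ≤ c1 → ∃ g' c', g' ≤ g ∧ c' ≤ c ∧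
        ¬ Split1 B g1 g' c' z1 q1 := by
  classical
  have cZQ : DirectedClosed #M (Z × Q2 G0 X0 L M) := by
    intro S hS hd
    obtain ⟨z, hz⟩ := cZ (Prod.fst '' S) (Cardinal.mk_image_le.trans hS) (by
      rintro _ ⟨a, ha, rfl⟩ _ ⟨b, hb, rfl⟩
      obtain ⟨c, hc, h1, h2⟩ := hd a ha b hb
      exact ⟨c.1, ⟨c, hc, rfl⟩, h1.1, h2.1⟩)
    obtain ⟨q, hq⟩ := qq_closed (Prod.snd '' S) (Cardinal.mk_image_le.trans hS) (by
      rintro _ ⟨a, ha, rfl⟩ _ ⟨b, hb, rfl⟩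
      obtain ⟨c, hc, h1, h2⟩ := hd a ha b hb
      exact ⟨c.2, ⟨c, hc, rfl⟩, h1.2, h2.2⟩)
    exact ⟨(z, q), fun s hs => ⟨hz _ ⟨s, hs, rfl⟩, hq _ ⟨s, hs, rfl⟩⟩⟩
  obtain ⟨c1, ⟨z1, q1⟩, hc1, hz1, Val, -, hV⟩ := hF (Z × Q2 G0 X0 L M) cZQ G0 Unit hG
    (fun g1 _ g c d => (∀ k, k ≤ g → ¬ k ≤ g1) ∨ (g ≤ g1 ∧ ¬ Split1 B g1 g c d.1 d.2))
    (by
      rintro g1 - g c d g' c' d' hg hc hd (h | ⟨h, h'⟩)
      · exact Or.inl fun k hk => h k (hk.trans hg)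
      · refine Or.inr ⟨hg.trans h, fun hs => h' ?_⟩
        obtain ⟨g'', c'', z0, z1, q0, q1, e1, e2, e3, e4, e5, e6, e7⟩ := hs
        exact ⟨g'', c'', z0, z1, q0, q1, e1.trans hg, e2.trans hc, e3.trans hd.1, e4.trans hd.1,
          e5.trans hd.2, e6.trans hd.2, e7⟩)
    r0.1 r0.2.1 r0.2.2
    (by
      rintro g1 g c ⟨z, q⟩ hg hc ⟨hz, hq⟩
      by_cases h : ∃ k, k ≤ g ∧ k ≤ g1
      · obtain ⟨k, hk, hk'⟩ := h
        obtain ⟨g', c', z', q', e1, e2, e3, e4, e5⟩ := ns1_exists hF hLM cC cZ B g1 k c z q hk'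
          ⟨hk.trans hg, hc, hz, hq⟩
        exact ⟨g', c', (z', q'), e1.trans hk, e2, ⟨e3, e4⟩, (), Or.inr ⟨e1.trans hk', e5⟩⟩
      · exact ⟨g, c, (z, q), le_rfl, le_rfl, le_rfl, (), Or.inl fun k hk hk' => h ⟨k, hk, hk'⟩⟩)
  refine ⟨c1, z1, q1, hc1, hz1.1, hz1.2, fun g1 g c hg hg0 hc => ?_⟩
  obtain ⟨g', c', hg', hc', -, -, h | ⟨-, h⟩⟩ := hV g1 g c hg0 hc
  · exact absurd (hg'.trans hg) (h g' le_rfl)
  · exact ⟨g', c', hg', hc', h⟩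

/-- A branch in the extension by the product gives a branch in the extension by the iteration. -/
theorem descend (hF : Fus G0 CC M) {χ : Cardinal.{0}} (hχ : ℵ₀ ≤ χ) (hχM : χ ≤ #M)
    (hG : #G0 ≤ χ) (cC : DirectedClosed χ CC) (hLM : #L ≤ #(ℕ → M))
    (cZ : DirectedClosed #M Z) (B : BranchName (liftT Z T) r0) :
    ∃ p, p ≤ toIt r0 ∧ Nonempty (BranchName T p) := by
  have cC0 : DirectedClosed ℵ₀ CC := fun S hS hd => cC S (hS.trans hχ) hd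
  obtain ⟨c1, z1, q1, hc1, hz1, hq1, hNS⟩ := ns1_fusion hF (hG.trans hχM) hLM cC0 cZ B
  have hle : (r0.1, c1, z1, q1) ≤ r0 := ⟨le_rfl, hc1, hz1, hq1⟩
  by_contra hcon
  push Not at hcon
  have hall : ∀ g c z q, g ≤ r0.1 → c ≤ c1 → z ≤ z1 → q ≤ q1 → SplitK B g c z q Set.univ := by
    intro g c z q hg hc hz hq
    by_contra h
    have hle' : (g, c, z, q) ≤ r0 := ⟨hg, hc.trans hc1, hz.trans hz1, hq.trans hq1⟩
    obtain ⟨b⟩ := branch_of_not_splitK B hle' h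
    exact (hcon _ (toIt_proj.mono _ _ hle')).false b
  obtain ⟨x, hx, c2, z2, q2, hc2, hz2, hq2, hs⟩ := exists_realX hχ hχM hG cC cZ B hle hall
  refine no_splittingN hF hLM cC0 cZ B (g0 := r0.1) (c0 := c2) (z0 := z2) (q0 := q2)
    ⟨le_rfl, hc2.trans hc1, hz2.trans hz1, hq2.trans hq1⟩ hx fun m g c z q hg hc hz hq => ?_
  exact splitN_of_splitK B hle hNS hg (hc.trans hc2) (hz.trans hz2) (hq.trans hq2)
    (hs m g c z q hg hc hz hq)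

end

end CTF
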