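import Pool.Agent.Lib.CTF.Trans
import Pool.Agent.Lib.CAT9.Aron

/-!
# The Aronszajn tree in the extension by the iteration and a Cohen real
-/

namespace CTF

open Cardinal CAT9

/-! ### Cardinalities and products -/

theorem arMkAdd : #AddOmega ≤ ℵ₀ := by
  classical
  let S : Type := {f : ℕ → Option Bool // {n | f n ≠ none}.Finite}
  let F : S → Finset (ℕ × Bool) := fun f =>
    (f.2.toFinset ×ˢ Finset.univ).filter fun z => f.1 z.1 = some z.2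
  have hF : ∀ (f : S) n b, (n, b) ∈ F f ↔ f.1 n = some b := by
    intro f n b
    simp only [F, Finset.mem_filter, Finset.mem_product, Set.Finite.mem_toFinset, Set.mem_setOf_eq,
      Finset.mem_univ, and_true]
    constructor
    · intro h
      exact h.2
    · intro h
      exact ⟨by rw [h]; simp, h⟩
  have inj : Function.Injective F := by
    intro f g hfg
    refine Subtype.ext (funext fun n => ?_)
    refine Option.ext fun b => ?_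
    rw [← hF f n b, ← hF g n b, hfg]
  exact (Cardinal.mk_le_of_injective inj).trans (Cardinal.mk_le_aleph0 (α := Finset (ℕ × Bool)))

theorem arProdClosed {P Q : Type} [Preorder P] [Preorder Q] {χ : Cardinal.{0}}
    (hP : DirectedClosed χ P) (hQ : DirectedClosed χ Q) : DirectedClosed χ (P × Q) := by
  intro S hS hdir
  obtain ⟨p, hp⟩ := hP (Prod.fst '' S) (Cardinal.mk_image_le.trans hS) (by
    rintro _ ⟨x, hx, rfl⟩ _ ⟨y, hy, rfl⟩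
    obtain ⟨z, hz, h1, h2⟩ := hdir x hx y hy
    exact ⟨_, ⟨z, hz, rfl⟩, h1.1, h2.1⟩)
  obtain ⟨q, hq⟩ := hQ (Prod.snd '' S) (Cardinal.mk_image_le.trans hS) (by
    rintro _ ⟨x, hx, rfl⟩ _ ⟨y, hy, rfl⟩
    obtain ⟨z, hz, h1, h2⟩ := hdir x hx y hy
    exact ⟨_, ⟨z, hz, rfl⟩, h1.2, h2.2⟩)
  exact ⟨(p, q), fun s hs => ⟨hp _ ⟨s, hs, rfl⟩, hq _ ⟨s, hs, rfl⟩⟩⟩

section

variable {G0 X0 CC L M : Type} [LinearOrder L] [Preorder G0] [PtsD G0 X0] [Preorder CC]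
  [LinearOrder M]

/-- The order of the tree of names, for the iteration. -/
def R1 (r : It G0 X0 CC L M × AddOmega) (x y : L × M) : Prop :=
  R0 (G := G0 × AddOmega) (X := X0 × (ℕ → Bool)) (r.1.2.2, (r.1.1, r.2)) x y

/-- The condition in `G0 × AddOmega` of a condition. -/
def gof (r : It G0 X0 CC L M × AddOmega) : G0 × AddOmega := (r.1.1, r.2)

omit [LinearOrder M] in
theorem gof_mono {r s : It G0 X0 CC L M × AddOmega} (h : s ≤ r) : gof s ≤ gof r :=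
  ⟨h.1.1, h.2⟩

omit [LinearOrder M] in
theorem ext_eq {r s : It G0 X0 CC L M × AddOmega} (h : s ≤ r) {g : G0 × AddOmega}
    (hg : g ≤ gof s) {a : L} (ha : a ≤ r.1.2.2.ht) (i : M) {c : X0 × (ℕ → Bool)}
    (hc : c ∈ Pts.cy g) : s.1.2.2.t a i c = r.1.2.2.t a i c :=
  h.1.2.2.2 a ha i c (Pts.cy_mono (X := X0) _ _ hg.1 hc.1)

theorem R1.mono (p q : It G0 X0 CC L M × AddOmega) (x y : L × M) (h : q ≤ p) (hR : R1 p x y) :
    R1 q x y := by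
  obtain ⟨h1, h2, h3, h4⟩ := hR
  have hx : x.1 ≤ p.1.2.2.ht := h1.le.trans h2
  refine ⟨h1, h2.trans h.1.2.2.1, fun c hc ξ hξ => ?_, fun i' hi' g hg hcon => ?_⟩
  · change q.1.2.2.t x.1 x.2 c ξ = q.1.2.2.t y.1 y.2 c ξ
    have hc' : c ∈ Pts.cy (gof q) := hc
    rw [ext_eq h le_rfl hx x.2 hc', ext_eq h le_rfl h2 y.2 hc']
    exact h3 c (Pts.cy_mono _ _ (gof_mono h) hc) ξ hξ
  · refine h4 i' hi' g (le_trans hg (gof_mono h)) fun c hc ξ hξ => ?_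
    have e := hcon c hc ξ hξ
    change q.1.2.2.t x.1 i' c ξ = q.1.2.2.t y.1 y.2 c ξ at e
    rw [ext_eq h hg hx i' hc, ext_eq h hg h2 y.2 hc] at e
    exact e

/-- The name for the tree. -/
def itTree [hA : Amb L M] [WellFoundedLT M] : TreeName (It G0 X0 CC L M × AddOmega) L M :=
  TreeName.ofRaw (fun p x y => R1 p x y) (fun p q x y h h' => R1.mono p q x y h h')
    (fun _ _ _ h => h.1)
    (by
      intro p x y z h1 h2
      refine ⟨h1.1.trans h2.1, h2.2.1, fun c hc ξ hξ => ?_, fun i' hi' g hg hcon => ?_⟩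
      · exact (h1.2.2.1 c hc ξ hξ).trans (h2.2.2.1 c hc ξ (hξ.trans h1.1))
      · refine h1.2.2.2 i' hi' g hg fun c hc ξ hξ => ?_
        exact (hcon c hc ξ hξ).trans
          (h2.2.2.1 c (Pts.cy_mono _ _ hg hc) ξ (hξ.trans h1.1)).symm)
    (by
      intro p x y z h1 h2 hxy
      refine ⟨hxy, h2.1.le.trans h2.2.1, fun c hc ξ hξ => ?_, fun i' hi' g hg hcon => ?_⟩
      · exact (h1.2.2.1 c hc ξ hξ).trans (h2.2.2.1 c hc ξ (hξ.trans hxy)).symm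
      · refine h1.2.2.2 i' hi' g hg fun c hc ξ hξ => ?_
        exact (hcon c hc ξ hξ).trans
          (h2.2.2.1 c (Pts.cy_mono _ _ hg hc) ξ (hξ.trans hxy)))
    (by
      intro p a i j z h1 h2
      rcases lt_trichotomy i j with h | h | h
      · exact absurd h1.2.2.1 (h2.2.2.2 i h _ le_rfl)
      · exact h
      · exact absurd h2.2.2.1 (h1.2.2.2 j h _ le_rfl))
    (by
      classical
      rintro ⟨⟨g, c, p⟩, f⟩ y a ha
      obtain ⟨p', hp', hht⟩ := cond_ht_dense y.1 p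
      obtain ⟨g0, hg0, i0, hi0⟩ := p'.sys.coh a y.1 ha hht y.2 (g, f)
      obtain ⟨i, hi, hmin⟩ := exists_min M
        {i | ∃ h : G0 × AddOmega, h ≤ (g, f) ∧ ∀ c ∈ Pts.cy (X := X0 × (ℕ → Bool)) h, ∀ ξ, ξ < a →
          p'.t a i c ξ = p'.t y.1 y.2 c ξ}
        ⟨i0, g0, hg0, fun c hc ξ hξ => (hi0 c hc ξ hξ).symm⟩
      obtain ⟨h, hg, hgi⟩ := hi
      refine ⟨((h.1, c, p'), h.2), ⟨⟨hg.1, le_rfl, hp'.1, fun α hα i x _ => ?_⟩, hg.2⟩, i, ha, hht,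
        hgi, fun i' hi' g' hg' hcon => ?_⟩
      · rw [hp'.2 α hα]
      · exact absurd hi' (not_lt.2 (hmin i' ⟨g', hg'.trans hg, hcon⟩)))

end

theorem it_aron {G0 X0 CC L M : Type} [LinearOrder L] [Preorder G0] [PtsD G0 X0] [Preorder CC]
    [hA : Amb L M] [LinearOrder M] [WellFoundedLT M] {χ : Cardinal.{0}} (hχ : ℵ₀ ≤ χ)
    (hχM : χ ≤ #M) (hG : #G0 ≤ χ) (cCC : DirectedClosed χ CC) :
    ∃ T : TreeName (It G0 X0 CC L M × AddOmega) L M, ∀ p, ¬ Nonempty (BranchName T p) := by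
  classical
  refine ⟨itTree, ?_⟩
  rintro ⟨⟨g0, c0, p0⟩, f0⟩ ⟨Bn⟩
  have := hA.wf
  have := Amb.neM L hA
  have hGA : #(G0 × AddOmega) ≤ χ := by
    rw [Cardinal.mk_prod, Cardinal.lift_id, Cardinal.lift_id]
    exact (mul_le_mul' hG (arMkAdd.trans hχ)).trans (Cardinal.mul_eq_self hχ).le
  let X : Type := X0 × (ℕ → Bool)
  let Q : Type := QQ (G0 × AddOmega) L M X
  have cQ : DirectedClosed χ Q := fun S hS hdir =>
    qq_closed (G := G0 × AddOmega) (X := X) (L := L) (M := M) S (hS.trans hχM) hdir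
  have cCQ : DirectedClosed χ (CC × Q) := arProdClosed cCC cQ
  let K : Type := {f : G0 × AddOmega // f ≤ (g0, f0)}
  -- the condition given by a condition of the small part and a state
  let cnd : G0 × AddOmega → CC × Q → It G0 X0 CC L M × AddOmega := fun g s =>
    ((g.1, s.1, s.2.p), g.2)
  have hcnd : ∀ (g g' : G0 × AddOmega) (s s' : CC × Q), g' ≤ g → s' ≤ s → cnd g' s' ≤ cnd g s := by
    intro g g' s s' hg hs
    refine ⟨⟨hg.1, hs.1, hs.2.1.1, fun a ha i x _ => ?_⟩, hg.2⟩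
    exact congrFun (congrFun (hs.2.1.2 a ha) i) x
  let D : K → L → Set (CC × Q) := fun f δ =>
    {s | ∃ g, g ≤ f.1 ∧ ∃ α, α ≤ s.2.p.ht ∧ ∃ i, Bn.B (cnd g s) α i ∧
      ∃ ξ, δ ≤ ξ ∧ ξ < α ∧ ∀ c ∈ Pts.cy (X := X) g, s.2.y () c ξ ≠ s.2.p.t α i c ξ}
  have hDo : ∀ f δ, ∀ s s' : CC × Q, s' ≤ s → s ∈ D f δ → s' ∈ D f δ := by
    rintro f δ s s' hle ⟨g, hg, α, hα, i, hB, ξ, h1, h2, h3⟩
    refine ⟨g, hg, α, hα.trans hle.2.1.1, i, Bn.mono _ _ α i (hcnd g g s s' le_rfl hle) hB, ξ, h1,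
      h2, ?_⟩
    intro c hc
    rw [hle.2.2.1 () c ξ (h2.trans_le hα), hle.2.1.2 α hα]
    exact h3 c hc
  have hDd : ∀ f δ, ∀ s : CC × Q, s.1 ≤ c0 → s.2.p ≤ p0 → ∃ s', s' ≤ s ∧ s' ∈ D f δ := by
    rintro f δ ⟨c, s⟩ hc hs
    have hc : c ≤ c0 := hc
    have hs : s.p ≤ p0 := hs
    obtain ⟨s1, hs1, hδ⟩ := ht_dense δ s
    obtain ⟨α, hα⟩ := hA.bdd Unit (fun _ => s1.p.ht) (mk_unit_le (L := L))
    have hα := hα ()
    obtain ⟨⟨⟨g', c', p'⟩, f'⟩, hle, i, hB⟩ := Bn.total (cnd f.1 (c, s1)) (by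
      have h1 := hs1.1.trans hs
      refine ⟨⟨f.2.1, hc, h1.1, fun a ha i x _ => ?_⟩, f.2.2⟩
      exact congrFun (congrFun (h1.2 a ha) i) x) α
    have hg1 : g' ≤ f.1.1 := hle.1.1
    have hc' : c' ≤ c := hle.1.2.1
    have hp1 : ExtOn g' p' s1.p := hle.1.2.2
    have hf1 : f' ≤ f.1.2 := hle.2
    obtain ⟨s2, hs2, hht2, heq2⟩ := transplant' g' s1 p' hp1
    obtain ⟨p2, hp2, hht⟩ := cond_ht_dense α s2.p
    have hα1 : LocIn (G0 × AddOmega) p2.t α (flp s1.p.ht (p2.t α i)) :=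
      p2.sys.flip' hht (LocIn.self (G0 × AddOmega) _ _ _)
    obtain ⟨w, hw⟩ := exists_mem p2
    have hw' : LocIn (G0 × AddOmega) p2.t p2.ht (repl α (flp s1.p.ht (p2.t α i)) w) :=
      p2.sys.repl' hht (Set.mem_Iic.2 le_rfl) hα1 hw
    have hp21 : p2 ≤ s1.p := hp2.trans hs2.1
    refine ⟨(c', s1.ext p2 hp21 _ hw'), ⟨hc', (s1.ext_le p2 hp21 _ hw').trans hs1⟩, (g', f'),
      ⟨hg1, hf1⟩, α, hht, i, ?_, s1.p.ht, hδ, hα, fun c _ => ?_⟩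
    · refine Bn.mono _ _ α i ?_ hB
      refine ⟨⟨le_rfl, le_rfl, hht2.ge.trans hp2.1, fun a ha i x hx => ?_⟩, le_rfl⟩
      change p2.t a i x = p'.t a i x
      rw [hp2.2 a (ha.trans hht2.ge)]
      exact heq2 a i x hx
    · change repl s1.p.ht (s1.y ()) (repl α (flp s1.p.ht (p2.t α i)) w) c s1.p.ht ≠
        p2.t α i c s1.p.ht
      rw [repl_ge le_rfl, repl_lt hα, flp_self]
      simp
  have hstep : ∀ s : {s : CC × Q // s.1 ≤ c0 ∧ s.2.p ≤ p0},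
      ∃ s' : {s : CC × Q // s.1 ≤ c0 ∧ s.2.p ≤ p0},
      s'.1 ≤ s.1 ∧ s.1.2.p.ht < s'.1.2.p.ht ∧ ∀ f, s'.1 ∈ D f s.1.2.p.ht := by
    rintro ⟨s, hsc, hs⟩
    obtain ⟨r, hr, hrD⟩ := meet hχ cCQ (K := K) ((Cardinal.mk_subtype_le _).trans hGA)
      (fun f => D f s.2.p.ht) s (fun f q r h => hDo f _ q r h)
      (fun f q hq => hDd f _ q (hq.1.trans hsc) (hq.2.1.trans hs))
    obtain ⟨p', hp', hlt⟩ := succ_ext r.2.p
    obtain ⟨w, hw⟩ := exists_mem p'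
    have hle := r.2.ext_le p' hp' w hw
    have hle' : ((r.1, r.2.ext p' hp' w hw) : CC × Q) ≤ r := ⟨le_rfl, hle⟩
    exact ⟨⟨(r.1, r.2.ext p' hp' w hw), hr.1.trans hsc, (hle.1.trans hr.2.1).trans hs⟩,
      hle'.trans hr, hr.2.1.1.trans_lt hlt, fun f => hDo f _ _ _ hle' (hrD f)⟩
  choose nx hn1 hn2 hn3 using hstep
  obtain ⟨w0, hw0⟩ := exists_mem p0
  let s : ℕ → {s : CC × Q // s.1 ≤ c0 ∧ s.2.p ≤ p0} := fun m =>
    Nat.rec ⟨(c0, mkQ p0 w0 hw0), le_rfl, le_rfl⟩ (fun _ s => nx s) m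
  have hs : ∀ m, s (m + 1) = nx (s m) := fun m => rfl
  have hanti : Antitone fun m => (s m).1 :=
    antitone_nat_of_succ_le fun m => by
      change (s (m + 1)).1 ≤ (s m).1
      rw [hs m]
      exact hn1 (s m)
  obtain ⟨q, hq1, hq2, hq3, hq4⟩ := union_level (mk_unit_le (L := L))
    (Set.range fun m => (s m).1.2)
    ((Cardinal.mk_range_le.trans (le_of_eq Cardinal.mk_nat)).trans hA.inf)
    ⟨_, ⟨0, rfl⟩⟩
    (by
      rintro x ⟨m, rfl⟩ y ⟨n, rfl⟩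
      exact ⟨_, ⟨max m n, rfl⟩, (hanti (le_max_left m n)).2, (hanti (le_max_right m n)).2⟩)
    (by
      rintro x ⟨m, rfl⟩
      exact ⟨_, ⟨m + 1, rfl⟩, hn2 (s m)⟩)
  obtain ⟨ci, hci⟩ := cCC (Set.range fun m => (s m).1.1)
    ((Cardinal.mk_range_le.trans (le_of_eq Cardinal.mk_nat)).trans hχ)
    (by
      rintro x ⟨m, rfl⟩ y ⟨n, rfl⟩
      exact ⟨_, ⟨max m n, rfl⟩, (hanti (le_max_left m n)).1, (hanti (le_max_right m n)).1⟩)
  have hqp0 : q.p ≤ p0 := (hq1 _ ⟨0, rfl⟩).1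
  have hci0 : ci ≤ c0 := hci _ ⟨0, rfl⟩
  obtain ⟨⟨⟨g1, c1, p'⟩, f1⟩, hle, k, hB⟩ := Bn.total (cnd (g0, f0) (ci, q)) (by
      refine ⟨⟨le_rfl, hci0, hqp0.1, fun a ha i x _ => ?_⟩, le_rfl⟩
      exact congrFun (congrFun (hqp0.2 a ha) i) x) q.p.ht
  have hg1 : g1 ≤ g0 := hle.1.1
  have hc1 : c1 ≤ ci := hle.1.2.1
  have hp' : ExtOn g1 p' q.p := hle.1.2.2
  have hf1 : f1 ≤ f0 := hle.2
  obtain ⟨j, l, hl⟩ := hq4 k
  obtain ⟨m, hm⟩ : ∃ m, ∀ d ∈ l, d.1 < (s m).1.2.p.ht := by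
    clear hl
    induction l with
    | nil => exact ⟨0, by simp⟩
    | cons d l ih =>
      obtain ⟨m, hm⟩ := ih
      obtain ⟨x, ⟨n, rfl⟩, hn⟩ := hq3 d.1 d.2
      refine ⟨max m n, fun e he => ?_⟩
      rcases List.mem_cons.1 he with rfl | he
      · exact lt_of_lt_of_le hn (hanti (le_max_right m n)).2.1.1
      · exact lt_of_lt_of_le (hm e he) (hanti (le_max_left m n)).2.1.1
  have hD := hn3 (s m) ⟨(g1, f1), ⟨hg1, hf1⟩⟩
  rw [← hs m] at hD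
  obtain ⟨g, hg, α, hα, i, hBi, ξ, hξ1, hξ2, hξ3⟩ := hD
  have hqs : q ≤ (s (m + 1)).1.2 := hq1 _ ⟨m + 1, rfl⟩
  have hcs : c1 ≤ (s (m + 1)).1.1 := hc1.trans (hci _ ⟨m + 1, rfl⟩)
  have hαγ : α < q.p.ht := hα.trans_lt (hq2 _ ⟨m + 1, rfl⟩)
  have hgg : g.1 ≤ g1 := hg.1
  have hB1 : Bn.B ((g.1, c1, p'), g.2) α i := by
    refine Bn.mono (cnd g (s (m + 1)).1) _ α i ?_ hBi
    refine ⟨⟨le_rfl, hcs, hqs.1.1.trans hp'.1, fun a ha i x hx => ?_⟩, le_rfl⟩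
    have e1 := hp'.2 a (ha.trans hqs.1.1) i x (Pts.cy_mono _ _ hgg hx)
    rw [hqs.1.2 a ha] at e1
    exact e1
  have hB2 : Bn.B ((g.1, c1, p'), g.2) q.p.ht k :=
    Bn.mono ((g1, c1, p'), f1) _ _ k ⟨⟨hgg, le_rfl, le_rfl, fun _ _ _ _ _ => rfl⟩, hg.2⟩ hB
  obtain ⟨⟨⟨g2, c2, p2⟩, f2⟩, hr, hR⟩ := Bn.chain _ _ _ _ _ hB1 hB2 hαγ ((g.1, c1, p'), g.2) le_rfl
  have hg2 : g2 ≤ g.1 := hr.1.1
  have hp2 : ExtOn g2 p2 p' := hr.1.2.2
  have hf2 : f2 ≤ g.2 := hr.2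
  obtain ⟨c, hc⟩ := Pts.cy_ne (X := X) ((g2, f2) : G0 × AddOmega)
  have hcg2 : c.1 ∈ Pts.cy (X := X0) g2 := hc.1
  have hcg1 : c.1 ∈ Pts.cy (X := X0) g1 := Pts.cy_mono _ _ (hg2.trans hgg) hcg2
  have e1 : p2.t α i c = (s (m + 1)).1.2.p.t α i c := by
    rw [hp2.2 α (hαγ.le.trans hp'.1) i c hcg2, hp'.2 α hαγ.le i c hcg1, hqs.1.2 α hα]
  have e2 : p2.t q.p.ht k c = q.p.t q.p.ht k c := by
    rw [hp2.2 q.p.ht hp'.1 k c hcg2, hp'.2 q.p.ht le_rfl k c hcg1]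
  have e3 : p2.t α i c ξ = p2.t q.p.ht k c ξ := hR.2.2.1 c hc ξ hξ2
  rw [e1, e2] at e3
  refine hξ3 c (Pts.cy_mono _ _ (show ((g2, f2) : G0 × AddOmega) ≤ g from ⟨hg2, hf2⟩) hc) ?_
  rw [e3, hl c ξ fun d hd => (hm d hd).trans_le hξ1]
  exact (hqs.2.1 () c ξ (hξ2.trans_le hα)).symm

end CTF
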