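import Pool.Agent.Lib.CTF.H
import Pool.Agent.Lib.CTF.Sizes

/-!
# From the product to the iteration
-/

namespace CTF

open Cardinal CAT9 CLC

noncomputable instance {B : Type} [Nonempty B] : PtsD (CLC.Fn B) (ℕ → B) where
  toPts := CLC.instPtsFnForallNatOfNonempty
  dir g h x hg hh := by
    classical
    refine ⟨⟨fun n => if g.1 n = none then h.1 n else g.1 n, ?_⟩, ?_, ?_, ?_⟩
    · refine (g.2.union h.2).subset fun n hn => ?_
      by_cases hg : g.1 n = none
      · exact Or.inr (by simpa [hg] using hn)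
      · exact Or.inl hg
    · intro n b hb
      simp [hb]
    · intro n b hb
      change (if g.1 n = none then h.1 n else g.1 n) = some b
      by_cases hgn : g.1 n = none
      · rw [if_pos hgn, hb]
      · rw [if_neg hgn]
        obtain ⟨b', hb'⟩ := Option.ne_none_iff_exists'.1 hgn
        rw [hb', ← hg n b' hb', ← hh n b hb]
    · intro n b hb
      change (if g.1 n = none then h.1 n else g.1 n) = some b at hb
      by_cases hgn : g.1 n = none
      · rw [if_pos hgn] at hb
        exact hh n b hb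
      · rw [if_neg hgn] at hb
        exact hg n b hb

section

variable {κ : ℕ → Cardinal.{0}} (a : Nod (κ 0))

/-- The iteration. -/
abbrev ItA : Type := It (KK κ a) (ℕ → Nod (mu κ a)) (WW κ a) (Lev (nu κ)) (Nod (nu κ))

/-- Conditions with a name. -/
abbrev Q2A : Type := Q2 (KK κ a) (ℕ → Nod (mu κ a)) (Lev (nu κ)) (Nod (nu κ))

/-- The iteration in the other notation. -/
noncomputable def toPP (r : ItA a) : PP κ a := (⟨r.1, r.2.2⟩, r.2.1)

/-- The iteration in the other notation. -/
noncomputable def ofPP (s : PP κ a) : ItA a := (s.1.k, s.2, s.1.p)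

theorem toPP_mono {r r' : ItA a} (h : r' ≤ r) : toPP a r' ≤ toPP a r :=
  ⟨⟨h.1, h.2.2.1, fun b hb i u hu c ξ => congrFun (h.2.2.2 b hb i (u, c) hu) ξ⟩, h.2.1⟩

theorem ofPP_mono {s s' : PP κ a} (h : s' ≤ s) : ofPP a s' ≤ ofPP a s :=
  ⟨h.1.1, h.2, h.1.2.1, fun b hb i x hx => funext fun ξ => h.1.2.2 b hb i x.1 hx x.2 ξ⟩

theorem toPP_proj : CTF.IsProj (toPP (κ := κ) a) where
  mono _ _ h := toPP_mono a h
  lift _ s hs := ⟨ofPP a s, ofPP_mono a hs, le_refl s⟩

theorem proj_isProj (h0 : ℵ₀ ≤ κ 0) : CLC.IsProj (proj κ a) where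
  mono z z' h := ⟨⟨h.2.1, (h.1 a).1.1, fun b hb i u _ c ξ => by
    change (z'.1 a).p.t b i (u, c) ξ = (z.1 a).p.t b i (u, c) ξ
    rw [(h.1 a).1.2 b hb]⟩, h.2.2⟩
  lift := by
    classical
    have hA := amb_nu h0
    rintro ⟨d, k, w⟩ ⟨⟨k', p'⟩, w'⟩ ⟨⟨h1, h2, h3⟩, h4⟩
    obtain ⟨q', e1, e2, e3⟩ := transplant' (X0 := ℕ → Nod (mu κ a)) k' (d a) p'
      ⟨h2, fun b hb i x hx => funext fun ξ => h3 b hb i x.1 hx x.2 ξ⟩
    refine ⟨(Function.update d a q', k', w'), ⟨fun b => ?_, h1, h4⟩, ⟨le_rfl, ?_, ?_⟩, le_rfl⟩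
    · by_cases hb : b = a
      · subst hb
        change Function.update d b q' b ≤ d b
        rw [Function.update_self]
        exact e1
      · change Function.update d a q' b ≤ d b
        rw [Function.update_of_ne hb]
    · change p'.ht ≤ (Function.update d a q' a).p.ht
      rw [Function.update_self]
      exact e2.ge
    · intro b hb i u hu c ξ
      change (Function.update d a q' a).p.t b i (u, c) ξ = p'.t b i (u, c) ξ
      rw [Function.update_self]
      exact congrFun (e3 b i (u, c) hu) ξ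

/-- The product with the coordinate `a` in front. -/
noncomputable def toBB (r : KK κ a × WW κ a × CLC.DD κ × Q2A a) : BB κ a :=
  (Function.update r.2.2.1 a r.2.2.2, r.1, r.2.1)

theorem toBB_mono {r r' : KK κ a × WW κ a × CLC.DD κ × Q2A a} (h : r' ≤ r) :
    toBB a r' ≤ toBB a r := by
  refine ⟨fun b => ?_, h.1, h.2.1⟩
  by_cases hb : b = a
  · subst hb
    change Function.update r'.2.2.1 b r'.2.2.2 b ≤ Function.update r.2.2.1 b r.2.2.2 b
    rw [Function.update_self, Function.update_self]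
    exact h.2.2.2
  · change Function.update r'.2.2.1 a r'.2.2.2 b ≤ Function.update r.2.2.1 a r.2.2.2 b
    rw [Function.update_of_ne hb, Function.update_of_ne hb]
    exact h.2.2.1 b

theorem toBB_lift (r : KK κ a × WW κ a × CLC.DD κ × Q2A a) (s : BB κ a) (h : s ≤ toBB a r) :
    ∃ r', r' ≤ r ∧ toBB a r' = s := by
  obtain ⟨k, w, z, q⟩ := r
  obtain ⟨d, k', w'⟩ := s
  obtain ⟨h1, h2, h3⟩ := h
  refine ⟨(k', w', Function.update d a (z a), d a), ⟨h2, h3, fun b => ?_, ?_⟩, ?_⟩
  · by_cases hb : b = a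
    · subst hb
      change Function.update d b (z b) b ≤ z b
      rw [Function.update_self]
    · change Function.update d a (z a) b ≤ z b
      rw [Function.update_of_ne hb]
      have := h1 b
      change d b ≤ Function.update z a q b at this
      rwa [Function.update_of_ne hb] at this
  · have := h1 a
    change d a ≤ Function.update z a q a at this
    rwa [Function.update_self] at this
  · change (Function.update (Function.update d a (z a)) a (d a), k', w') = (d, k', w')
    rw [Function.update_idem, Function.update_eq_self]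

theorem fus_kw (hκ : StrictMono κ) (hin : ∀ n, (κ n).IsInaccessible) :
    Fus (KK κ a) (WW κ a) (Nod (nu κ)) := by
  have h0 := (hin 0).aleph0_lt.le
  obtain ⟨ν, hν⟩ := exists_pieces' hκ h0
  exact fus_prod κ hκ.monotone h0 (fun n => (le_nu κ n).trans (mk_ord_toType _).ge) ν hν
    (mk_small_le hκ hin a) fun m j h => cj_closed hκ h0 h

theorem partH (hκ : StrictMono κ) (hin : ∀ n, (κ n).IsInaccessible)
    (T : TreeName (PP κ a) (Lev (nu κ)) (Nod (nu κ))) (hp : CLC.IsProj (proj κ a)) (z : BB κ a)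
    (B : BranchName (CLC.pullT T (proj κ a) hp) z) :
    ∃ z1, z1 ≤ proj κ a z ∧ Nonempty (BranchName T z1) := by
  classical
  have h0 := (hin 0).aleph0_lt
  have hA := amb_nu h0.le
  let T' : TreeName (ItA a) (Lev (nu κ)) (Nod (nu κ)) := CTF.pullT (toPP_proj a) T
  let r0 : KK κ a × WW κ a × CLC.DD κ × Q2A a := (z.2.1, z.2.2, z.1, z.1 a)
  have hr0 : toBB a r0 = z := by
    change (Function.update z.1 a (z.1 a), z.2.1, z.2.2) = z
    rw [Function.update_eq_self]
  let B' : BranchName (liftT (CLC.DD κ) T') r0 :=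
    { B := fun r α i => B.B (toBB a r) α i
      mono := fun q r α i h hB => B.mono _ _ _ _ (toBB_mono a h) hB
      uniq := fun q α i j h h' => B.uniq _ _ _ _ h h'
      total := by
        intro q hq α
        obtain ⟨s, hs, i, hB⟩ := B.total (toBB a q) (hr0 ▸ toBB_mono a hq) α
        obtain ⟨r', hr', rfl⟩ := toBB_lift a q s hs
        exact ⟨r', hr', i, hB⟩
      chain := by
        intro q α β i j h h' hlt
        have := B.chain _ _ _ _ _ h h' hlt
        change T.R (proj κ a (toBB a q)) (α, i) (β, j) at this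
        change T.R (toPP a (toIt q)) (α, i) (β, j)
        have e : proj κ a (toBB a q) = toPP a (toIt q) := by
          change ((⟨q.1, (Function.update q.2.2.1 a q.2.2.2 a).p⟩, q.2.1) : PP κ a) =
            (⟨q.1, q.2.2.2.p⟩, q.2.1)
          rw [Function.update_self]
        rwa [e] at this }
  have hmu : mu κ a ≤ #(Nod (nu κ)) := by
    rw [mk_ord_toType]
    exact (mu_lt h0 a).le.trans (le_nu κ 0)
  have cZ : DirectedClosed #(Nod (nu κ)) (CLC.DD κ) := pi_closed fun _ => qq_closed
  obtain ⟨p, hp', ⟨b⟩⟩ := descend (fus_kw a hκ hin) (aleph0_le_mu a) hmu (mk_KK_le a)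
    (ww_closed hκ h0 a) (mk_lev_le hκ) cZ B'
  refine ⟨toPP a p, ?_, ⟨⟨fun s α i => b.B (ofPP a s) α i, fun q r α i h hB =>
    b.mono _ _ _ _ (ofPP_mono a h) hB, fun q α i j h h' => b.uniq _ _ _ _ h h',
    fun q hq α => ?_, fun q α β i j h h' hlt => b.chain _ _ _ _ _ h h' hlt⟩⟩⟩
  · refine (toPP_mono a hp').trans ?_
    exact le_refl (proj κ a z)
  · obtain ⟨r, hr, i, hB⟩ := b.total (ofPP a q) (ofPP_mono a hq) α
    exact ⟨toPP a r, toPP_mono a hr, i, hB⟩

end

end CTF
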