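import Pool.Agent.Lib.CTF.AR
import Pool.Agent.Lib.CTF.PartH

/-!
# The Aronszajn tree in the extension by the final forcing notion and a Cohen real
-/

namespace CTF

open Cardinal CAT9 CLC

theorem aron_PP {κ : ℕ → Cardinal.{0}} (hκ : StrictMono κ)
    (hin : ∀ n, (κ n).IsInaccessible) (a : Nod (κ 0)) :
    ForcesAronszajn (PP κ a × AddOmega) (Lev (nu κ)) (Nod (nu κ)) := by
  have h0 := (hin 0).aleph0_lt
  have hA := amb_nu h0.le
  have hmu : mu κ a ≤ #(Nod (nu κ)) := by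
    rw [mk_ord_toType]
    exact (mu_lt h0 a).le.trans (le_nu κ 0)
  obtain ⟨T, hT⟩ := it_aron (G0 := KK κ a) (X0 := ℕ → Nod (mu κ a)) (CC := WW κ a)
    (L := Lev (nu κ)) (M := Nod (nu κ)) (aleph0_le_mu a) hmu (mk_KK_le a) (ww_closed hκ h0 a)
  let σ : PP κ a × AddOmega → ItA a × AddOmega := fun s => (ofPP a s.1, s.2)
  have hσ : CTF.IsProj σ :=
    { mono := fun _ _ h => ⟨ofPP_mono a h.1, h.2⟩
      lift := fun s r hr => ⟨(toPP a r.1, r.2), ⟨toPP_mono a hr.1, hr.2⟩, le_refl r⟩ }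
  refine ⟨CTF.pullT hσ T, fun p ⟨b⟩ => hT (σ p) ⟨⟨fun r α i => b.B (toPP a r.1, r.2) α i,
    fun q r α i h hB => b.mono _ _ _ _ ⟨toPP_mono a h.1, h.2⟩ hB,
    fun q α i j h h' => b.uniq _ _ _ _ h h', fun q hq α => ?_,
    fun q α β i j h h' hlt => b.chain _ _ _ _ _ h h' hlt⟩⟩⟩
  obtain ⟨r, hr, i, hB⟩ := b.total (toPP a q.1, q.2) ⟨toPP_mono a hq.1, hq.2⟩ α
  exact ⟨σ r, ⟨ofPP_mono a hr.1, hr.2⟩, i, hB⟩

end CTF
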