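import Pool.Agent.Lib.CTF.Defs
import Pool.Agent.Lib.CAT9.Meet

/-!
# Cardinals in the extension
-/

set_option autoImplicit false

namespace CTF

open Cardinal CAT9

/-- A name, below `p`, for a function from `A` to `B`. -/
structure FName (P : Type) [Preorder P] (A B : Type) (p : P) where
  /-- `q` forces that the value at `a` is `b` -/
  F : P → A → B → Prop
  mono : ∀ q r a b, r ≤ q → F q a b → F r a b
  uniq : ∀ q a b b', F q a b → F q a b' → b = b'
  total : ∀ q, q ≤ p → ∀ a, ∃ r, r ≤ q ∧ ∃ b, F r a b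

/-- `P` forces that there is a function from `A` onto `B`. -/
def ForcesSurj (P : Type) [Preorder P] (A B : Type) : Prop :=
  ∀ p : P, ∃ q, q ≤ p ∧ ∃ f : FName P A B q, ∀ b, ∀ r, r ≤ q → ∃ s, s ≤ r ∧ ∃ a, f.F s a b

/-- `P` forces that there is no function from `A` onto `B`. -/
def ForcesNoSurj (P : Type) [Preorder P] (A B : Type) : Prop :=
  ∀ (p : P) (f : FName P A B p), ¬ ∀ b, ∀ r, r ≤ p → ∃ s, s ≤ r ∧ ∃ a, f.F s a b

namespace CNAux

/-- Composition of a name with functions in the ground model. -/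
def nmap {P A A' B B' : Type} [Preorder P] {p : P} (f : FName P A B p) (g : A' → A) (k : B → B') :
    FName P A' B' p where
  F q a' b' := ∃ b, f.F q (g a') b ∧ k b = b'
  mono q r a' b' h := by
    rintro ⟨b, h1, h2⟩
    exact ⟨b, f.mono q r _ _ h h1, h2⟩
  uniq q a' b1 b2 := by
    rintro ⟨b, h1, rfl⟩ ⟨b', h1', rfl⟩
    rw [f.uniq q _ _ _ h1 h1']
  total q hq a' := by
    obtain ⟨r, hr, b, hb⟩ := f.total q hq (g a')
    exact ⟨r, hr, k b, b, hb, rfl⟩

theorem nmap_onto {P A A' B B' : Type} [Preorder P] {p : P} (f : FName P A B p) (g : A' → A)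
    (k : B → B') (hg : Function.Surjective g) (hk : Function.Surjective k)
    (h : ∀ b, ∀ r, r ≤ p → ∃ s, s ≤ r ∧ ∃ a, f.F s a b) :
    ∀ b, ∀ r, r ≤ p → ∃ s, s ≤ r ∧ ∃ a, (nmap f g k).F s a b := by
  intro b' r hr
  obtain ⟨b, rfl⟩ := hk b'
  obtain ⟨s, hs, a, ha⟩ := h b r hr
  obtain ⟨a', rfl⟩ := hg a
  exact ⟨s, hs, a', b, ha, rfl⟩

theorem exists_surj {A B : Type} (h : #A ≤ #B) (hA : Nonempty A) :
    ∃ g : B → A, Function.Surjective g := by
  obtain ⟨i⟩ := h
  exact ⟨Function.invFun i, Function.invFun_surjective i.injective⟩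

/-- Extension of a finite partial function at one place. -/
theorem exists_ext0 {B : Type} (u : Fin0 B) (n : ℕ) (hn : u.1 n = none) (b : B) :
    ∃ v : Fin0 B, v ≤ u ∧ v.1 n = some b := by
  classical
  refine ⟨⟨Function.update u.1 n (some b), ?_⟩, ?_, ?_⟩
  · refine (u.2.insert n).subset fun m hm => ?_
    by_cases h : m = n
    · exact Or.inl h
    · right
      have h1 : Function.update u.1 n (some b) m ≠ none := hm
      rw [Function.update_of_ne h] at h1
      exact h1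
  · intro m c hc
    change Function.update u.1 n (some b) m = some c
    have h : m ≠ n := by
      rintro rfl
      rw [hn] at hc
      exact absurd hc (by simp)
    rw [Function.update_of_ne h]
    exact hc
  · change Function.update u.1 n (some b) n = some b
    rw [Function.update_self]

/-- Extension of a small partial function at one place. -/
theorem exists_ext {A B : Type} {χ : Cardinal.{0}} {C : A → B → Prop} (hχ : ℵ₀ ≤ χ)
    (u : Fn A B χ C) (a : A) (ha : u.f a = none) (b : B) (hb : C a b) :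
    ∃ v : Fn A B χ C, v ≤ u ∧ v.f a = some b := by
  classical
  refine ⟨⟨Function.update u.f a (some b), ?_, ?_⟩, ?_, ?_⟩
  · have hsub : {x | Function.update u.f a (some b) x ≠ none} ⊆ insert a {x | u.f x ≠ none} := by
      intro x hx
      by_cases h : x = a
      · exact Or.inl h
      · right
        have h1 : Function.update u.f a (some b) x ≠ none := hx
        rw [Function.update_of_ne h] at h1
        exact h1
    refine (Cardinal.mk_le_mk_of_subset hsub).trans (Cardinal.mk_insert_le.trans ?_)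
    exact (add_le_add u.small le_rfl).trans (Cardinal.add_one_eq hχ).le
  · intro x c hc
    by_cases h : x = a
    · subst h
      rw [Function.update_self] at hc
      have : b = c := by simpa using hc
      rw [← this]
      exact hb
    · rw [Function.update_of_ne h] at hc
      exact u.cst x c hc
  · intro x c hc
    change Function.update u.f a (some b) x = some c
    have h : x ≠ a := by
      rintro rfl
      rw [ha] at hc
      exact absurd hc (by simp)
    rw [Function.update_of_ne h]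
    exact hc
  · change Function.update u.f a (some b) a = some b
    rw [Function.update_self]

end CNAux

open CNAux

/-- CN1: a small and a closed forcing notion. -/
theorem no_surj_small {S R A B : Type} [Preorder S] [Preorder R] {χ : Cardinal.{0}}
    (hχ : ℵ₀ ≤ χ) (hS : #S ≤ χ) (cR : DirectedClosed χ R) (hA : #A ≤ χ) (hB : χ < #B) :
    ForcesNoSurj (S × R) A B := by
  classical
  rintro ⟨s0, r0⟩ f hf
  have hneB : Nonempty B := by
    rw [← Cardinal.mk_ne_zero_iff]
    exact (zero_le.trans_lt hB).ne'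
  have hK : #(S × A) ≤ χ := by
    simp only [Cardinal.mk_prod, Cardinal.lift_id]
    exact (mul_le_mul' hS hA).trans (Cardinal.mul_eq_self hχ).le
  obtain ⟨r, hr0, hrD⟩ := CAT9.meet hχ cR hK
    (fun k => {r | k.1 ≤ s0 → ∃ s2 b, s2 ≤ k.1 ∧ f.F (s2, r) k.2 b}) r0
    (by
      rintro ⟨s, a⟩ q r hrq h hs
      obtain ⟨s2, b, h1, h3⟩ := h hs
      exact ⟨s2, b, h1, f.mono (s2, q) (s2, r) _ _ ⟨le_rfl, hrq⟩ h3⟩)
    (by
      rintro ⟨s, a⟩ q hq
      by_cases hs : s ≤ s0
      · obtain ⟨⟨s2, r2⟩, h1, b, h2⟩ := f.total (s, q) ⟨hs, hq⟩ a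
        exact ⟨r2, h1.2, fun _ => ⟨s2, b, h1.1, h2⟩⟩
      · exact ⟨q, le_rfl, fun h => absurd h hs⟩)
  have h1 : ∀ x : S × A, ∃ b : B, x.1 ≤ s0 → ∃ s2, s2 ≤ x.1 ∧ f.F (s2, r) x.2 b := by
    rintro ⟨s, a⟩
    by_cases hs : s ≤ s0
    · obtain ⟨s2, b, h1, h3⟩ := hrD (s, a) hs
      exact ⟨b, fun _ => ⟨s2, h1, h3⟩⟩
    · exact ⟨Classical.arbitrary B, fun h => absurd h hs⟩
  choose V hV using h1
  have hsurj : Function.Surjective V := by
    intro b
    obtain ⟨⟨s, r'⟩, h1, a, h2⟩ := hf b (s0, r) ⟨le_rfl, hr0⟩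
    refine ⟨(s, a), ?_⟩
    obtain ⟨s2, h3, h4⟩ := hV (s, a) h1.1
    exact f.uniq (s2, r') a _ _ (f.mono (s2, r) (s2, r') _ _ ⟨le_rfl, h1.2⟩ h4)
      (f.mono (s, r') (s2, r') _ _ ⟨h3, le_rfl⟩ h2)
  exact absurd ((Cardinal.mk_le_of_surjective hsurj).trans hK) (not_le_of_gt hB)

/-- CN3: projections. -/
theorem ForcesNoSurj.proj {P Q A B : Type} [Preorder P] [Preorder Q] {τ : P → Q} (hτ : IsProj τ)
    (hd : ∀ q, ∃ p, τ p ≤ q) (h : ForcesNoSurj P A B) : ForcesNoSurj Q A B := by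
  intro q f hf
  obtain ⟨p, hp⟩ := hd q
  have key : ∀ (r : P) (s : Q), s ≤ τ r → ∃ t, t ≤ r ∧ τ t ≤ s := fun r s hs => hτ.lift r s hs
  refine h p ⟨fun p' a b => f.F (τ p') a b, fun x y a b hyx hx => f.mono _ _ _ _ (hτ.mono _ _ hyx) hx,
    fun x a b b' h1 h2 => f.uniq _ _ _ _ h1 h2, fun x hx a => ?_⟩ ?_
  · obtain ⟨r, hr, b, hb⟩ := f.total (τ x) ((hτ.mono _ _ hx).trans hp) a
    obtain ⟨t, ht, ht'⟩ := key x r hr
    exact ⟨t, ht, b, f.mono _ _ _ _ ht' hb⟩
  · intro b r hr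
    obtain ⟨s, hs, a, ha⟩ := hf b (τ r) ((hτ.mono _ _ hr).trans hp)
    obtain ⟨t, ht, ht'⟩ := key r s hs
    exact ⟨t, ht, a, f.mono _ _ _ _ ht' ha⟩

/-- CN4: the generic surjections. -/
theorem surj_fin0 {P B : Type} [Preorder P] [Nonempty B] {τ : P → Fin0 B} (hτ : IsProj τ) :
    ForcesSurj P ℕ B := by
  intro p
  refine ⟨p, le_rfl, ⟨fun q n b => (τ q).1 n = some b, fun q r n b hr h => hτ.mono _ _ hr n b h,
    fun q n b b' h h' => by
      rw [h] at h'
      simpa using h', fun q _ n => ?_⟩, ?_⟩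
  · rcases hn : (τ q).1 n with _ | b
    · obtain ⟨v, hv, hb⟩ := exists_ext0 (τ q) n hn (Classical.arbitrary B)
      obtain ⟨t, ht, ht'⟩ := hτ.lift q v hv
      exact ⟨t, ht, _, ht' n _ hb⟩
    · exact ⟨q, le_rfl, b, hn⟩
  · intro b r _
    obtain ⟨n, hn⟩ := (τ r).2.exists_notMem
    have hn' : (τ r).1 n = none := by
      by_contra hcon
      exact hn hcon
    obtain ⟨v, hv, hb⟩ := exists_ext0 (τ r) n hn' b
    obtain ⟨t, ht, ht'⟩ := hτ.lift r v hv
    exact ⟨t, ht, n, ht' n _ hb⟩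

theorem surj_levy {P : Type} [Preorder P] {χ κ : Cardinal.{0}} (hχ : ℵ₀ ≤ χ)
    {τ : P → Levy χ κ} (hτ : IsProj τ) (a : Ot κ) (ha : ∃ b, b < a) :
    ForcesSurj P (Ot (Order.succ χ)) {b : Ot κ // b < a} := by
  obtain ⟨b0, hb0⟩ := ha
  intro p
  refine ⟨p, le_rfl, ⟨fun q n b => (τ q).f (a, n) = some b.1,
    fun q r n b hr h => hτ.mono _ _ hr (a, n) b.1 h,
    fun q n b b' h h' => by
      rw [h] at h'
      exact Subtype.ext (by simpa using h'), fun q _ n => ?_⟩, ?_⟩
  · rcases hn : (τ q).f (a, n) with _ | b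
    · obtain ⟨v, hv, hb⟩ := exists_ext hχ (τ q) (a, n) hn b0 hb0
      obtain ⟨t, ht, ht'⟩ := hτ.lift q v hv
      exact ⟨t, ht, ⟨b0, hb0⟩, ht' (a, n) _ hb⟩
    · exact ⟨q, le_rfl, ⟨b, (τ q).cst _ _ hn⟩, hn⟩
  · rintro ⟨b, hb⟩ r _
    have hex : ∃ n : Ot (Order.succ χ), (τ r).f (a, n) = none := by
      by_contra hcon
      push Not at hcon
      have h1 : #(Ot (Order.succ χ)) ≤ #{x // (τ r).f x ≠ none} :=
        Cardinal.mk_le_of_injective (f := fun n => (⟨(a, n), hcon n⟩ : {x // (τ r).f x ≠ none}))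
          (fun n m h => by
            have := congrArg (fun z => z.1.2) h
            exact this)
      rw [mk_ord_toType] at h1
      exact absurd ((h1.trans (τ r).small).trans_lt (Order.lt_succ χ)) (lt_irrefl _)
    obtain ⟨n, hn⟩ := hex
    obtain ⟨v, hv, hv'⟩ := exists_ext hχ (τ r) (a, n) hn b hb
    obtain ⟨t, ht, ht'⟩ := hτ.lift r v hv
    exact ⟨t, ht, n, ht' (a, n) _ hv'⟩

/-- CN5: change of the sets. -/
theorem ForcesSurj.congr {P A A' B B' : Type} [Preorder P] (h : ForcesSurj P A B)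
    (hA : #A ≤ #A') (hne : Nonempty B') (hB : #B' ≤ #B) : ForcesSurj P A' B' := by
  intro p
  obtain ⟨q, hq, f, hf⟩ := h p
  have hneB : Nonempty B := by
    obtain ⟨i⟩ := hB
    exact hne.map i
  obtain ⟨-, -, a, -⟩ := hf (Classical.choice hneB) q le_rfl
  obtain ⟨g, hg⟩ := exists_surj hA ⟨a⟩
  obtain ⟨k, hk⟩ := exists_surj hB hne
  exact ⟨q, hq, nmap f g k, nmap_onto f g k hg hk hf⟩

theorem ForcesNoSurj.congr {P A A' B B' : Type} [Preorder P] (h : ForcesNoSurj P A B)
    (hA : #A' ≤ #A) (hne : Nonempty B) (hB : #B ≤ #B') : ForcesNoSurj P A' B' := by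
  intro p f hf
  have hneB : Nonempty B' := by
    obtain ⟨i⟩ := hB
    exact hne.map i
  obtain ⟨-, -, a, -⟩ := hf (Classical.choice hneB) p le_rfl
  obtain ⟨g, hg⟩ := exists_surj hA ⟨a⟩
  obtain ⟨k, hk⟩ := exists_surj hB hne
  exact h p (nmap f g k) (nmap_onto f g k hg hk hf)

end CTF
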