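import Pool.Agent.Lib.CTF.CN

/-!
# The Levy collapse does not collapse `κ`
-/

namespace CTF

open Cardinal CAT9

namespace CN2Aux

theorem exists_bound {κ : Cardinal.{0}} (hr : κ.IsRegular) {K : Type} (f : K → Ot κ)
    (hK : #K < κ) : ∃ b, ∀ k, f k < b := by
  have hcof : Order.cof (Ot κ) = κ := by
    rw [Ordinal.cof_toType, hr.cof_ord]
  by_contra hcon
  push Not at hcon
  have h1 : IsCofinal (Set.range f) := by
    intro a
    obtain ⟨k, hk⟩ := hcon a
    exact ⟨f k, ⟨k, rfl⟩, hk⟩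
  have h2 := Order.cof_le h1
  rw [hcof] at h2
  exact absurd (h2.trans_lt (Cardinal.mk_range_le.trans_lt hK)) (lt_irrefl _)

section

variable {χ κ : Cardinal.{0}}

/-- The arguments of `u` have first coordinate below `β`. -/
def Bd (u : Levy χ κ) (β : Ot κ) : Prop := ∀ x, u.f x ≠ none → x.1 < β

theorem Bd.mono {u : Levy χ κ} {β γ : Ot κ} (h : Bd u β) (hβ : β ≤ γ) : Bd u γ :=
  fun x hx => (h x hx).trans_le hβ

theorem exists_Bd (hr : κ.IsRegular) (hχκ : χ < κ) (u : Levy χ κ) : ∃ β, Bd u β := by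
  obtain ⟨b, hb⟩ := exists_bound hr (fun x : {a // u.f a ≠ none} => x.1.1)
    (u.small.trans_lt hχκ)
  exact ⟨b, fun x hx => hb ⟨x, hx⟩⟩

theorem mk_Bd_lt (hκ : κ.IsInaccessible) (hχκ : χ < κ) (β : Ot κ) :
    #{u : Levy χ κ // Bd u β} < κ := by
  have hβ : #{x : Ot κ // x < β} < κ := by
    have h := mk_Iio_lt (α := Ot κ) β (by simp)
    rw [mk_ord_toType] at h
    exact h
  have hχ1 : #(Ot (Order.succ χ)) < κ := by
    rw [mk_ord_toType]
    exact hκ.isSuccLimit.succ_lt hχκ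
  let T := ({x : Ot κ // x < β} × Ot (Order.succ χ)) × {x : Ot κ // x < β}
  have hT : #T < κ := by
    change #(({x : Ot κ // x < β} × Ot (Order.succ χ)) × {x : Ot κ // x < β}) < κ
    simp only [Cardinal.mk_prod, Cardinal.lift_id]
    exact Cardinal.mul_lt_of_lt hκ.isRegular.aleph0_le
      (Cardinal.mul_lt_of_lt hκ.isRegular.aleph0_le hβ hχ1) hβ
  have h2 : #(Set T) < κ := by
    rw [Cardinal.mk_set]
    exact hκ.isStrongLimit.isStrongPrelimit hT
  refine lt_of_le_of_lt (Cardinal.mk_le_of_injective (f := fun u : {u : Levy χ κ // Bd u β} =>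
    ({t : T | u.1.f (t.1.1.1, t.1.2) = some t.2.1} : Set T)) ?_) h2
  rintro ⟨u, hu⟩ ⟨v, hv⟩ h
  apply Subtype.ext
  have key : ∀ (u v : Levy χ κ), Bd u β → ({t : T | u.f (t.1.1.1, t.1.2) = some t.2.1} : Set T)
      = {t : T | v.f (t.1.1.1, t.1.2) = some t.2.1} → ∀ x y, u.f x = some y → v.f x = some y := by
    intro u v hu h x y hxy
    have hx : x.1 < β := hu x (by rw [hxy]; simp)
    have hy : y < β := (u.cst x y hxy).trans hx
    have h3 : ((⟨⟨⟨x.1, hx⟩, x.2⟩, ⟨y, hy⟩⟩ : T)) ∈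
        ({t : T | u.f (t.1.1.1, t.1.2) = some t.2.1} : Set T) := hxy
    rw [h] at h3
    exact h3
  have h4 : u.f = v.f := by
    funext x
    rcases hux : u.f x with _ | y
    · rcases hvx : v.f x with _ | y
      · rfl
      · have := key v u hv h.symm x y hvx
        rw [hux] at this
        exact this
    · exact (key u v hu h x y hux).symm
  cases u
  cases v
  simp only at h4
  subst h4
  rfl

theorem mk_levy_le' (hκ : κ.IsInaccessible) (hχκ : χ < κ) : #(Levy χ κ) ≤ κ := by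
  have hr := hκ.isRegular
  choose b hb using fun u : Levy χ κ => exists_Bd hr hχκ u
  refine (Cardinal.mk_le_of_injective (f := fun u : Levy χ κ =>
    (⟨b u, ⟨u, hb u⟩⟩ : Σ β : Ot κ, {u : Levy χ κ // Bd u β})) ?_).trans ?_
  · intro u v h
    simp only [Sigma.mk.injEq] at h
    obtain ⟨h1, h2⟩ := h
    have h3 : ∀ (β γ : Ot κ) (x : {u : Levy χ κ // Bd u β}) (y : {u : Levy χ κ // Bd u γ}),
        β = γ → HEq x y → x.1 = y.1 := by
      intro β γ x y hβ hxy
      subst hβ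
      rw [eq_of_heq hxy]
    exact h3 _ _ _ _ h1 h2
  · rw [Cardinal.mk_sigma]
    refine (Cardinal.sum_le_sum _ (fun _ : Ot κ => κ) fun β => (mk_Bd_lt hκ hχκ β).le).trans ?_
    rw [Cardinal.sum_const, Cardinal.lift_id, Cardinal.lift_id, mk_ord_toType]
    exact (Cardinal.mul_eq_self hr.aleph0_le).le

open Classical in
/-- The restriction of a condition. -/
noncomputable def rst (D : Set (Ot κ)) (u : Levy χ κ) : Levy χ κ where
  f x := if x.1 ∈ D then u.f x else none
  small := by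
    refine le_trans (Cardinal.mk_subtype_mono fun a ha hn => ?_) u.small
    refine ha ?_
    change (if a.1 ∈ D then u.f a else none) = none
    rw [hn]
    exact ite_self none
  cst a b h := by
    by_cases h' : a.1 ∈ D
    · rw [if_pos h'] at h
      exact u.cst a b h
    · rw [if_neg h'] at h
      exact absurd h (by simp)

theorem rst_pos {D : Set (Ot κ)} {u : Levy χ κ} {x : Ot κ × Ot (Order.succ χ)} (h : x.1 ∈ D) :
    (rst D u).f x = u.f x := if_pos h

theorem rst_neg {D : Set (Ot κ)} {u : Levy χ κ} {x : Ot κ × Ot (Order.succ χ)} (h : x.1 ∉ D) :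
    (rst D u).f x = none := if_neg h

/-- The amalgamation of two conditions. -/
theorem exists_amalg (hχ : ℵ₀ ≤ χ) {D : Set (Ot κ)} {u u2 : Levy χ κ} (h : u2 ≤ rst D u)
    (hD : ∀ x, u2.f x ≠ none → x.1 ∈ D) : ∃ u3 : Levy χ κ, u3 ≤ u ∧ u3 ≤ u2 := by
  classical
  refine ⟨⟨fun x => if u2.f x = none then u.f x else u2.f x, ?_, ?_⟩, ?_, ?_⟩
  · have h1 : {a | (if u2.f a = none then u.f a else u2.f a) ≠ none} ⊆
        {a | u.f a ≠ none} ∪ {a | u2.f a ≠ none} := by
      intro a ha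
      by_cases h2 : u2.f a = none
      · left
        have h3 : (if u2.f a = none then u.f a else u2.f a) ≠ none := ha
        rw [if_pos h2] at h3
        exact h3
      · exact Or.inr h2
    refine (Cardinal.mk_le_mk_of_subset h1).trans ((Cardinal.mk_union_le _ _).trans ?_)
    exact (add_le_add u.small u2.small).trans (Cardinal.add_eq_self hχ).le
  · intro a b hb
    change (if u2.f a = none then u.f a else u2.f a) = some b at hb
    by_cases h2 : u2.f a = none
    · rw [if_pos h2] at hb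
      exact u.cst a b hb
    · rw [if_neg h2] at hb
      exact u2.cst a b hb
  · intro a b hb
    change (if u2.f a = none then u.f a else u2.f a) = some b
    by_cases h2 : u2.f a = none
    · rw [if_pos h2]
      exact hb
    · rw [if_neg h2]
      apply h
      rw [rst_pos (hD a h2)]
      exact hb
  · intro a b hb
    change (if u2.f a = none then u.f a else u2.f a) = some b
    rw [if_neg (by rw [hb]; simp)]
    exact hb

end

end CN2Aux

open CN2Aux

/-- CN2: the Levy collapse does not collapse `κ`. -/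
theorem no_surj_levy {S R A B : Type} [Preorder S] [Preorder R] {χ κ : Cardinal.{0}}
    (hκ : κ.IsInaccessible) (hχ : ℵ₀ ≤ χ) (hχκ : χ < κ) (hS : #S ≤ χ) (cR : DirectedClosed κ R)
    (hA : #A ≤ Order.succ χ) (hB : κ ≤ #B) : ForcesNoSurj (S × Levy χ κ × R) A B := by
  classical
  rintro ⟨s0, u0, r0⟩ f hf
  have hr := hκ.isRegular
  have hκ0 : ℵ₀ ≤ κ := hr.aleph0_le
  have hχ1 : Order.succ χ < κ := hκ.isSuccLimit.succ_lt hχκ
  have hrχ : (Order.succ χ).IsRegular := isRegular_succ hχ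
  have hneB : Nonempty B := by
    rw [← Cardinal.mk_ne_zero_iff]
    intro h
    rw [h] at hB
    exact hr.ne_zero (le_antisymm hB zero_le)
  -- meeting the dense sets
  have hK : #(S × Levy χ κ × A) ≤ κ := by
    simp only [Cardinal.mk_prod, Cardinal.lift_id]
    refine (mul_le_mul' (hS.trans hχκ.le)
      (mul_le_mul' (mk_levy_le' hκ hχκ) (hA.trans hχ1.le))).trans ?_
    rw [Cardinal.mul_eq_self hκ0, Cardinal.mul_eq_self hκ0]
  obtain ⟨r, hr0, hrD⟩ := CAT9.meet hκ0 cR hK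
    (fun k => {r | k.1 ≤ s0 → k.2.1 ≤ u0 → ∃ s2 u2 b, s2 ≤ k.1 ∧ u2 ≤ k.2.1 ∧
      f.F (s2, u2, r) k.2.2 b}) r0
    (by
      rintro ⟨s, u, a⟩ q r hrq h hs hu
      obtain ⟨s2, u2, b, h1, h2, h3⟩ := h hs hu
      exact ⟨s2, u2, b, h1, h2, f.mono (s2, u2, q) (s2, u2, r) _ _ ⟨le_rfl, le_rfl, hrq⟩ h3⟩)
    (by
      rintro ⟨s, u, a⟩ q hq
      by_cases hs : s ≤ s0
      · by_cases hu : u ≤ u0
        · obtain ⟨⟨s2, u2, r2⟩, h1, b, h2⟩ := f.total (s, u, q) ⟨hs, hu, hq⟩ a
          exact ⟨r2, h1.2.2, fun _ _ => ⟨s2, u2, b, h1.1, h1.2.1, h2⟩⟩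
        · exact ⟨q, le_rfl, fun _ h => absurd h hu⟩
      · exact ⟨q, le_rfl, fun h _ => absurd h hs⟩)
  have h1 : ∀ (s : S) (u : Levy χ κ) (a : A), ∃ (u2 : Levy χ κ) (b : B), s ≤ s0 → u ≤ u0 →
      u2 ≤ u ∧ ∃ s2, s2 ≤ s ∧ f.F (s2, u2, r) a b := by
    intro s u a
    by_cases hs : s ≤ s0
    · by_cases hu : u ≤ u0
      · obtain ⟨s2, u2, b, h1, h2, h3⟩ := hrD (s, u, a) hs hu
        exact ⟨u2, b, fun _ _ => ⟨h2, s2, h1, h3⟩⟩
      · exact ⟨u, Classical.arbitrary B, fun _ h => absurd h hu⟩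
    · exact ⟨u, Classical.arbitrary B, fun h _ => absurd h hs⟩
  choose W V hWV using h1
  -- the possible values
  have key : ∀ a : A, #{b : B // ∃ s u r', s ≤ s0 ∧ u ≤ u0 ∧ r' ≤ r ∧ f.F (s, u, r') a b} < κ := by
    intro a
    -- the bound for one step
    have h2 : ∀ β : Ot κ, ∃ γ : Ot κ, β ≤ γ ∧ ∀ (s : S) (u : Levy χ κ), Bd u β →
        Bd (W s u a) γ := by
      intro β
      choose h hh using fun x : S × {u : Levy χ κ // Bd u β} =>
        exists_Bd hr hχκ (W x.1 x.2.1 a)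
      obtain ⟨γ, hγ⟩ := exists_bound hr h (by
        rw [Cardinal.mk_prod, Cardinal.lift_id, Cardinal.lift_id]
        exact Cardinal.mul_lt_of_lt hκ0 (hS.trans_lt hχκ) (mk_Bd_lt hκ hχκ β))
      refine ⟨max β γ, le_max_left _ _, fun s u hu => ?_⟩
      exact (hh (s, ⟨u, hu⟩)).mono ((hγ (s, ⟨u, hu⟩)).le.trans (le_max_right _ _))
    choose g hg1 hg2 using h2
    obtain ⟨β0, hβ0⟩ := exists_Bd hr hχκ u0
    let step : ∀ i : Ot (Order.succ χ), (∀ j, j < i → Ot κ) → Ot κ := fun i ih =>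
      if h : ∃ b, β0 < b ∧ ∀ j (hj : j < i), g (ih j hj) < b then h.choose else β0
    let d : Ot (Order.succ χ) → Ot κ := (wellFounded_lt (α := Ot (Order.succ χ))).fix step
    have hd : ∀ i, d i = step i (fun j _ => d j) := fun i => WellFounded.fix_eq _ _ _
    have hd' : ∀ i, β0 < d i ∧ ∀ j, j < i → g (d j) < d i := by
      intro i
      have ex : ∃ b, β0 < b ∧ ∀ j (_ : j < i), g (d j) < b := by
        have hi : #{j : Ot (Order.succ χ) // j < i} < κ := by
          have h := mk_Iio_lt (α := Ot (Order.succ χ)) i (by simp)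
          rw [mk_ord_toType] at h
          exact h.trans hχ1
        obtain ⟨b1, hb1⟩ := exists_bound hr
          (fun j : {j : Ot (Order.succ χ) // j < i} => g (d j.1)) hi
        obtain ⟨b2, hb2⟩ := exists_bound hr (fun _ : Unit => β0)
          (lt_of_lt_of_le (by simp) hκ0)
        exact ⟨max b1 b2, (hb2 ()).trans_le (le_max_right _ _),
          fun j hj => (hb1 ⟨j, hj⟩).trans_le (le_max_left _ _)⟩
      have h3 : d i = ex.choose := by
        rw [hd i]
        exact dif_pos ex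
      rw [h3]
      exact ex.choose_spec
    obtain ⟨δ, hδ⟩ := exists_bound hr d (by rw [mk_ord_toType]; exact hχ1)
    -- the values come from the conditions bounded by `δ`
    have h3 : #(S × {u : Levy χ κ // Bd u δ}) < κ := by
      rw [Cardinal.mk_prod, Cardinal.lift_id, Cardinal.lift_id]
      exact Cardinal.mul_lt_of_lt hκ0 (hS.trans_lt hχκ) (mk_Bd_lt hκ hχκ δ)
    have h4 : ∀ b : {b : B // ∃ s u r', s ≤ s0 ∧ u ≤ u0 ∧ r' ≤ r ∧ f.F (s, u, r') a b},
        ∃ x : S × {u : Levy χ κ // Bd u δ}, V x.1 x.2.1 a = b.1 := by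
      rintro ⟨b, s, u, r', hs, hu, hr', hb⟩
      obtain ⟨D, hD⟩ : ∃ D : Set (Ot κ), D = {x | ∃ i, x < d i} := ⟨_, rfl⟩
      have hDm : ∀ x, x ∈ D ↔ ∃ i, x < d i := by
        intro x
        rw [hD]
        rfl
      -- the restriction is bounded
      have h5 : ∀ x : {x // (rst D u).f x ≠ none}, ∃ i, x.1.1 < d i := by
        rintro ⟨x, hx⟩
        by_contra hcon
        apply hx
        exact rst_neg (fun h => hcon ((hDm _).1 h))
      choose ι hι using h5
      obtain ⟨i, hi⟩ := exists_bound hrχ ι ((rst D u).small.trans_lt (Order.lt_succ χ))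
      obtain ⟨i', hi'⟩ := exists_bound hrχ (fun _ : Unit => i)
        (lt_of_lt_of_le (by simp) hrχ.aleph0_le)
      have hmono : ∀ j k, j < k → d j < d k := fun j k hjk =>
        (hg1 (d j)).trans_lt ((hd' k).2 j hjk)
      have h6 : Bd (rst D u) (d i) := fun x hx =>
        (hι ⟨x, hx⟩).trans (hmono _ _ (hi ⟨x, hx⟩))
      have h7 : rst D u ≤ u0 := by
        intro x y hxy
        have h8 : x.1 < β0 := hβ0 x (by rw [hxy]; simp)
        rw [rst_pos ((hDm _).2 ⟨i, h8.trans (hd' i).1⟩)]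
        exact hu x y hxy
      obtain ⟨h8, s2, h9, h10⟩ := hWV s (rst D u) a hs h7
      have h11 : Bd (W s (rst D u) a) (d i') :=
        (hg2 (d i) s _ h6).mono ((hd' i').2 i (hi' ())).le
      obtain ⟨u3, h12, h13⟩ := exists_amalg hχ h8 (fun x hx => (hDm _).2 ⟨i', h11 x hx⟩)
      refine ⟨(s, ⟨rst D u, h6.mono (hδ i).le⟩), ?_⟩
      exact f.uniq (s2, u3, r') a _ _
        (f.mono (s2, W s (rst D u) a, r) (s2, u3, r') _ _ ⟨le_rfl, h13, hr'⟩ h10)
        (f.mono (s, u, r') (s2, u3, r') _ _ ⟨h9, h12, le_rfl⟩ hb)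
    choose x hx using h4
    refine lt_of_le_of_lt (Cardinal.mk_le_of_injective (f := x) ?_) h3
    intro b b' h
    apply Subtype.ext
    rw [← hx b, ← hx b', h]
  -- all values
  have h2 : #(Σ a : A, {b : B // ∃ s u r', s ≤ s0 ∧ u ≤ u0 ∧ r' ≤ r ∧ f.F (s, u, r') a b})
      < κ := by
    rw [Cardinal.mk_sigma]
    exact Cardinal.sum_lt_of_isRegular hr (hA.trans_lt hχ1) key
  have h3 : ∀ b : B, ∃ x : (Σ a : A,
      {b : B // ∃ s u r', s ≤ s0 ∧ u ≤ u0 ∧ r' ≤ r ∧ f.F (s, u, r') a b}), x.2.1 = b := by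
    intro b
    obtain ⟨⟨s, u, r'⟩, h1, a, h2⟩ := hf b (s0, u0, r) ⟨le_rfl, le_rfl, hr0⟩
    exact ⟨⟨a, b, s, u, r', h1.1, h1.2.1, h1.2.2, h2⟩, rfl⟩
  choose x hx using h3
  have h4 : #B < κ := by
    refine lt_of_le_of_lt (Cardinal.mk_le_of_injective (f := x) ?_) h2
    intro b b' h
    rw [← hx b, ← hx b', h]
  exact absurd (hB.trans_lt h4) (lt_irrefl _)

end CTF
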