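import Pool.Agent.Lib.CAT9.Large
import Pool.Agent.Lib.CLC.Posets

/-!
# Definitions for the model in which `μ⁺` is `ℵ_{ω+1}`
-/

namespace CTF

open Cardinal CAT9

/-! ### Names below a condition -/

/-- A name, below the condition `p0`, for a tree with nodes `(a, i)`, `(a, i)` on level `a`. -/
structure TName (P : Type) [Preorder P] (L M : Type) [LinearOrder L] (p0 : P) where
  /-- `p` forces that `x` lies below `y`. -/
  R : P → L × M → L × M → Prop
  mono : ∀ p q x y, q ≤ p → R p x y → R q x y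
  dense : ∀ p x y, p ≤ p0 → (∀ q, q ≤ p → ∃ r, r ≤ q ∧ R r x y) → R p x y
  lt : ∀ p x y, R p x y → x.1 < y.1
  trans : ∀ p x y z, R p x y → R p y z → R p x z
  tree : ∀ p x y z, R p x z → R p y z → x.1 < y.1 → R p x y
  uniq : ∀ p a i j z, R p (a, i) z → R p (a, j) z → i = j
  pred : ∀ p y a, p ≤ p0 → a < y.1 → ∃ q, q ≤ p ∧ ∃ i, R q (a, i) y

/-- A name, below the condition `p`, for a cofinal branch. -/
structure BName {P : Type} [Preorder P] {L M : Type} [LinearOrder L] {p0 : P}
    (T : TName P L M p0) (p : P) where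
  /-- `q` forces that the branch goes through the node `(a, i)`. -/
  B : P → L → M → Prop
  mono : ∀ q r a i, r ≤ q → B q a i → B r a i
  uniq : ∀ q a i j, B q a i → B q a j → i = j
  total : ∀ q, q ≤ p → ∀ a, ∃ r, r ≤ q ∧ ∃ i, B r a i
  chain : ∀ q a b i j, B q a i → B q b j → a < b → T.R q (a, i) (b, j)

/-- A projection of forcing notions. -/
structure IsProj {P Q : Type} [Preorder P] [Preorder Q] (τ : P → Q) : Prop where
  mono : ∀ a b, a ≤ b → τ a ≤ τ b
  lift : ∀ a r, r ≤ τ a → ∃ b, b ≤ a ∧ τ b ≤ r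

/-- The pull back of a name for a tree along a projection. -/
def TName.pull {P Q : Type} [Preorder P] [Preorder Q] {L M : Type} [LinearOrder L] {τ : P → Q}
    (hτ : IsProj τ) {q0 : Q} (T : TName Q L M q0) (p0 : P) (h0 : τ p0 ≤ q0) :
    TName P L M p0 where
  R p x y := T.R (τ p) x y
  mono p q x y h h' := T.mono _ _ _ _ (hτ.mono _ _ h) h'
  dense p x y hp h := by
    refine T.dense _ _ _ ((hτ.mono _ _ hp).trans h0) fun r hr => ?_
    obtain ⟨b, hb, hbr⟩ := hτ.lift p r hr
    obtain ⟨c, hc, hR⟩ := h b hb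
    exact ⟨τ c, (hτ.mono _ _ hc).trans hbr, hR⟩
  lt p x y h := T.lt _ _ _ h
  trans p x y z h h' := T.trans _ _ _ _ h h'
  tree p x y z h h' := T.tree _ _ _ _ h h'
  uniq p a i j z h h' := T.uniq _ _ _ _ _ h h'
  pred p y a hp ha := by
    obtain ⟨r, hr, i, hi⟩ := T.pred (τ p) y a ((hτ.mono _ _ hp).trans h0) ha
    obtain ⟨b, hb, hbr⟩ := hτ.lift p r hr
    exact ⟨b, hb, i, T.mono _ _ _ _ hbr hi⟩

/-! ### Collapses -/

/-- Partial functions with at most `χ` arguments, with values restricted by `C`. -/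
structure Fn (A B : Type) (χ : Cardinal.{0}) (C : A → B → Prop) : Type where
  /-- the partial function -/
  f : A → Option B
  small : #{a // f a ≠ none} ≤ χ
  cst : ∀ a b, f a = some b → C a b

instance {A B : Type} {χ : Cardinal.{0}} {C : A → B → Prop} : Preorder (Fn A B χ C) where
  le g f := ∀ a b, f.f a = some b → g.f a = some b
  le_refl := fun _ _ _ h => h
  le_trans := fun _ _ _ h1 h2 a b h => h1 a b (h2 a b h)

/-- A set of order type `κ`. -/
abbrev Ot (κ : Cardinal.{0}) : Type := κ.ord.ToType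

/-- The Levy collapse `Col(χ⁺, <κ)`: partial functions of size at most `χ` from `κ × χ⁺` to `κ`
with `f (a, ζ) < a`. -/
abbrev Levy (χ κ : Cardinal.{0}) : Type :=
  Fn (Ot κ × Ot (Order.succ χ)) (Ot κ) χ (fun a b => b < a.1)

/-- Finite partial functions from the natural numbers to `B`. -/
def Fin0 (B : Type) : Type := {f : ℕ → Option B // {n | f n ≠ none}.Finite}

instance (B : Type) : Preorder (Fin0 B) where
  le g f := ∀ n b, f.1 n = some b → g.1 n = some b
  le_refl := fun _ _ _ h => h
  le_trans := fun _ _ _ h1 h2 n b h => h1 n b (h2 n b h)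

/-- Spaces of points in which the conditions met by a point are directed. -/
class PtsD (G X : Type) [Preorder G] extends Pts G X where
  dir : ∀ (g h : G) (x : X), x ∈ cy g → x ∈ cy h → ∃ k, k ≤ g ∧ k ≤ h ∧ x ∈ cy k

instance (B : Type) [Nonempty B] : PtsD (Fin0 B) (ℕ → B) where
  cy f := {c | ∀ n b, f.1 n = some b → c n = b}
  cy_mono _ _ h _ hc n b hb := hc n b (h n b hb)
  cy_ne f := ⟨fun n => (f.1 n).getD (Classical.arbitrary B), fun n b hb => by simp [hb]⟩
  dir g h x hg hh := by
    classical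
    refine ⟨⟨fun n => if g.1 n = none then h.1 n else g.1 n, ?_⟩, ?_, ?_, ?_⟩
    · refine (g.2.union h.2).subset fun n hn => ?_
      by_cases hg : g.1 n = none
      · exact Or.inr (by simpa [hg] using hn)
      · exact Or.inl hg
    · intro n b hb
      simp [hb]
    · intro n b hb
      change (if g.1 n = none then h.1 n else g.1 n) = some b
      by_cases hgn : g.1 n = none
      · rw [if_pos hgn, hb]
      · rw [if_neg hgn]
        obtain ⟨b', hb'⟩ := Option.ne_none_iff_exists'.1 hgn
        rw [hb', ← hg n b' hb', ← hh n b hb]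
    · intro n b hb
      change (if g.1 n = none then h.1 n else g.1 n) = some b at hb
      by_cases hgn : g.1 n = none
      · rw [if_pos hgn] at hb
        exact hh n b hb
      · rw [if_neg hgn] at hb
        exact hg n b hb

instance {G0 X0 : Type} [Preorder G0] [PtsD G0 X0] : Pts (G0 × AddOmega) (X0 × (ℕ → Bool)) :=
  CLC.instPtsProd

/-! ### The iteration -/

/-- The iteration of the forcing notions `G0` and `CC` with the forcing notion of the names for
homogeneous trees: the order compares the names only at the points which extend the condition in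
`G0`. -/
def It (G0 X0 CC L M : Type) [LinearOrder L] [Preorder G0] [PtsD G0 X0] : Type :=
  G0 × CC × Cond (G0 × AddOmega) L M (X0 × (ℕ → Bool))

/-- `p'` extends `p` at the points of `g`. -/
def ExtOn {G0 X0 L M : Type} [LinearOrder L] [Preorder G0] [PtsD G0 X0] (g : G0)
    (p' p : Cond (G0 × AddOmega) L M (X0 × (ℕ → Bool))) : Prop :=
  p.ht ≤ p'.ht ∧ ∀ a, a ≤ p.ht → ∀ i, ∀ x : X0 × (ℕ → Bool), x.1 ∈ Pts.cy (X := X0) g →
    p'.t a i x = p.t a i x

instance {G0 X0 CC L M : Type} [LinearOrder L] [Preorder G0] [PtsD G0 X0] [Preorder CC] :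
    Preorder (It G0 X0 CC L M) where
  le r' r := r'.1 ≤ r.1 ∧ r'.2.1 ≤ r.2.1 ∧ ExtOn r'.1 r'.2.2 r.2.2
  le_refl := fun r => ⟨le_rfl, le_rfl, le_rfl, fun _ _ _ _ _ => rfl⟩
  le_trans := fun a b c h1 h2 => ⟨h1.1.trans h2.1, h1.2.1.trans h2.2.1,
    h2.2.2.1.trans h1.2.2.1, fun α hα i x hx => (h1.2.2.2 α (hα.trans h2.2.2.1) i x hx).trans
      (h2.2.2.2 α hα i x (Pts.cy_mono _ _ h1.1 hx))⟩

/-! ### Large cardinals -/

/-- Directed sets with fewer than `κ` elements have lower bounds. -/
def DirClosedLt (κ : Cardinal.{0}) (P : Type) [Preorder P] : Prop :=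
  ∀ S : Set P, #S < κ → DirectedOn (fun a b => b ≤ a) S → ∃ q, ∀ s ∈ S, q ≤ s

/-- A name, below the condition `q0`, for a normal fine `κ`-complete ultrafilter on the set of
subsets of `L` with fewer than `κ` elements.  A name for a set of subsets of `L` is a relation `A`,
where `A r x` says that `r` forces `x` to be a member, and `U q A` says that `q` forces the set
named by `A` to be in the ultrafilter. -/
structure SCName (κ : Cardinal.{0}) (Q : Type) [Preorder Q] (L : Type) (q0 : Q) where
  /-- `q` forces the set named by `A` to be in the ultrafilter. -/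
  U : Q → (Q → Set L → Prop) → Prop
  mono : ∀ q r A, r ≤ q → U q A → U r A
  up : ∀ q A B, U q A → (∀ r, r ≤ q → ∀ x, A r x → B r x) → U q B
  dense : ∀ q A, q ≤ q0 → (∀ r, r ≤ q → ∃ s, s ≤ r ∧ U s A) → U q A
  decide : ∀ q A, q ≤ q0 → (∀ r s x, s ≤ r → A r x → A s x) →
    ∃ r, r ≤ q ∧ (U r A ∨ U r (fun s x => ∀ t, t ≤ s → ¬ A t x))
  inter : ∀ q (K : Type) (A : K → Q → Set L → Prop), #K < κ → (∀ k, U q (A k)) →
    U q (fun r x => ∀ k, A k r x)
  normal : ∀ q (A : L → Q → Set L → Prop), (∀ a, U q (A a)) →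
    U q (fun r x => ∀ a, a ∈ x → A a r x)
  small : ∀ q, q ≤ q0 → U q (fun _ x => #x < κ)
  fine : ∀ q, q ≤ q0 → ∀ a, U q (fun _ x => a ∈ x)
  proper : ∀ q, q ≤ q0 → ∀ A, U q A → ∃ r, r ≤ q ∧ ∃ x, A r x

/-- The cardinal `κ` is indestructibly supercompact, as far as `L` is concerned: every `κ`-directed
closed forcing notion forces that there is a normal fine `κ`-complete ultrafilter on the set of
subsets of `L` with fewer than `κ` elements. -/
def Indestr (κ : Cardinal.{0}) (L : Type) : Prop :=
  ∀ (Q : Type) (_ : Preorder Q), DirClosedLt κ Q → ∀ p : Q, ∃ q, q ≤ p ∧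
    Nonempty (SCName κ Q L q)

/-! ### The forcing notions used -/

section

variable (κ : ℕ → Cardinal.{0})

/-- The set collapsed to be countable. -/
abbrev Bi (i : Ot (κ 0)) : Type := ℕ ⊕ {j : Ot (κ 0) // j < i}

/-- The collapse of `Bi κ i` to `ω`. -/
abbrev GG (i : Ot (κ 0)) : Type := Fin0 (Bi κ i)

/-- The collapse of the cardinals below `κ 0` to the successor of the size of `Bi κ i`. -/
abbrev EE (i : Ot (κ 0)) : Type := Levy #(Bi κ i) (κ 0)

/-- The collapse of the cardinals below `κ (k + 1)` to the successor of `κ k`. -/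
abbrev DD (k : ℕ) : Type := Levy (κ k) (κ (k + 1))

/-- The full product of the collapses `DD κ k`. -/
abbrev CD : Type := ∀ k, DD κ k

end

end CTF
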