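import Pool.Agent.Lib.CTF.HDefs

namespace CTF

open Cardinal CAT9

/-! MODULE FU: fusion for products of collapses -/

namespace FUAux

section

variable {G0 C M : Type} [Preorder G0] [Preorder C] {D : ℕ → Type} [∀ j, Preorder (D j)]

/-- the tails -/
abbrev Tl (D : ℕ → Type) (m : ℕ) : Type := ∀ j : {j : ℕ // m ≤ j}, D j.1

/-- an initial segment followed by a tail -/
def glue (m : ℕ) (s : ∀ j : Fin m, D j) (t : Tl D m) : ∀ j, D j := fun j =>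
  if h : j < m then s ⟨j, h⟩ else t ⟨j, not_lt.1 h⟩

omit [∀ j, Preorder (D j)] in
theorem glue_lt {m : ℕ} (s : ∀ j : Fin m, D j) (t : Tl D m) {j : ℕ} (h : j < m) :
    glue m s t j = s ⟨j, h⟩ := by
  unfold glue
  rw [dif_pos h]

omit [∀ j, Preorder (D j)] in
theorem glue_ge {m : ℕ} (s : ∀ j : Fin m, D j) (t : Tl D m) {j : ℕ} (h : m ≤ j) :
    glue m s t j = t ⟨j, h⟩ := by
  unfold glue
  rw [dif_neg (not_lt.2 h)]

theorem glue_mono {m : ℕ} {s s' : ∀ j : Fin m, D j} {t t' : Tl D m} (hs : s' ≤ s)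
    (ht : t' ≤ t) : glue m s' t' ≤ glue m s t := by
  intro j
  rcases lt_or_ge j m with h | h
  · rw [glue_lt _ _ h, glue_lt _ _ h]
    exact hs _
  · rw [glue_ge _ _ h, glue_ge _ _ h]
    exact ht _

omit [∀ j, Preorder (D j)] in
theorem glue_self (m : ℕ) (d : ∀ j, D j) :
    glue m (fun j : Fin m => d j) (fun j : {j : ℕ // m ≤ j} => d j.1) = d := by
  funext j
  rcases lt_or_ge j m with h | h
  · rw [glue_lt _ _ h]
  · rw [glue_ge _ _ h]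

theorem closed_R {κ' : Cardinal.{0}} {m : ℕ} (hD : ∀ j, m ≤ j → DirectedClosed κ' (D j))
    {Z : Type} [Preorder Z] (hZ : DirectedClosed κ' Z) : DirectedClosed κ' (Tl D m × Z) := by
  intro S hS hd
  obtain ⟨z, hz⟩ := hZ (Prod.snd '' S) (Cardinal.mk_image_le.trans hS) (by
    rintro _ ⟨a, ha, rfl⟩ _ ⟨b, hb, rfl⟩
    obtain ⟨c, hc, h1, h2⟩ := hd a ha b hb
    exact ⟨c.2, ⟨c, hc, rfl⟩, h1.2, h2.2⟩)
  have hj : ∀ j : {j : ℕ // m ≤ j}, ∃ x : D j.1, ∀ s ∈ S, x ≤ s.1 j := by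
    intro j
    obtain ⟨x, hx⟩ := hD j.1 j.2 ((fun s : Tl D m × Z => s.1 j) '' S)
      (Cardinal.mk_image_le.trans hS) (by
      rintro _ ⟨a, ha, rfl⟩ _ ⟨b, hb, rfl⟩
      obtain ⟨c, hc, h1, h2⟩ := hd a ha b hb
      exact ⟨c.1 j, ⟨c, hc, rfl⟩, h1.1 j, h2.1 j⟩)
    exact ⟨x, fun s hs => hx _ ⟨s, hs, rfl⟩⟩
  choose x hx using hj
  exact ⟨(x, z), fun s hs => ⟨fun j => hx j s hs, hz _ ⟨s, hs, rfl⟩⟩⟩

theorem step {κ' : Cardinal.{0}} (m : ℕ) (h0 : ℵ₀ ≤ κ')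
    (hS : #(G0 × C × (∀ j : Fin m, D j)) ≤ κ')
    (hD : ∀ j, m ≤ j → DirectedClosed κ' (D j)) {Z : Type} [Preorder Z]
    (hZ : DirectedClosed κ' Z) {K V : Type} (hK : #K ≤ κ')
    (O : K → V → G0 → (C × ∀ j, D j) → Z → Prop)
    (hO : ∀ k v g c z g' c' z', g' ≤ g → c' ≤ c → z' ≤ z → O k v g c z → O k v g' c' z')
    (g0 : G0) (c0 : C × ∀ j, D j) (z0 : Z)
    (hd : ∀ k g c z, g ≤ g0 → c ≤ c0 → z ≤ z0 →
      ∃ g' c' z', g' ≤ g ∧ c' ≤ c ∧ z' ≤ z ∧ ∃ v, O k v g' c' z')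
    (d : ∀ j, D j) (z : Z) (hdc : d ≤ c0.2) (hz : z ≤ z0) :
    ∃ (d' : ∀ j, D j) (z' : Z) (W : K → Set V), d' ≤ d ∧ z' ≤ z ∧ (∀ j, j < m → d' j = d j) ∧
      (∀ k, #(W k) ≤ κ') ∧
      ∀ k (g : G0) (a : C) (s : ∀ j : Fin m, D j), g ≤ g0 → a ≤ c0.1 → (∀ j, s j ≤ d j) →
        ∃ g' a' s' v, g' ≤ g ∧ a' ≤ a ∧ s' ≤ s ∧ v ∈ W k ∧
          O k v g' (a', glue m s' (fun j => d' j.1)) z' := by
  classical
  let Sg : Type := {σ : G0 × C × (∀ j : Fin m, D j) // σ.1 ≤ g0 ∧ σ.2.1 ≤ c0.1 ∧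
    ∀ j, σ.2.2 j ≤ d j}
  have hSg : #Sg ≤ κ' := (Cardinal.mk_subtype_le _).trans hS
  have hT : #(K × Sg) ≤ κ' := by
    rw [Cardinal.mk_prod, Cardinal.lift_id, Cardinal.lift_id]
    exact (mul_le_mul' hK hSg).trans (Cardinal.mul_eq_self h0).le
  obtain ⟨r, hr, hrD⟩ := CAT9.meet (Q := Tl D m × Z) h0 (closed_R hD hZ) (K := K × Sg) hT
    (fun kσ => {r | ∃ g' a' s' v, g' ≤ kσ.2.1.1 ∧ a' ≤ kσ.2.1.2.1 ∧ s' ≤ kσ.2.1.2.2 ∧
      O kσ.1 v g' (a', glue m s' r.1) r.2})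
    ((fun j => d j.1), z)
    (by
      rintro ⟨k, σ⟩ q r hrq ⟨g', a', s', v, h1, h2, h3, h4⟩
      exact ⟨g', a', s', v, h1, h2, h3, hO _ _ g' (a', glue m s' q.1) q.2 g'
        (a', glue m s' r.1) r.2 le_rfl ⟨le_rfl, glue_mono le_rfl hrq.1⟩ hrq.2 h4⟩)
    (by
      rintro ⟨k, ⟨⟨g, a, s⟩, hg, ha, hs⟩⟩ ⟨t, w⟩ ⟨ht, hw⟩
      have hle : ((a, glue m s t) : C × ∀ j, D j) ≤ c0 := by
        refine ⟨ha, fun j => ?_⟩
        change glue m s t j ≤ c0.2 j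
        rcases lt_or_ge j m with h | h
        · rw [glue_lt _ _ h]
          exact (hs ⟨j, h⟩).trans (hdc j)
        · rw [glue_ge _ _ h]
          exact (ht ⟨j, h⟩).trans (hdc j)
      obtain ⟨g', c', z', h1, h2, h3, v, h4⟩ := hd k g (a, glue m s t) w hg hle (hw.trans hz)
      refine ⟨((fun j => c'.2 j.1), z'), ⟨fun j => ?_, h3⟩, g', c'.1, (fun j => c'.2 j), v, h1,
        h2.1, fun j => ?_, ?_⟩
      · have := h2.2 j.1
        change c'.2 j.1 ≤ glue m s t j.1 at this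
        rw [glue_ge _ _ j.2] at this
        exact this
      · have := h2.2 j.1
        change c'.2 j.1 ≤ glue m s t j.1 at this
        rw [glue_lt _ _ j.2] at this
        exact this
      · rw [glue_self]
        exact h4)
  have key : ∀ (k : K) (σ : Sg), ∃ (g' : G0) (a' : C) (s' : ∀ j : Fin m, D j) (v : V),
      g' ≤ σ.1.1 ∧ a' ≤ σ.1.2.1 ∧ s' ≤ σ.1.2.2 ∧ O k v g' (a', glue m s' r.1) r.2 :=
    fun k σ => hrD (k, σ)
  choose g' a' s' v h1 h2 h3 h4 using key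
  refine ⟨glue m (fun j => d j) r.1, r.2, fun k => Set.range (v k), ?_, hr.2, ?_, ?_, ?_⟩
  · intro j
    rcases lt_or_ge j m with h | h
    · rw [glue_lt _ _ h]
    · rw [glue_ge _ _ h]
      exact hr.1 ⟨j, h⟩
  · intro j hj
    rw [glue_lt _ _ hj]
  · intro k
    exact Cardinal.mk_range_le.trans hSg
  · intro k g a s hg ha hs
    let σ : Sg := ⟨(g, a, s), hg, ha, hs⟩
    refine ⟨g' k σ, a' k σ, s' k σ, v k σ, h1 k σ, h2 k σ, h3 k σ, ⟨σ, rfl⟩, ?_⟩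
    have : (fun j : {j : ℕ // m ≤ j} => glue m (fun j => d j) r.1 j.1) = r.1 := by
      funext j
      rw [glue_ge _ _ j.2]
    rw [this]
    exact h4 k σ

end

end FUAux

open FUAux in
theorem fus_prod {G0 C M : Type} [Preorder G0] [Preorder C] {D : ℕ → Type}
    [∀ j, Preorder (D j)] (κ : ℕ → Cardinal.{0}) (hκ : Monotone κ) (h0 : ℵ₀ ≤ κ 0)
    (hM : ∀ n, κ n ≤ #M) (ν : M → ℕ) (hν : ∀ n, #{i // ν i ≤ n} ≤ κ n)
    (hS : ∀ m, #(G0 × C × (∀ j : Fin m, D j)) ≤ κ m)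
    (hD : ∀ m j, m ≤ j → DirectedClosed (κ m) (D j)) : Fus G0 (C × ∀ j, D j) M := by
  classical
  intro Z _ hZ K V hK O hO g0 c0 z0 hd
  obtain ⟨e⟩ : Nonempty (K ↪ M) := Cardinal.le_def K M |>.1 hK
  have hZm : ∀ m, DirectedClosed (κ m) Z := fun m S hS' hdS => hZ S (hS'.trans (hM m)) hdS
  have h0m : ∀ m, ℵ₀ ≤ κ m := fun m => h0.trans (hκ (Nat.zero_le m))
  -- the blocks
  let Kb : ℕ → Type := fun m => {k : K // ν (e k) = m}
  have hKb : ∀ m, #(Kb m) ≤ κ m := by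
    intro m
    refine le_trans ?_ (hν m)
    refine Cardinal.mk_le_of_injective (f := fun k : Kb m => (⟨e k.1, k.2.le⟩ : {i // ν i ≤ m})) ?_
    intro a b hab
    have := congrArg Subtype.val hab
    exact Subtype.ext (e.injective this)
  -- the states
  let St : Type := {p : (∀ j, D j) × Z // p.1 ≤ c0.2 ∧ p.2 ≤ z0}
  have hstep : ∀ (m : ℕ) (p : St), ∃ (q : St) (W : Kb m → Set V), q.1.1 ≤ p.1.1 ∧ q.1.2 ≤ p.1.2 ∧
      (∀ j, j < m → q.1.1 j = p.1.1 j) ∧ (∀ k, #(W k) ≤ κ m) ∧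
      ∀ (k : Kb m) (g : G0) (a : C) (s : ∀ j : Fin m, D j), g ≤ g0 → a ≤ c0.1 →
        (∀ j : Fin m, s j ≤ p.1.1 j) →
        ∃ g' a' s' v, g' ≤ g ∧ a' ≤ a ∧ s' ≤ s ∧ v ∈ W k ∧
          O k.1 v g' (a', glue m s' (fun j => q.1.1 j.1)) q.1.2 := by
    intro m p
    obtain ⟨d', z', W, h1, h2, h3, h4, h5⟩ := step (G0 := G0) (C := C) (D := D) m (h0m m) (hS m)
      (fun j hj => hD m j hj) (hZm m) (hKb m) (fun k v g c z => O k.1 v g c z)
      (fun k v g c z g' c' z' => hO k.1 v g c z g' c' z') g0 c0 z0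
      (fun k g c z => hd k.1 g c z) p.1.1 p.1.2 p.2.1 p.2.2
    exact ⟨⟨(d', z'), h1.trans p.2.1, h2.trans p.2.2⟩, W, h1, h2, h3, h4, h5⟩
  choose nx W hn1 hn2 hn3 hW hn4 using hstep
  let st : ℕ → St := fun n => Nat.rec ⟨(c0.2, z0), le_rfl, le_rfl⟩ (fun m p => nx m p) n
  have hst : ∀ m, st (m + 1) = nx m (st m) := fun m => rfl
  have hst1 : ∀ m n, m ≤ n → (st n).1.1 ≤ (st m).1.1 := by
    intro m n h
    induction n, h using Nat.le_induction with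
    | base => exact le_rfl
    | succ n hmn ih =>
      rw [hst]
      exact (hn1 n (st n)).trans ih
  have hst2 : ∀ m n, m ≤ n → (st n).1.2 ≤ (st m).1.2 := by
    intro m n h
    induction n, h using Nat.le_induction with
    | base => exact le_rfl
    | succ n hmn ih =>
      rw [hst]
      exact (hn2 n (st n)).trans ih
  have hst3 : ∀ j n, j + 1 ≤ n → (st n).1.1 j = (st (j + 1)).1.1 j := by
    intro j n h
    induction n, h using Nat.le_induction with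
    | base => rfl
    | succ n hmn ih =>
      rw [hst, hn3 n (st n) j (by omega)]
      exact ih
  let ds : ∀ j, D j := fun j => (st (j + 1)).1.1 j
  obtain ⟨zs, hzs⟩ := hZ (Set.range fun n => (st n).1.2)
    (Cardinal.mk_range_le.trans (by
      rw [Cardinal.mk_nat]
      exact h0.trans (hM 0))) (by
      rintro _ ⟨a, rfl⟩ _ ⟨b, rfl⟩
      exact ⟨_, ⟨max a b, rfl⟩, hst2 _ _ (le_max_left _ _), hst2 _ _ (le_max_right _ _)⟩)
  refine ⟨(c0.1, ds), zs, ⟨le_rfl, fun j => (st (j + 1)).2.1 j⟩,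
    (hzs _ ⟨0, rfl⟩), fun k => W (ν (e k)) (st (ν (e k))) ⟨k, rfl⟩, ?_, ?_⟩
  · intro k
    exact (hW _ _ _).trans (hM _)
  · intro k g c hg hc
    set m := ν (e k) with hm
    obtain ⟨g', a', s', v, h1, h2, h3, h4, h5⟩ := hn4 m (st m) ⟨k, rfl⟩ g c.1
      (fun j => c.2 j) hg hc.1 (fun j => by
        refine (hc.2 j.1).trans ?_
        change (st (j.1 + 1)).1.1 j.1 ≤ (st m).1.1 j.1
        rw [hst3 j.1 m j.2])
    refine ⟨g', (a', glue m s' (fun j => c.2 j.1)), h1, ⟨h2, fun j => ?_⟩, v, h4, ?_⟩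
    · change glue m s' (fun j => c.2 j.1) j ≤ c.2 j
      rcases lt_or_ge j m with h | h
      · rw [glue_lt _ _ h]
        exact h3 ⟨j, h⟩
      · rw [glue_ge _ _ h]
    · have hgl : glue m s' (fun j : {j : ℕ // m ≤ j} => c.2 j.1) ≤
          glue m s' (fun j : {j : ℕ // m ≤ j} => (nx m (st m)).1.1 j.1) := by
        refine glue_mono le_rfl ?_
        intro j
        refine (hc.2 j.1).trans ?_
        change (st (j.1 + 1)).1.1 j.1 ≤ _
        exact hst1 (m + 1) (j.1 + 1) (by have := j.2; omega) j.1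
      have hz' : zs ≤ (nx m (st m)).1.2 := hzs _ ⟨m + 1, rfl⟩
      exact hO k v g' (a', glue m s' (fun j => (nx m (st m)).1.1 j.1)) (nx m (st m)).1.2 g'
        (a', glue m s' fun j => c.2 j.1) zs le_rfl ⟨le_rfl, hgl⟩ hz' h5

end CTF
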