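import Pool.Agent.Lib.CTF.HDefs

/-!
# Regularity: a property of levels which is densely met has a common value for two levels
-/

namespace CTF

open Cardinal CAT9

namespace RGAux

/-- The tasks: decide a level with value `j`, or decide that there is none. -/
def OO {G0 CC Z L M : Type} [Preorder G0] [Preorder CC] [Preorder Z]
    (J : L → M → G0 → CC → Z → Prop) (j : M) (v : Option L) (g : G0) (c : CC) (z : Z) : Prop :=
  (∃ ξ, v = some ξ ∧ J ξ j g c z) ∨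
    (v = none ∧ ∀ ξ g' c' z', g' ≤ g → c' ≤ c → z' ≤ z → ¬ J ξ j g' c' z')

end RGAux

theorem Fus.reg {G0 CC L M : Type} [Preorder G0] [Preorder CC] [LinearOrder L] [hA : Amb L M]
    (hF : Fus G0 CC M) {Z : Type} [Preorder Z] (cZ : DirectedClosed #M Z)
    (J : L → M → G0 → CC → Z → Prop)
    (hJ : ∀ ξ j g c z g' c' z', g' ≤ g → c' ≤ c → z' ≤ z → J ξ j g c z → J ξ j g' c' z')
    (g0 : G0) (c0 : CC) (z0 : Z)
    (hT : ∀ ξ g c z, g ≤ g0 → c ≤ c0 → z ≤ z0 →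
      ∃ g' c' z', g' ≤ g ∧ c' ≤ c ∧ z' ≤ z ∧ ∃ j, J ξ j g' c' z') :
    ∃ ξ η, ξ ≠ η ∧ ∃ j g c z, g ≤ g0 ∧ c ≤ c0 ∧ z ≤ z0 ∧ J ξ j g c z ∧ J η j g c z := by
  classical
  have hO : ∀ k v g c z g' c' z', g' ≤ g → c' ≤ c → z' ≤ z →
      RGAux.OO J k v g c z → RGAux.OO J k v g' c' z' := by
    rintro k v g c z g' c' z' hg hc hz (⟨ξ, h1, h2⟩ | ⟨h1, h2⟩)
    · exact Or.inl ⟨ξ, h1, hJ _ _ _ _ _ _ _ _ hg hc hz h2⟩
    · exact Or.inr ⟨h1, fun ξ g'' c'' z'' e1 e2 e3 =>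
        h2 ξ g'' c'' z'' (e1.trans hg) (e2.trans hc) (e3.trans hz)⟩
  have hD : ∀ k g c z, g ≤ g0 → c ≤ c0 → z ≤ z0 →
      ∃ g' c' z', g' ≤ g ∧ c' ≤ c ∧ z' ≤ z ∧ ∃ v, RGAux.OO J k v g' c' z' := by
    intro k g c z _ _ _
    by_cases h : ∃ ξ g' c' z', g' ≤ g ∧ c' ≤ c ∧ z' ≤ z ∧ J ξ k g' c' z'
    · obtain ⟨ξ, g', c', z', h1, h2, h3, h4⟩ := h
      exact ⟨g', c', z', h1, h2, h3, some ξ, Or.inl ⟨ξ, rfl, h4⟩⟩
    · exact ⟨g, c, z, le_rfl, le_rfl, le_rfl, none, Or.inr ⟨rfl, fun ξ g' c' z' e1 e2 e3 e4 =>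
        h ⟨ξ, g', c', z', e1, e2, e3, e4⟩⟩⟩
  obtain ⟨c1, z1, hc1, hz1, Val, hVal, hV⟩ := hF Z cZ M (Option L) le_rfl (RGAux.OO J) hO
    g0 c0 z0 hD
  have hcard : #(Σ j : M, {ξ : L // some ξ ∈ Val j}) ≤ #M := by
    rw [Cardinal.mk_sigma]
    refine (Cardinal.sum_le_sum _ (fun _ => #M) fun j => ?_).trans ?_
    · refine (Cardinal.mk_le_of_injective (f := fun x : {ξ : L // some ξ ∈ Val j} =>
        (⟨some x.1, x.2⟩ : Val j)) ?_).trans (hVal j)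
      intro x y hxy
      have h1 : some x.1 = some y.1 := congrArg (fun t : Val j => (t : Option L)) hxy
      exact Subtype.ext (Option.some.inj h1)
    · rw [Cardinal.sum_const']
      exact (Cardinal.mul_eq_self hA.inf).le
  obtain ⟨γ, hγ⟩ := hA.bdd (Σ j : M, {ξ : L // some ξ ∈ Val j}) (fun x => x.2.1) hcard
  obtain ⟨g, c, z, hg, hc, hz, j, hj⟩ := hT γ g0 c1 z1 le_rfl hc1 hz1
  obtain ⟨g', c', hg', hc', v, hv, hO'⟩ := hV j g c hg hc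
  have hO2 := hO j v g' c' z1 g' c' z le_rfl le_rfl hz hO'
  rcases hO2 with ⟨ξ, h1, h2⟩ | ⟨h1, h2⟩
  · have hlt : ξ < γ := hγ ⟨j, ξ, by rw [← h1]; exact hv⟩
    exact ⟨ξ, γ, hlt.ne, j, g', c', z, hg'.trans hg, hc'.trans (hc.trans hc1), hz.trans hz1, h2,
      hJ _ _ _ _ _ _ _ _ hg' hc' le_rfl hj⟩
  · exact absurd (hJ _ _ _ _ _ _ _ _ hg' hc' le_rfl hj) (h2 γ g' c' z le_rfl le_rfl le_rfl)

end CTF
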