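import Pool.Agent.Lib.CTF.HDefs
import Pool.Agent.Lib.CTF.RG

/-!
# Pairs which agree on a fixed condition
-/

namespace CTF

open Cardinal CAT9

namespace H0

theorem prod_closed {A B : Type} [Preorder A] [Preorder B] {μ : Cardinal.{0}}
    (hA : DirectedClosed μ A) (hB : DirectedClosed μ B) : DirectedClosed μ (A × B) := by
  intro S hS hd
  obtain ⟨z, hz⟩ := hA (Prod.fst '' S) (Cardinal.mk_image_le.trans hS) (by
    rintro _ ⟨a, ha, rfl⟩ _ ⟨b, hb, rfl⟩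
    obtain ⟨c, hc, h1, h2⟩ := hd a ha b hb
    exact ⟨c.1, ⟨c, hc, rfl⟩, h1.1, h2.1⟩)
  obtain ⟨q, hq⟩ := hB (Prod.snd '' S) (Cardinal.mk_image_le.trans hS) (by
    rintro _ ⟨a, ha, rfl⟩ _ ⟨b, hb, rfl⟩
    obtain ⟨c, hc, h1, h2⟩ := hd a ha b hb
    exact ⟨c.2, ⟨c, hc, rfl⟩, h1.2, h2.2⟩)
  exact ⟨(z, q), fun s hs => ⟨hz _ ⟨s, hs, rfl⟩, hq _ ⟨s, hs, rfl⟩⟩⟩

section agr

variable {G0 X0 L M : Type} [LinearOrder L] [Preorder G0] [PtsD G0 X0]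

theorem agr_refl (g : G0) (q : Q2 G0 X0 L M) : AgrOn g q q :=
  ⟨rfl, fun _ _ _ _ _ => rfl, fun _ _ _ _ => rfl⟩

theorem agr_symm {g : G0} {q q' : Q2 G0 X0 L M} (h : AgrOn g q q') : AgrOn g q' q :=
  ⟨h.ht.symm, fun a ha i x hx => (h.t a (ha.trans h.ht.ge) i x hx).symm,
    fun x hx ξ hξ => (h.y x hx ξ (hξ.trans_le h.ht.ge)).symm⟩

theorem agr_trans {g : G0} {q q' q'' : Q2 G0 X0 L M} (h : AgrOn g q q') (h' : AgrOn g q' q'') :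
    AgrOn g q q'' :=
  ⟨h.ht.trans h'.ht, fun a ha i x hx => (h.t a ha i x hx).trans
    (h'.t a (ha.trans h.ht.le) i x hx), fun x hx ξ hξ => (h.y x hx ξ hξ).trans
    (h'.y x hx ξ (hξ.trans_le h.ht.le))⟩

/-- Replace a condition by another one at the points of `g`. -/
theorem mix_low (g : G0) (q qb : Q2 G0 X0 L M) (h : q.p.ht = qb.p.ht) :
    ∃ q' : Q2 G0 X0 L M, AgrOn g q' qb ∧
      ∀ r rb : Q2 G0 X0 L M, q ≤ r → qb ≤ rb → AgrOn g r rb → q' ≤ r := by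
  have hC := on_clop (X0 := X0) g
  have hs : Sys (G0 × AddOmega) (CTF.mixT (On g) q.p.t qb.p.t) (Set.Iic qb.p.ht) :=
    Sys.mixT hC (h ▸ q.p.sys) qb.p.sys
  have hm : LocIn (G0 × AddOmega) (CTF.mixT (On g) q.p.t qb.p.t) qb.p.ht
      (mix (On g) (q.y ()) (qb.y ())) :=
    LocIn.mixT hC (h ▸ q.mem ()) (qb.mem ())
  refine ⟨mkQ ⟨qb.p.ht, CTF.mixT (On g) q.p.t qb.p.t, hs⟩ (mix (On g) (q.y ()) (qb.y ())) hm,
    ⟨rfl, fun a _ i x hx => ?_, fun x hx ξ _ => mix_pos hx ξ⟩, ?_⟩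
  · funext ξ
    exact mix_pos hx ξ
  · intro r rb hr hrb hag
    have hr' := QQ.le_iff.1 hr
    have hrb' := QQ.le_iff.1 hrb
    refine QQ.le_iff.2 ⟨⟨hr.1.1.trans h.le, fun a ha => ?_⟩, fun x ξ hξ => ?_⟩
    · funext i x
      funext ξ
      change mix (On g) (q.p.t a i) (qb.p.t a i) x ξ = r.p.t a i x ξ
      by_cases hx : x ∈ On g
      · rw [mix_pos hx, hrb.1.2 a (ha.trans hag.ht.le), hag.t a ha i x hx]
      · rw [mix_neg hx, hr.1.2 a ha]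
    · change mix (On g) (q.y ()) (qb.y ()) x ξ = r.y () x ξ
      by_cases hx : x ∈ On g
      · rw [mix_pos hx, hrb'.2 x ξ (hξ.trans_le hag.ht.le), hag.y x hx ξ hξ]
      · rw [mix_neg hx, hr'.2 x ξ hξ]

/-- If `q0` and `q1` agree at the points of `g` and `q1'` extends `q1`, then `q0` has an extension
which agrees with `q1'` at these points. -/
theorem agr_ext [hA : Amb L M] (g : G0) (q0 q1 q1' : Q2 G0 X0 L M) (h : AgrOn g q0 q1)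
    (h' : q1' ≤ q1) : ∃ q0', q0' ≤ q0 ∧ AgrOn g q0' q1' := by
  have hq := QQ.le_iff.1 h'
  obtain ⟨q', h1, h2, h3, h4⟩ := transplant g q0 q1'
    ⟨h.ht.le.trans h'.1.1, fun a ha i x hx => by
      rw [h'.1.2 a (ha.trans h.ht.le)]
      exact (h.t a ha i x hx).symm⟩
    (fun x hx ξ hξ => (hq.2 x ξ (hξ.trans_le h.ht.le)).trans (h.y x hx ξ hξ).symm)
  exact ⟨q', h1, h2, fun a _ i x hx => h3 a i x hx, fun x hx ξ _ => congrFun (h4 x hx) ξ⟩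

end agr

section fam

variable {G0 X0 CC Z L M : Type} [LinearOrder L] [Preorder G0] [PtsD G0 X0] [Preorder CC]
  [Preorder Z]

/-- Families of conditions which agree at the points of `g`. -/
abbrev FJ (Z X0 L M : Type) [LinearOrder L] [Preorder Z] {G0 : Type} [Preorder G0] [PtsD G0 X0]
    (g : G0) (J : Type) : Type :=
  {s : J → Z × Q2 G0 X0 L M // ∀ j j', AgrOn g (s j).2 (s j').2}

theorem fj_closed [hA : Amb L M] (cZ : DirectedClosed #M Z) (z0 : Z) (q0 : Q2 G0 X0 L M) (g : G0)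
    (J : Type) [hJ : Nonempty J] (hJM : #J ≤ #M) : DirectedClosed #M (FJ Z X0 L M g J) := by
  intro S hS hd
  rcases S.eq_empty_or_nonempty with rfl | hne
  · exact ⟨⟨fun _ => (z0, q0), fun _ _ => agr_refl g q0⟩, fun s hs => absurd hs (by simp)⟩
  have cZQ : DirectedClosed #M (Z × Q2 G0 X0 L M) := prod_closed cZ qq_closed
  have h1 : ∀ j, ∃ d : Z × Q2 G0 X0 L M, ∀ s ∈ S, d ≤ s.1 j := by
    intro j
    obtain ⟨d, hd'⟩ := cZQ ((fun s : FJ Z X0 L M g J => s.1 j) '' S)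
      (Cardinal.mk_image_le.trans hS) (by
        rintro _ ⟨a, ha, rfl⟩ _ ⟨b, hb, rfl⟩
        obtain ⟨c, hc, h1, h2⟩ := hd a ha b hb
        exact ⟨c.1 j, ⟨c, hc, rfl⟩, h1 j, h2 j⟩)
    exact ⟨d, fun s hs => hd' _ ⟨s, hs, rfl⟩⟩
  choose d hd1 using h1
  obtain ⟨β, hβ⟩ := hA.bdd J (fun j => (d j).2.p.ht) hJM
  have h2 : ∀ j, ∃ q : Q2 G0 X0 L M, q ≤ (d j).2 ∧ q.p.ht = β := fun j =>
    exact_ht (d j).2 β (hβ j).le
  choose q hq hqβ using h2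
  obtain ⟨j0⟩ := hJ
  have h3 : ∀ j, ∃ q' : Q2 G0 X0 L M, AgrOn g q' (q j0) ∧
      ∀ r rb : Q2 G0 X0 L M, q j ≤ r → q j0 ≤ rb → AgrOn g r rb → q' ≤ r := fun j =>
    mix_low g (q j) (q j0) ((hqβ j).trans (hqβ j0).symm)
  choose q' hq1 hq2 using h3
  refine ⟨⟨fun j => ((d j).1, q' j), fun j j' => agr_trans (hq1 j) (agr_symm (hq1 j'))⟩,
    fun s hs j => ⟨(hd1 j s hs).1, ?_⟩⟩
  exact hq2 j _ _ ((hq j).trans (hd1 j s hs).2) ((hq j0).trans (hd1 j0 s hs).2) (s.2 j j0)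

variable [hA : Amb L M] {T : TreeName (It G0 X0 CC L M) L M}
  {r0 : G0 × CC × Z × Q2 G0 X0 L M}

/-- The members `f` and `f'` of the family decide the branch differently. -/
def Dif (B : BranchName (liftT Z T) r0) {g1 : G0} {J : Type} (f f' : J) (g : G0) (c : CC)
    (s : FJ Z X0 L M g1 J) : Prop :=
  ∃ α i i', α < (s.1 f).2.p.ht ∧ i ≠ i' ∧ B.B (g, c, s.1 f) α i ∧ B.B (g, c, s.1 f') α i'

theorem Dif.mono {B : BranchName (liftT Z T) r0} {g1 : G0} {J : Type} {f f' : J} {g g' : G0}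
    {c c' : CC} {s s' : FJ Z X0 L M g1 J} (hg : g' ≤ g) (hc : c' ≤ c) (hs : s' ≤ s)
    (h : Dif B f f' g c s) : Dif B f f' g' c' s' := by
  obtain ⟨α, i, i', h1, h2, h3, h4⟩ := h
  exact ⟨α, i, i', h1.trans_le (hs f).2.1.1, h2, B.mono _ _ _ _ ⟨hg, hc, hs f⟩ h3,
    B.mono _ _ _ _ ⟨hg, hc, hs f'⟩ h4⟩

/-- Extending a family to a larger height, along an extension of one member. -/
theorem fj_ext {g1 : G0} {J : Type} (s : FJ Z X0 L M g1 J) (j0 : J) (d : Q2 G0 X0 L M)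
    (hd : d ≤ (s.1 j0).2) : ∃ s' : FJ Z X0 L M g1 J, s' ≤ s ∧ ∀ j, AgrOn g1 (s'.1 j).2 d := by
  have h : ∀ j, ∃ q' : Q2 G0 X0 L M, q' ≤ (s.1 j).2 ∧ AgrOn g1 q' d := fun j =>
    agr_ext g1 _ _ d (s.2 j j0) hd
  choose q' h1 h2 using h
  exact ⟨⟨fun j => ((s.1 j).1, q' j), fun j j' => agr_trans (h2 j) (agr_symm (h2 j'))⟩,
    fun j => ⟨le_rfl, h1 j⟩, h2⟩

theorem fj_dense (B : BranchName (liftT Z T) r0) {g1 g2 : G0} {c2 : CC} {z2 : Z}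
    {q2 : Q2 G0 X0 L M} (hle : (g2, c2, z2, q2) ≤ r0)
    (hS : ∀ g c z q, g ≤ g2 → c ≤ c2 → z ≤ z2 → q ≤ q2 → Split1 B g1 g c z q)
    {J : Type} (f f' : J) (hff : f ≠ f') (g : G0) (c : CC) (s : FJ Z X0 L M g1 J)
    (hg : g ≤ g2) (hc : c ≤ c2) (hs : ∀ j, s.1 j ≤ (z2, q2)) :
    ∃ g' c' s', g' ≤ g ∧ c' ≤ c ∧ s' ≤ s ∧ Dif B f f' g' c' s' := by
  classical
  obtain ⟨g', c', za, zb, qa, qb, hg', hc', hza, hzb, hqa, hqb, hab, α, i0, i1, hne, hBa, hBb⟩ :=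
    hS g c (s.1 f).1 (s.1 f).2 hg hc (hs f).1 (hs f).2
  obtain ⟨d', hd', hda⟩ := agr_ext g1 (s.1 f').2 (s.1 f).2 qa (s.2 f' f) hqa
  obtain ⟨⟨g'', c'', z'', d''⟩, ⟨hg'', hc'', hz'', hd''⟩, i', hBi⟩ :=
    B.total (g', c', (s.1 f').1, d') (le_trans
      ⟨hg'.trans hg, hc'.trans hc, (hs f').1, hd'.trans (hs f').2⟩ hle) α
  have hz3 : z'' ≤ (s.1 f').1 := hz''
  have hd3 : d'' ≤ d' := hd''
  have hg3 : g'' ≤ g' := hg''
  have hc3 : c'' ≤ c' := hc''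
  obtain ⟨zc, qc, ic, hic, hzc, hqc, hca, hBc⟩ : ∃ (zc : Z) (qc : Q2 G0 X0 L M) (ic : M),
      ic ≠ i' ∧ zc ≤ (s.1 f).1 ∧ qc ≤ (s.1 f).2 ∧ AgrOn g1 qc qa ∧
      B.B (g', c', zc, qc) α ic := by
    by_cases h : i0 = i'
    · exact ⟨zb, qb, i1, fun h1 => hne (h.trans h1.symm), hzb, hqb, agr_symm hab, hBb⟩
    · exact ⟨za, qa, i0, h, hza, hqa, agr_refl g1 qa, hBa⟩
  obtain ⟨β, hβ⟩ := hA.bdd Bool (fun b => if b then α else d''.p.ht)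
    ((Cardinal.lt_aleph0_of_finite Bool).le.trans hA.inf)
  have hβ1 : α < β := by simpa using hβ true
  have hβ2 : d''.p.ht < β := by simpa using hβ false
  obtain ⟨e, he, heβ⟩ := exact_ht d'' β hβ2.le
  obtain ⟨w, hw, hwe⟩ := agr_ext g1 qc d' e (agr_trans hca (agr_symm hda)) (he.trans hd3)
  obtain ⟨s1, hs1, hs1e⟩ := fj_ext s f' e ((he.trans hd3).trans hd')
  let v : J → Z × Q2 G0 X0 L M := fun j =>
    if j = f then (zc, w) else if j = f' then (z'', e) else s1.1 j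
  have hvf : v f = (zc, w) := by simp [v]
  have hvf' : v f' = (z'', e) := by simp [v, hff.symm]
  have hve : ∀ j, AgrOn g1 (v j).2 e := by
    intro j
    by_cases h1 : j = f
    · subst h1; rw [hvf]; exact hwe
    · by_cases h2 : j = f'
      · subst h2; rw [hvf']; exact agr_refl g1 e
      · have : v j = s1.1 j := by simp [v, h1, h2]
        rw [this]; exact hs1e j
  have hvs : ∀ j, v j ≤ s.1 j := by
    intro j
    by_cases h1 : j = f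
    · subst h1; rw [hvf]; exact ⟨hzc, hw.trans hqc⟩
    · by_cases h2 : j = f'
      · subst h2; rw [hvf']; exact ⟨hz3, (he.trans hd3).trans hd'⟩
      · have : v j = s1.1 j := by simp [v, h1, h2]
        rw [this]; exact hs1 j
  refine ⟨g'', c'', ⟨v, fun j j' => agr_trans (hve j) (agr_symm (hve j'))⟩, hg3.trans hg',
    hc3.trans hc', hvs, α, ic, i', ?_, hic, ?_, ?_⟩
  · change α < (v f).2.p.ht
    rw [(hve f).ht, heβ]
    exact hβ1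
  · change B.B (g'', c'', v f) α ic
    rw [hvf]
    exact B.mono (g', c', zc, qc) _ _ _ ⟨hg3, hc3, le_rfl, hw⟩ hBc
  · change B.B (g'', c'', v f') α i'
    rw [hvf']
    exact B.mono (g'', c'', z'', d'') _ _ _ ⟨le_rfl, le_rfl, le_rfl, he⟩ hBi

/-- One stage. -/
theorem fj_stage (hF : Fus G0 CC M) (cZ : DirectedClosed #M Z) (B : BranchName (liftT Z T) r0)
    {g1 g2 : G0} {c2 : CC} {z2 : Z} {q2 : Q2 G0 X0 L M} (hle : (g2, c2, z2, q2) ≤ r0)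
    (hS : ∀ g c z q, g ≤ g2 → c ≤ c2 → z ≤ z2 → q ≤ q2 → Split1 B g1 g c z q)
    {J : Type} [hJ : Nonempty J] (hJM : #J ≤ #M) (c : CC) (s : FJ Z X0 L M g1 J)
    (hc : c ≤ c2) (hs : ∀ j, s.1 j ≤ (z2, q2)) :
    ∃ c' s', c' ≤ c ∧ s' ≤ s ∧ (∀ j, (s.1 j).2.p.ht < (s'.1 j).2.p.ht) ∧
      ∀ f f', f ≠ f' → ∀ g c'', g ≤ g2 → c'' ≤ c' → ∃ g' c''', g' ≤ g ∧ c''' ≤ c'' ∧
        Dif B f f' g' c''' s' := by
  classical
  let K : Type := {ff : J × J // ff.1 ≠ ff.2}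
  have hK : #K ≤ #M := by
    refine (Cardinal.mk_subtype_le _).trans ?_
    simp only [Cardinal.mk_prod, Cardinal.lift_id]
    exact (mul_le_mul' hJM hJM).trans (Cardinal.mul_eq_self (hA.inf (L := L))).le
  obtain ⟨c1, s1, hc1, hs1, Val, -, hV⟩ := hF (FJ Z X0 L M g1 J)
    (fj_closed cZ z2 q2 g1 J hJM) K Unit hK
    (fun k _ g c s => Dif B k.1.1 k.1.2 g c s)
    (fun k v g c z g' c' z' hg hc hz h => h.mono hg hc hz) g2 c s
    (by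
      intro k g c' s' hg hc' hs'
      obtain ⟨g'', c'', s'', h1, h2, h3, h4⟩ := fj_dense B hle hS k.1.1 k.1.2 k.2 g c' s' hg
        (hc'.trans hc) (fun j => (hs' j).trans (hs j))
      exact ⟨g'', c'', s'', h1, h2, h3, (), h4⟩)
  obtain ⟨j0⟩ := hJ
  obtain ⟨β, hβ⟩ := hA.bdd Unit (fun _ => (s1.1 j0).2.p.ht)
    ((Cardinal.lt_aleph0_of_finite Unit).le.trans hA.inf)
  obtain ⟨e, he, heβ⟩ := exact_ht (s1.1 j0).2 β (hβ ()).le
  obtain ⟨s2, hs2, hs2e⟩ := fj_ext s1 j0 e he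
  refine ⟨c1, s2, hc1, hs2.trans hs1, fun j => ?_, fun f f' hff g c'' hg hc'' => ?_⟩
  · rw [(hs2e j).ht, heβ]
    refine lt_of_le_of_lt (hs1 j).2.1.1 ?_
    rw [(s1.2 j j0).ht]
    exact hβ ()
  · obtain ⟨g', c', hg', hc', -, -, h⟩ := hV ⟨(f, f'), hff⟩ g c'' hg hc''
    exact ⟨g', c', hg', hc', h.mono le_rfl le_rfl hs2⟩

end fam

end H0

section

variable {G0 X0 CC Z L M : Type} [LinearOrder L] [Preorder G0] [PtsD G0 X0] [Preorder CC]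
  [Preorder Z] [hA : Amb L M] {T : TreeName (It G0 X0 CC L M) L M}
  {r0 : G0 × CC × Z × Q2 G0 X0 L M}

theorem ns1_exists (hF : Fus G0 CC M) (hLM : #L ≤ #(ℕ → M)) (cC : DirectedClosed ℵ₀ CC)
    (cZ : DirectedClosed #M Z) (B : BranchName (liftT Z T) r0) (g1 g2 : G0) (c2 : CC) (z2 : Z)
    (q2 : Q2 G0 X0 L M) (hg : g2 ≤ g1) (hle : (g2, c2, z2, q2) ≤ r0) :
    ∃ g c z q, g ≤ g2 ∧ c ≤ c2 ∧ z ≤ z2 ∧ q ≤ q2 ∧ ¬ Split1 B g1 g c z q := by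
  classical
  by_contra hcon
  push Not at hcon
  have hS : ∀ g c z q, g ≤ g2 → c ≤ c2 → z ≤ z2 → q ≤ q2 → Split1 B g1 g c z q := hcon
  have hne := Amb.neM L hA
  have hpow : ∀ m : ℕ, #(Fin m → M) ≤ #M := fun m => by
    rw [← Cardinal.power_def, Cardinal.mk_fin]
    exact Cardinal.power_nat_le (hA.inf (L := L))
  let S : ℕ → Type := fun m => {x : CC × H0.FJ Z X0 L M g1 (Fin m → M) //
    x.1 ≤ c2 ∧ ∀ j, x.2.1 j ≤ (z2, q2)}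
  have hst : ∀ m (x : S m), ∃ y : S (m + 1), y.1.1 ≤ x.1.1 ∧
      (∀ f : Fin (m + 1) → M, y.1.2.1 f ≤ x.1.2.1 (fun k => f k.castSucc)) ∧
      (∀ f : Fin (m + 1) → M,
        (x.1.2.1 (fun k => f k.castSucc)).2.p.ht < (y.1.2.1 f).2.p.ht) ∧
      ∀ f f', f ≠ f' → ∀ g c'', g ≤ g2 → c'' ≤ y.1.1 → ∃ g' c3, g' ≤ g ∧ c3 ≤ c'' ∧
        H0.Dif B f f' g' c3 y.1.2 := by
    rintro m ⟨⟨c, s⟩, hc, hs⟩
    obtain ⟨c', s', h1, h2, h3, h4⟩ := H0.fj_stage hF cZ B hle hS (J := Fin (m + 1) → M)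
      (hpow (m + 1)) c ⟨fun f => s.1 (fun k => f k.castSucc), fun j j' => s.2 _ _⟩ hc
      (fun j => hs _)
    exact ⟨⟨(c', s'), h1.trans hc, fun j => (h2 j).trans (hs _)⟩, h1, h2, h3, h4⟩
  choose nx hn1 hn2 hn3 hn4 using hst
  let s : ∀ m, S m := fun m => Nat.rec ⟨(c2, ⟨fun _ => (z2, q2), fun _ _ => H0.agr_refl g1 q2⟩),
    le_rfl, fun _ => le_rfl⟩ (fun m s => nx m s) m
  have hs : ∀ m, s (m + 1) = nx m (s m) := fun m => rfl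
  -- the part in `CC`
  have hcanti : Antitone fun m => (s m).1.1 :=
    antitone_nat_of_succ_le fun m => by
      rw [hs m]
      exact hn1 m (s m)
  obtain ⟨co, hco⟩ := cC (Set.range fun m => (s m).1.1)
    (Cardinal.mk_range_le.trans (le_of_eq Cardinal.mk_nat)) (by
      rintro a ⟨m, rfl⟩ b ⟨n, rfl⟩
      exact ⟨_, ⟨max m n, rfl⟩, hcanti (le_max_left m n), hcanti (le_max_right m n)⟩)
  have hco' : ∀ m, co ≤ (s m).1.1 := fun m => hco _ ⟨m, rfl⟩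
  -- the other parts
  let tr : (ℕ → M) → ∀ m, Fin m → M := fun F m k => F k.1
  let a : (ℕ → M) → ℕ → Z × Q2 G0 X0 L M := fun F m => (s m).1.2.1 (tr F m)
  have ha1 : ∀ F m, a F (m + 1) ≤ a F m := fun F m => hn2 m (s m) (tr F (m + 1))
  have ha2 : ∀ F m, (a F m).2.p.ht < (a F (m + 1)).2.p.ht := fun F m =>
    hn3 m (s m) (tr F (m + 1))
  have haanti : ∀ F, Antitone (a F) := fun F => antitone_nat_of_succ_le (ha1 F)
  have haht : ∀ F F' m, (a F m).2.p.ht = (a F' m).2.p.ht := fun F F' m =>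
    ((s m).1.2.2 (tr F m) (tr F' m)).ht
  have hcount : ∀ {A : Type} (u : ℕ → A), #(Set.range u) ≤ #M := fun u =>
    (Cardinal.mk_range_le.trans (le_of_eq Cardinal.mk_nat)).trans (hA.inf (L := L))
  have hz : ∀ F, ∃ z : Z, ∀ m, z ≤ (a F m).1 := by
    intro F
    obtain ⟨z, hz⟩ := cZ (Set.range fun m => (a F m).1) (hcount _) (by
      rintro _ ⟨m, rfl⟩ _ ⟨n, rfl⟩
      exact ⟨_, ⟨max m n, rfl⟩, (haanti F (le_max_left m n)).1, (haanti F (le_max_right m n)).1⟩)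
    exact ⟨z, fun m => hz _ ⟨m, rfl⟩⟩
  choose z hz using hz
  have hq : ∀ F, ∃ q : Q2 G0 X0 L M, (∀ m, q ≤ (a F m).2) ∧ (∀ m, (a F m).2.p.ht < q.p.ht) ∧
      ∀ ξ, ξ < q.p.ht → ∃ m, ξ < (a F m).2.p.ht := by
    intro F
    obtain ⟨q, hq1, hq2, hq3, -⟩ := union_level (mk_unit_le (L := L))
      (Set.range fun m => (a F m).2) (hcount _) ⟨_, ⟨0, rfl⟩⟩
      (by
        rintro _ ⟨m, rfl⟩ _ ⟨n, rfl⟩
        exact ⟨_, ⟨max m n, rfl⟩, (haanti F (le_max_left m n)).2,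
          (haanti F (le_max_right m n)).2⟩)
      (by
        rintro _ ⟨m, rfl⟩
        exact ⟨_, ⟨m + 1, rfl⟩, ha2 F m⟩)
    refine ⟨q, fun m => hq1 _ ⟨m, rfl⟩, fun m => hq2 _ ⟨m, rfl⟩, fun ξ hξ => ?_⟩
    obtain ⟨_, ⟨m, rfl⟩, hm⟩ := hq3 ξ hξ
    exact ⟨m, hm⟩
  choose q hq1 hq2 hq3 using hq
  have hqle : ∀ F F', (q F).p.ht ≤ (q F').p.ht := by
    intro F F'
    by_contra h
    obtain ⟨m, hm⟩ := hq3 F _ (not_le.1 h)
    rw [haht F F' m] at hm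
    exact absurd hm (not_lt.2 (hq2 F' m).le)
  obtain ⟨m0⟩ := hne
  let F0 : ℕ → M := fun _ => m0
  have hmix : ∀ F, ∃ q' : Q2 G0 X0 L M, AgrOn g1 q' (q F0) ∧
      ∀ r rb : Q2 G0 X0 L M, q F ≤ r → q F0 ≤ rb → AgrOn g1 r rb → q' ≤ r := fun F =>
    H0.mix_low g1 (q F) (q F0) (le_antisymm (hqle F F0) (hqle F0 F))
  choose q' hq'1 hq'2 using hmix
  have hq'a : ∀ F m, q' F ≤ (a F m).2 := fun F m =>
    hq'2 F _ _ (hq1 F m) (hq1 F0 m) ((s m).1.2.2 _ _)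
  have hco2 : co ≤ c2 := (hco' 0).trans (s 0).2.1
  have hz2 : ∀ F, z F ≤ z2 := fun F => (hz F 0).trans ((s 0).2.2 _).1
  have hq2' : ∀ F, q' F ≤ q2 := fun F => (hq'a F 0).trans ((s 0).2.2 _).2
  -- the final level
  obtain ⟨Φ⟩ := (Cardinal.le_def _ _).1 hLM
  obtain ⟨ξ, η, hne, j, g, c, v, hg', hc', hv, ⟨za, qa, hza, hqa, hqav, hBa⟩,
      ⟨zb, qb, hzb, hqb, hqbv, hBb⟩⟩ :=
    Fus.reg hF (Z := Q2 G0 X0 L M) qq_closed
      (fun ξ j g c v => ∃ z' q3, z' ≤ z (Φ ξ) ∧ q3 ≤ q' (Φ ξ) ∧ AgrOn g1 q3 v ∧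
        B.B (g, c, z', q3) (q F0).p.ht j)
      (by
        rintro ξ j g c v g' c' v' hg hc hv ⟨z', q4, h1, h2, h3, h4⟩
        obtain ⟨q3, h5, h6⟩ := H0.agr_ext g1 q4 v v' h3 hv
        exact ⟨z', q3, h1, h5.trans h2, h6,
          B.mono (g, c, z', q4) _ _ _ ⟨hg, hc, le_rfl, h5⟩ h4⟩)
      g2 co (q F0)
      (by
        intro ξ g c v hg' hc' hv
        obtain ⟨q3, h1, h2⟩ := H0.agr_ext g1 (q' (Φ ξ)) (q F0) v (hq'1 (Φ ξ)) hv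
        obtain ⟨⟨g4, c4, z4, q4⟩, ⟨hg4, hc4, hz4, hq4⟩, j, hj⟩ :=
          B.total (g, c, z (Φ ξ), q3) (le_trans
            ⟨hg', hc'.trans hco2, hz2 _, h1.trans (hq2' _)⟩ hle) (q F0).p.ht
        have hz5 : z4 ≤ z (Φ ξ) := hz4
        have hq5 : q4 ≤ q3 := hq4
        obtain ⟨v', h3, h4⟩ := H0.agr_ext g1 v q3 q4 (H0.agr_symm h2) hq5
        exact ⟨g4, c4, v', hg4, hc4, h3, j, z4, q4, hz5, hq5.trans h1,
          H0.agr_symm h4, hj⟩)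
  have hΦne : Φ ξ ≠ Φ η := fun h => hne (Φ.injective h)
  obtain ⟨m, hmne⟩ := Function.ne_iff.1 hΦne
  have htr : tr (Φ ξ) (m + 1) ≠ tr (Φ η) (m + 1) := fun h => hmne
    (congrFun h ⟨m, Nat.lt_succ_self m⟩)
  obtain ⟨g', c'', hg'', hc'', α, i, i', hα, hii, hBi, hBi'⟩ :=
    hn4 m (s m) _ _ htr g c hg' (hc'.trans (hco' (m + 1)))
  have hα' : α < (q F0).p.ht := by
    refine (hα.trans (hq2 (Φ ξ) (m + 1))).trans_le (hqle _ _)
  have e1 : za ≤ (a (Φ ξ) (m + 1)).1 := hza.trans (hz (Φ ξ) (m + 1))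
  have e2 : qa ≤ (a (Φ ξ) (m + 1)).2 := hqa.trans (hq'a (Φ ξ) (m + 1))
  have e3 : zb ≤ (a (Φ η) (m + 1)).1 := hzb.trans (hz (Φ η) (m + 1))
  have e4 : qb ≤ (a (Φ η) (m + 1)).2 := hqb.trans (hq'a (Φ η) (m + 1))
  have c1 := B.chain (g', c'', za, qa) _ _ _ _
    (B.mono (g', c'', a (Φ ξ) (m + 1)) _ _ _ ⟨le_rfl, le_rfl, e1, e2⟩ hBi)
    (B.mono (g, c, za, qa) _ _ _ ⟨hg'', hc'', le_rfl, le_rfl⟩ hBa) hα'
  have c2' := B.chain (g', c'', zb, qb) _ _ _ _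
    (B.mono (g', c'', a (Φ η) (m + 1)) _ _ _ ⟨le_rfl, le_rfl, e3, e4⟩ hBi')
    (B.mono (g, c, zb, qb) _ _ _ ⟨hg'', hc'', le_rfl, le_rfl⟩ hBb) hα'
  have hagr : AgrOn g1 qa qb := H0.agr_trans hqav (H0.agr_symm hqbv)
  have c3 : T.R (g', c'', qa.p) (α, i) ((q F0).p.ht, j) := c1
  have c4 : T.R (g', c'', qb.p) (α, i') ((q F0).p.ht, j) := c2'
  have hit : toIt (g', c'', za, qa) ≤ toIt (g', c'', zb, qb) :=
    ⟨le_rfl, le_rfl, hagr.ht.ge, fun b hb i x hx => hagr.t b (hb.trans hagr.ht.ge) i x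
      (Pts.cy_mono _ _ ((hg''.trans hg').trans hg) hx)⟩
  exact hii (T.uniq _ _ _ _ _ c3 (T.mono _ _ _ _ hit c4))

end

end CTF
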