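import Pool.Agent.Lib.CTF.HDefs

/-!
# The branch given by a name which is nowhere split
-/

namespace CTF

open Cardinal CAT9

section

variable {G0 X0 CC Z L M : Type} [LinearOrder L] [Preorder G0] [PtsD G0 X0] [Preorder CC]
  [Preorder Z] [hA : Amb L M]

variable {T : TreeName (It G0 X0 CC L M) L M} {r0 : G0 × CC × Z × Q2 G0 X0 L M}

/-- The value decided by some condition which looks like `r` at the points of `r`. -/
def BrK (B : BranchName (liftT Z T) r0) (g : G0) (c : CC) (z : Z) (q : Q2 G0 X0 L M)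
    (r : It G0 X0 CC L M) (α : L) (i : M) : Prop :=
  r.1 ≤ g ∧ r.2.1 ≤ c ∧ ∃ z' q', z' ≤ z ∧ q' ≤ q ∧ q'.p.ht = r.2.2.ht ∧
    (∀ a, a ≤ r.2.2.ht → ∀ k x, x ∈ On (X0 := X0) r.1 → q'.p.t a k x = r.2.2.t a k x) ∧
    B.B (r.1, r.2.1, z', q') α i

theorem BrK.mono {B : BranchName (liftT Z T) r0} {g : G0} {c : CC} {z : Z} {q : Q2 G0 X0 L M}
    {r s : It G0 X0 CC L M} {α : L} {i : M} (hle : s ≤ r) (h : BrK B g c z q r α i) :
    BrK B g c z q s α i := by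
  obtain ⟨hg, hc, z', q', hz, hq, h1, h2, hB⟩ := h
  obtain ⟨k1, k2, k3, k4⟩ := hle
  obtain ⟨q2, h3, h4, h5⟩ := transplant' s.1 q' s.2.2
    ⟨h1.trans_le k3, fun a ha k x hx => (k4 a (ha.trans_eq h1) k x hx).trans
      (h2 a (ha.trans_eq h1) k x (Pts.cy_mono _ _ k1 hx)).symm⟩
  exact ⟨k1.trans hg, k2.trans hc, z', q2, hz, h3.trans hq, h4, fun a _ k x hx => h5 a k x hx,
    B.mono (r.1, r.2.1, z', q') (s.1, s.2.1, z', q2) _ _ ⟨k1, k2, le_rfl, h3⟩ hB⟩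

theorem BrK.uniq {B : BranchName (liftT Z T) r0} {g : G0} {c : CC} {z : Z} {q : Q2 G0 X0 L M}
    (hS : ¬ SplitK B g c z q Set.univ) {r : It G0 X0 CC L M} {α : L} {i j : M}
    (h : BrK B g c z q r α i) (h' : BrK B g c z q r α j) : i = j := by
  obtain ⟨hg, hc, z1, q1, hz1, hq1, e1, f1, B1⟩ := h
  obtain ⟨-, -, z2, q2, hz2, hq2, e2, f2, B2⟩ := h'
  by_contra hcon
  exact hS ⟨r.1, r.2.1, z1, z2, q1, q2, hg, hc, hz1, hz2, hq1, hq2, e1.trans e2.symm,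
    fun a ha k x hx => (f1 a (ha.trans_eq e1) k x hx).trans (f2 a (ha.trans_eq e1) k x hx).symm,
    fun x _ hx => absurd (Set.mem_univ x) hx, α, i, j, hcon, B1, B2⟩

theorem branch_of_not_splitK (B : BranchName (liftT Z T) r0) {g : G0} {c : CC} {z : Z}
    {q : Q2 G0 X0 L M} (hle : (g, c, z, q) ≤ r0) (h : ¬ SplitK B g c z q Set.univ) :
    Nonempty (BranchName T (toIt (g, c, z, q))) := by
  refine ⟨⟨BrK B g c z q, fun r s α i hsr hB => BrK.mono hsr hB,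
    fun r α i j h1 h2 => BrK.uniq h h1 h2, ?_, ?_⟩⟩
  · rintro ⟨g1, c1, p1⟩ ⟨k1, k2, k3⟩ α
    obtain ⟨q2, h1, h2, h3⟩ := transplant' g1 q p1 k3
    have hle2 : (g1, c1, z, q2) ≤ (g, c, z, q) := ⟨k1, k2, le_rfl, h1⟩
    obtain ⟨⟨g3, c3, z3, q3⟩, ⟨l1, l2, l3, l4⟩, i, hB⟩ := B.total _ (hle2.trans hle) α
    refine ⟨(g3, c3, q3.p), ⟨l1, l2, h2.symm.trans_le l4.1.1, fun a ha k x hx => ?_⟩, i,
      LE.le.trans l1 k1, LE.le.trans l2 k2, z3, q3, l3, l4.trans h1, rfl, fun a _ k x _ => rfl, hB⟩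
    exact (congrFun (congrFun (l4.1.2 a (ha.trans_eq h2.symm)) k) x).trans
      (h3 a k x (Pts.cy_mono _ _ l1 hx))
  · rintro r a b i j Ba Bb hab
    refine T.dense _ _ _ fun r' hr' => ?_
    obtain ⟨hg, hc, z1, q1, hz1, hq1, e1, f1, B1⟩ := BrK.mono hr' Ba
    have hle2 : (r'.1, r'.2.1, z1, q1) ≤ (g, c, z, q) := ⟨hg, hc, hz1, hq1⟩
    obtain ⟨⟨g4, c4, z4, q4⟩, hl, j', B4⟩ := B.total _ (hle2.trans hle) b
    obtain ⟨l1, l2, l3, l4⟩ := hl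
    have hs : (toIt (g4, c4, z4, q4) : It G0 X0 CC L M) ≤ r' := by
      refine ⟨l1, l2, e1.symm.trans_le l4.1.1, fun a ha k x hx => ?_⟩
      exact (congrFun (congrFun (l4.1.2 a (ha.trans_eq e1.symm)) k) x).trans
        (f1 a ha k x (Pts.cy_mono _ _ l1 hx))
    have h5 : BrK B g c z q (toIt (g4, c4, z4, q4)) b j' :=
      ⟨LE.le.trans l1 hg, LE.le.trans l2 hc, z4, q4, LE.le.trans l3 hz1, l4.trans hq1, rfl,
        fun a _ k x _ => rfl, B4⟩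
    have h6 : BrK B g c z q (toIt (g4, c4, z4, q4)) b j := BrK.mono (hs.trans hr') Bb
    have ejj : j' = j := BrK.uniq h h5 h6
    subst ejj
    exact ⟨toIt (g4, c4, z4, q4), hs,
      B.chain (g4, c4, z4, q4) a b i j' (B.mono (r'.1, r'.2.1, z1, q1) (g4, c4, z4, q4) _ _
        ⟨l1, l2, l3, l4⟩ B1) B4 hab⟩

end

end CTF
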