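import Pool.Agent.Lib.CTF.T2

/-!
# Splitting by names only
-/

namespace CTF

open Cardinal CAT9

section

variable {G0 X0 CC Z L M : Type} [LinearOrder L] [Preorder G0] [PtsD G0 X0] [Preorder CC]
  [Preorder Z] [hA : Amb L M]

variable {T : TreeName (It G0 X0 CC L M) L M} {r0 : G0 × CC × Z × Q2 G0 X0 L M}

theorem splitN_of_splitK (B : BranchName (liftT Z T) r0) {g0 : G0} {c0 : CC} {z0 : Z}
    {q0 : Q2 G0 X0 L M} (hle : (g0, c0, z0, q0) ≤ r0)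
    (hNS : ∀ g1 g c, g ≤ g1 → g ≤ g0 → c ≤ c0 → ∃ g' c', g' ≤ g ∧ c' ≤ c ∧
      ¬ Split1 B g1 g' c' z0 q0) {g : G0} {c : CC} {z : Z} {q : Q2 G0 X0 L M} (hg : g ≤ g0)
    (hc : c ≤ c0) (hz : z ≤ z0) (hq : q ≤ q0) {C : Set (X0 × (ℕ → Bool))}
    (h : SplitK B g c z q C) : SplitN B g c z q C := by
  classical
  obtain ⟨g1, c1, z1, z2, q1, q2, hg1, hc1, hz1, hz2, hq1, hq2, hht, ht, hy, α, i0, i1, hne,
    b0, b1⟩ := h
  obtain ⟨g2, c2, hg2, hc2, hns⟩ := hNS g1 g1 c1 le_rfl (hg1.trans hg) (hc1.trans hc)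
  have hOn := on_clop (X0 := X0) g1
  -- the second condition, with the first one off `g1`
  let y2 : Nm (X0 × (ℕ → Bool)) L := mix (On g1) (q1.y ()) (q2.y ())
  have m2 : LocIn (G0 × AddOmega) q1.p.t q1.p.ht y2 := by
    refine LocIn.ofLocal fun f => ?_
    obtain ⟨f2, hf2, hc2 | hc2⟩ := hOn f
    · obtain ⟨f3, hf3, i, hi⟩ := q2.mem () f2
      refine ⟨f3, hf3.trans hf2, q1.p.t q1.p.ht i, ?_, fun x hx ξ hξ => ?_⟩
      · have := Amb.neM L hA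
        exact LocIn.self _ _ _ _
      · have hxOn : x ∈ On (X0 := X0) g1 := hc2 (Pts.cy_mono _ _ hf3 hx)
        change mix (On g1) (q1.y ()) (q2.y ()) x ξ = _
        rw [mix_pos hxOn, hi x hx ξ (hht ▸ hξ), ← hht, ← congrFun (ht q1.p.ht le_rfl i x hxOn) ξ]
    · exact ⟨f2, hf2, q1.y (), q1.mem (), fun x hx ξ _ => mix_neg (hc2 x hx) ξ⟩
  have hq1' := QQ.le_iff.1 hq1
  have hq2' := QQ.le_iff.1 hq2
  have l2 : mkQ q1.p y2 m2 ≤ q := by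
    refine QQ.le_iff.2 ⟨hq1.1, fun x ξ hξ => ?_⟩
    change mix (On g1) (q1.y ()) (q2.y ()) x ξ = q.y () x ξ
    by_cases hx : x ∈ On (X0 := X0) g1
    · rw [mix_pos hx]; exact hq2'.2 x ξ hξ
    · rw [mix_neg hx]; exact hq1'.2 x ξ hξ
  have hle2 : (g2, c2, z1, mkQ q1.p y2 m2) ≤ (g0, c0, z0, q0) :=
    ⟨hg2.trans (hg1.trans hg), hc2.trans (hc1.trans hc), hz1.trans hz, l2.trans hq⟩
  obtain ⟨⟨g3, c3, z3, q3⟩, ⟨hg3, hc3, hz3, hq3⟩, i, b2⟩ := B.total _ (hle2.trans hle) α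
  have hq3' := QQ.le_iff.1 hq3
  have hq3p : q3.p ≤ q1.p := hq3.1
  -- `i = i1`
  have hagr : AgrOn g1 q2 (mkQ q1.p y2 m2) := by
    refine ⟨hht.symm, fun a ha j x hx => (ht a (hht.symm ▸ ha) j x hx).symm, fun x hx ξ _ => ?_⟩
    exact (mix_pos hx ξ).symm
  obtain ⟨q2', k1, k2⟩ := agr_extend g1 q2 (mkQ q1.p y2 m2) q3 hagr hq3
  have b1' : B.B (g3, c3, z2, q2') α i1 :=
    B.mono _ _ _ _ (show (g3, c3, z2, q2') ≤ (g1, c1, z2, q2) from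
      ⟨hg3.trans hg2, hc3.trans hc2, le_rfl, k1⟩) b1
  have hi : i = i1 := by
    by_contra hcon
    refine hns ⟨g3, c3, z2, z3, q2', q3, hg3, hc3, hz2.trans hz, hz3.trans (hz1.trans hz),
      k1.trans (hq2.trans hq), hq3.trans (l2.trans hq), k2, α, i1, i, fun h => hcon h.symm, b1',
      b2⟩
  subst hi
  -- the final pair
  have n0 : LocIn (G0 × AddOmega) q3.p.t q3.p.ht (repl q1.p.ht (q1.y ()) (q3.y ())) :=
    q3.p.sys.repl' hq3p.1 (Set.mem_Iic.2 le_rfl) (Cond.locin_mono hq3p le_rfl (q1.mem ()))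
      (q3.mem ())
  have k0 : mkQ q3.p (repl q1.p.ht (q1.y ()) (q3.y ())) n0 ≤ q1 :=
    QQ.le_iff.2 ⟨hq3p, fun x ξ hξ => repl_lt hξ⟩
  have b0' : B.B (g3, c3, z3, mkQ q3.p (repl q1.p.ht (q1.y ()) (q3.y ())) n0) α i0 :=
    B.mono _ _ _ _ (show (g3, c3, z3, mkQ q3.p (repl q1.p.ht (q1.y ()) (q3.y ())) n0) ≤
      (g1, c1, z1, q1) from ⟨hg3.trans hg2, hc3.trans hc2, hz3, k0⟩) b0
  have ks : mkQ q3.p (q3.y ()) (q3.mem ()) ≤ q3 := mkQ_self_le q3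
  refine ⟨g3, c3, z3, q3.p, _, q3.y (), n0, q3.mem (), hg3.trans (hg2.trans hg1),
    hc3.trans (hc2.trans hc1), hz3.trans hz1, k0.trans hq1, ks.trans (hq3.trans l2), ?_, α, i0,
    i, hne, b0', B.mono _ _ _ _ (show (g3, c3, z3, mkQ q3.p (q3.y ()) (q3.mem ())) ≤
      (g3, c3, z3, q3) from ⟨le_rfl, le_rfl, le_rfl, ks⟩) b2⟩
  intro x hxC ξ hξ
  rcases lt_or_ge ξ q1.p.ht with h | h
  · rw [repl_lt h]
    have e : q3.y () x ξ = y2 x ξ := hq3'.2 x ξ h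
    rw [e]
    change _ = mix (On g1) (q1.y ()) (q2.y ()) x ξ
    by_cases hx : x ∈ On (X0 := X0) g1
    · rw [mix_pos hx]
      exact hy x hx hxC ξ h
    · rw [mix_neg hx]
  · rw [repl_ge h]

end

end CTF
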