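import Pool.Agent.Lib.CTF.RG
import Pool.Agent.Lib.CAT9.Final

/-!
# The descent: a branch which can always be split by names gives too many nodes on a level
-/

namespace CTF

open Cardinal CAT9

namespace HSAux

/-- The product of directed closed forcing notions. -/
theorem prod_closed {μ : Cardinal.{0}} {P Q : Type} [Preorder P] [Preorder Q]
    (hP : DirectedClosed μ P) (hQ : DirectedClosed μ Q) : DirectedClosed μ (P × Q) := by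
  intro S hS hd
  obtain ⟨z, hz⟩ := hP (Prod.fst '' S) (Cardinal.mk_image_le.trans hS) (by
    rintro _ ⟨a, ha, rfl⟩ _ ⟨b, hb, rfl⟩
    obtain ⟨c, hc, h1, h2⟩ := hd a ha b hb
    exact ⟨c.1, ⟨c, hc, rfl⟩, h1.1, h2.1⟩)
  obtain ⟨q, hq⟩ := hQ (Prod.snd '' S) (Cardinal.mk_image_le.trans hS) (by
    rintro _ ⟨a, ha, rfl⟩ _ ⟨b, hb, rfl⟩
    obtain ⟨c, hc, h1, h2⟩ := hd a ha b hb
    exact ⟨c.2, ⟨c, hc, rfl⟩, h1.2, h2.2⟩)
  exact ⟨(z, q), fun s hs => ⟨hz _ ⟨s, hs, rfl⟩, hq _ ⟨s, hs, rfl⟩⟩⟩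

/-- A place at which a condition can be changed. -/
theorem add_off' (f : AddOmega) : ∃ m : ℕ, ∀ s : ℕ → Bool,
    ∃ g : AddOmega, g ≤ f ∧ ∀ c ∈ Pts.cy (X := ℕ → Bool) g, c m ≠ s m := by
  obtain ⟨m, hm⟩ : ∃ m, f.1 m = none := by
    obtain ⟨m, hm⟩ := f.2.exists_notMem
    exact ⟨m, by simpa using hm⟩
  refine ⟨m, fun s => ⟨⟨fun k => if k = m then some (!(s m)) else f.1 k, ?_⟩, ?_, ?_⟩⟩
  · refine (f.2.union (Set.finite_singleton m)).subset fun k hk => ?_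
    by_cases h : k = m
    · exact Or.inr h
    · simp only [Set.mem_ofPred_eq, h, if_false] at hk
      exact Or.inl hk
  · intro n b hb
    have hne : n ≠ m := by
      rintro rfl
      rw [hm] at hb
      exact absurd hb (by simp)
    change (if n = m then some (!(s m)) else f.1 n) = some b
    rw [if_neg hne, hb]
  · intro c hc hcon
    have h1 : c m = !(s m) := hc m _ (by simp)
    rw [h1] at hcon
    exact absurd hcon (by cases s m <;> simp)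

section

variable {G0 X0 CC Z L M : Type} [LinearOrder L] [Preorder G0] [PtsD G0 X0] [Preorder CC]
  [Preorder Z]

/-- Families indexed by eventually constant sequences. -/
abbrev FH (G0 X0 L M : Type) [LinearOrder L] [Preorder G0] [PtsD G0 X0] (m0 : M)
    (A : Seq0 M m0 → Seq0 M m0 → Set (X0 × (ℕ → Bool))) : Type :=
  Fam (G0 × AddOmega) L M (X0 × (ℕ → Bool)) (Seq0 M m0) A

/-- A member of a family as a condition. -/
def atH {m0 : M} {A : Seq0 M m0 → Seq0 M m0 → Set (X0 × (ℕ → Bool))} (s : FH G0 X0 L M m0 A)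
    (j : Seq0 M m0) : Q2 G0 X0 L M := mkQ s.p (s.y j) (s.mem j)

theorem atH_mono {m0 : M} {A : Seq0 M m0 → Seq0 M m0 → Set (X0 × (ℕ → Bool))}
    {s s' : FH G0 X0 L M m0 A} (h : s' ≤ s) (j : Seq0 M m0) : atH s' j ≤ atH s j :=
  mkQ_le h.1 fun c ξ hξ => h.2.1 j c ξ hξ

/-- The points at which agreement is kept in stage `m`. -/
def AH (x : X0 → ℕ → Bool) {m0 : M} (m : ℕ) (f g : Seq0 M m0) : Set (X0 × (ℕ → Bool)) :=
  {c | Agr (m + 1) f g ∨ c ∉ CX x m}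

/-- Change the type of a family. -/
def castH {m0 : M} {A : Seq0 M m0 → Seq0 M m0 → Set (X0 × (ℕ → Bool))} (s : FH G0 X0 L M m0 A)
    (A' : Seq0 M m0 → Seq0 M m0 → Set (X0 × (ℕ → Bool))) : FH G0 X0 L M m0 A' := ⟨s.p, s.y, s.mem⟩

variable [hA : Amb L M]

variable {T : TreeName (It G0 X0 CC L M) L M} {r0 : G0 × CC × Z × Q2 G0 X0 L M}

/-- The members `f` and `g` of the family decide the branch differently, below the height. -/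
def Dif (B : BranchName (liftT Z T) r0) {m0 : M}
    {A : Seq0 M m0 → Seq0 M m0 → Set (X0 × (ℕ → Bool))} (f g : Seq0 M m0) (g' : G0) (c' : CC)
    (z : Z) (s : FH G0 X0 L M m0 A) : Prop :=
  ∃ α i i', α < s.p.ht ∧ i ≠ i' ∧ B.B (g', c', z, atH s f) α i ∧ B.B (g', c', z, atH s g) α i'

theorem Dif.mono {B : BranchName (liftT Z T) r0} {m0 : M}
    {A : Seq0 M m0 → Seq0 M m0 → Set (X0 × (ℕ → Bool))} {f g : Seq0 M m0} {g1 g2 : G0}
    {c1 c2 : CC} {z1 z2 : Z} {s1 s2 : FH G0 X0 L M m0 A} (hg : g2 ≤ g1) (hc : c2 ≤ c1)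
    (hz : z2 ≤ z1) (hs : s2 ≤ s1) (h : Dif B f g g1 c1 z1 s1) : Dif B f g g2 c2 z2 s2 := by
  obtain ⟨α, i, i', h1, h2, h3, h4⟩ := h
  exact ⟨α, i, i', h1.trans_le hs.1.1, h2,
    B.mono (g1, c1, z1, atH s1 f) (g2, c2, z2, atH s2 f) _ _ ⟨hg, hc, hz, atH_mono hs f⟩ h3,
    B.mono (g1, c1, z1, atH s1 g) (g2, c2, z2, atH s2 g) _ _ ⟨hg, hc, hz, atH_mono hs g⟩ h4⟩

/-- The invariants at the start of stage `m`. -/
structure InvH (B : BranchName (liftT Z T) r0) (g0 : G0) (q0 : Q2 G0 X0 L M) {m0 : M} (m : ℕ)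
    (c : CC) (z : Z) (s : FH G0 X0 L M m0 (fun _ _ => ∅)) : Prop where
  le : ∀ j, atH s j ≤ q0
  agr : ∀ f g, Agr m f g → ∀ c ξ, ξ < s.p.ht → s.y f c ξ = s.y g c ξ
  dif : ∀ f g, ¬ Agr m f g → ∀ g1 c1, g1 ≤ g0 → c1 ≤ c → ∃ g' c', g' ≤ g1 ∧ c' ≤ c1 ∧
    Dif B f g g' c' z s

theorem dense_taskH (B : BranchName (liftT Z T) r0) {g0 : G0} {c0 : CC} {z0 : Z}
    {q0 : Q2 G0 X0 L M} (hle : (g0, c0, z0, q0) ≤ r0) {x : X0 → ℕ → Bool}
    (h : ∀ m g c z q, g ≤ g0 → c ≤ c0 → z ≤ z0 → q ≤ q0 → SplitN B g c z q (CX x m))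
    {m0 : M} (m : ℕ) (f g : Seq0 M m0) (hfg : ¬ Agr (m + 1) f g) (g1 : G0) (c1 : CC) (z1 : Z)
    (u : FH G0 X0 L M m0 (AH x m)) (hg1 : g1 ≤ g0) (hc1 : c1 ≤ c0) (hz1 : z1 ≤ z0)
    (hu : atH u f ≤ q0) (hu' : atH u g ≤ q0) :
    ∃ g' c' z' u', g' ≤ g1 ∧ c' ≤ c1 ∧ z' ≤ z1 ∧ u' ≤ u ∧ Dif B f g g' c' z' u' := by
  classical
  obtain ⟨g2, c2, z2, p', y0, y1, m0', m1', hg2, hc2, hz2, l0, l1, heq, α, i0, i1, hne, b0, b1⟩ :=
    h m g1 c1 z1 _ hg1 hc1 hz1 hu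
  have hpu : p' ≤ u.p := l0.1
  have l0' := QQ.le_iff.1 l0
  have l1' := QQ.le_iff.1 l1
  -- extend the name for `g`
  have mz : LocIn (G0 × AddOmega) p'.t p'.ht (repl u.p.ht (u.y g) y0) :=
    p'.sys.repl' hpu.1 (Set.mem_Iic.2 le_rfl) (Cond.locin_mono hpu le_rfl (u.mem g)) m0'
  have lz : mkQ p' (repl u.p.ht (u.y g) y0) mz ≤ atH u g :=
    mkQ_le hpu fun c ξ hξ => repl_lt hξ
  have hle2 : (g2, c2, z2, mkQ p' (repl u.p.ht (u.y g) y0) mz) ≤ r0 :=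
    le_trans ⟨hg2.trans hg1, hc2.trans hc1, hz2.trans hz1, lz.trans hu'⟩ hle
  obtain ⟨⟨g3, c3, z3, q⟩, ⟨k1, k2, k3, hq⟩, i', b'⟩ := B.total _ hle2 α
  replace k1 : g3 ≤ g2 := k1
  replace k2 : c3 ≤ c2 := k2
  replace k3 : z3 ≤ z2 := k3
  replace hq : q ≤ mkQ p' (repl u.p.ht (u.y g) y0) mz := hq
  have hq' := QQ.le_iff.1 hq
  have hqp : q.p ≤ p' := hq.1
  have hqu : q.p ≤ u.p := LE.le.trans hqp hpu
  obtain ⟨yb, ib, mb, hib, lb, bb, hbeq⟩ : ∃ (yb : Nm (X0 × (ℕ → Bool)) L) (ib : M)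
      (mb : LocIn (G0 × AddOmega) p'.t p'.ht yb), ib ≠ i' ∧ mkQ p' yb mb ≤ atH u f ∧
      B.B (g2, c2, z2, mkQ p' yb mb) α ib ∧
      ∀ c, c ∉ CX x m → ∀ ξ, ξ < p'.ht → yb c ξ = y0 c ξ := by
    by_cases h : i0 = i'
    · exact ⟨y1, i1, m1', fun h1 => hne (h.trans h1.symm), l1, b1,
        fun c hc ξ hξ => (heq c hc ξ hξ).symm⟩
    · exact ⟨y0, i0, m0', h, l0, b0, fun c hc ξ hξ => rfl⟩
  have lb' := QQ.le_iff.1 lb
  set z := q.y () with hz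
  let wb : Nm (X0 × (ℕ → Bool)) L := repl p'.ht yb z
  let w : Nm (X0 × (ℕ → Bool)) L := repl p'.ht y0 z
  have mwb : LocIn (G0 × AddOmega) q.p.t q.p.ht wb :=
    q.p.sys.repl' hqp.1 (Set.mem_Iic.2 le_rfl) (Cond.locin_mono hqp le_rfl mb) (q.mem ())
  have mw : LocIn (G0 × AddOmega) q.p.t q.p.ht w :=
    q.p.sys.repl' hqp.1 (Set.mem_Iic.2 le_rfl) (Cond.locin_mono hqp le_rfl m0') (q.mem ())
  let W : Seq0 M m0 → Nm (X0 × (ℕ → Bool)) L := fun h => if Agr (m + 1) h f then wb else w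
  have mW : ∀ h, LocIn (G0 × AddOmega) q.p.t q.p.ht (W h) := by
    intro h
    by_cases hh : Agr (m + 1) h f
    · simp only [W, hh, if_true]; exact mwb
    · simp only [W, hh, if_false]; exact mw
  let u' : FH G0 X0 L M m0 (AH x m) := ⟨q.p, fun h => repl u.p.ht (u.y h) (W h), fun h =>
    q.p.sys.repl' hqu.1 (Set.mem_Iic.2 le_rfl) (Cond.locin_mono hqu le_rfl (u.mem h)) (mW h)⟩
  have hWf : W f = wb := by
    have : Agr (m + 1) f f := fun k _ => rfl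
    simp only [W, this, if_true]
  have hWg : W g = w := by
    have : ¬ Agr (m + 1) g f := fun h => hfg fun k hk => (h k hk).symm
    simp only [W, this, if_false]
  have hu'u : u' ≤ u := by
    refine ⟨hqu, fun j c ξ hξ => repl_lt hξ, ?_⟩
    intro j k c hc hjk ξ hξ
    change repl u.p.ht (u.y j) (W j) c ξ = repl u.p.ht (u.y k) (W k) c ξ
    rcases lt_or_ge ξ u.p.ht with h | h
    · rw [repl_lt h, repl_lt h, hjk ξ h]
    · rw [repl_ge h, repl_ge h]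
      rcases hc with hc | hc
      · have : Agr (m + 1) j f ↔ Agr (m + 1) k f :=
          ⟨fun h' l hl => (hc l hl).symm.trans (h' l hl), fun h' l hl => (hc l hl).trans (h' l hl)⟩
        simp only [W, this]
      · have hww : wb c ξ = w c ξ := by
          change repl p'.ht yb z c ξ = repl p'.ht y0 z c ξ
          rcases lt_or_ge ξ p'.ht with h' | h'
          · rw [repl_lt h', repl_lt h', hbeq c hc ξ h']
          · rw [repl_ge h', repl_ge h']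
        have hWW : ∀ l, W l c ξ = w c ξ := by
          intro l
          by_cases hl : Agr (m + 1) l f
          · simp only [W, hl, if_true]; exact hww
          · simp only [W, hl, if_false]
        rw [hWW, hWW]
  have hBf : B.B (g3, c3, z3, atH u' f) α ib := by
    refine B.mono (g2, c2, z2, mkQ p' yb mb) _ _ _ ⟨k1, k2, k3, ?_⟩ bb
    refine mkQ_le hqp fun c ξ hξ => ?_
    change repl u.p.ht (u.y f) (W f) c ξ = yb c ξ
    rw [hWf]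
    rcases lt_or_ge ξ u.p.ht with h | h
    · rw [repl_lt h]
      exact (lb'.2 c ξ h).symm
    · rw [repl_ge h]
      exact repl_lt hξ
  have hBg : B.B (g3, c3, z3, atH u' g) α i' := by
    refine B.mono (g3, c3, z3, q) _ _ _ ⟨le_rfl, le_rfl, le_rfl, ?_⟩ b'
    refine QQ.le_iff.2 ⟨le_rfl, fun c ξ hξ => ?_⟩
    change repl u.p.ht (u.y g) (W g) c ξ = z c ξ
    have hzz : ∀ ξ, ξ < p'.ht → z c ξ = repl u.p.ht (u.y g) y0 c ξ :=
      fun ξ hξ => hq'.2 c ξ hξ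
    rw [hWg]
    rcases lt_or_ge ξ p'.ht with h' | h'
    · rw [hzz ξ h']
      rcases lt_or_ge ξ u.p.ht with h | h
      · rw [repl_lt h, repl_lt h]
      · rw [repl_ge h, repl_ge h]
        exact repl_lt h'
    · rw [repl_ge (hpu.1.trans h')]
      exact repl_ge h'
  -- make the height larger than `α`
  obtain ⟨p2, hp2, hα⟩ := cond_ht_dense α u'.p
  obtain ⟨p3, hp3, hlt⟩ := succ_ext p2
  obtain ⟨w3, hw3⟩ := exists_mem p3
  have hext := u'.ext_le p3 (LE.le.trans hp3 hp2) w3 hw3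
  refine ⟨g3, c3, z3, u'.ext p3 (LE.le.trans hp3 hp2) w3 hw3, k1.trans hg2, k2.trans hc2,
    k3.trans hz2, hext.trans hu'u, α, ib, i', hα.trans_lt hlt, hib, ?_, ?_⟩
  · exact B.mono (g3, c3, z3, atH u' f) _ _ _ ⟨le_rfl, le_rfl, le_rfl, atH_mono hext f⟩ hBf
  · exact B.mono (g3, c3, z3, atH u' g) _ _ _ ⟨le_rfl, le_rfl, le_rfl, atH_mono hext g⟩ hBg

theorem stageH (hF : Fus G0 CC M) (cZ : DirectedClosed #M Z) (B : BranchName (liftT Z T) r0)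
    {g0 : G0} {c0 : CC} {z0 : Z} {q0 : Q2 G0 X0 L M} (hle : (g0, c0, z0, q0) ≤ r0)
    {x : X0 → ℕ → Bool}
    (h : ∀ m g c z q, g ≤ g0 → c ≤ c0 → z ≤ z0 → q ≤ q0 → SplitN B g c z q (CX x m))
    {m0 : M} (m : ℕ) (c : CC) (z : Z) (s : FH G0 X0 L M m0 (fun _ _ => ∅)) (hc : c ≤ c0)
    (hz : z ≤ z0) (hs : InvH B g0 q0 m c z s) :
    ∃ c' z', ∃ s' : FH G0 X0 L M m0 (fun _ _ => ∅), c' ≤ c ∧ z' ≤ z ∧
      InvH B g0 q0 (m + 1) c' z' s' ∧ s' ≤ s ∧ s.p.ht < s'.p.ht ∧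
      ∀ f g, ∀ y ∈ AH x m f g, (∀ ξ, ξ < s.p.ht → s.y f y ξ = s.y g y ξ) →
        ∀ ξ, ξ < s'.p.ht → s'.y f y ξ = s'.y g y ξ := by
  classical
  have hJ : #(Seq0 M m0) ≤ #M := mk_seq0_le m0 (hA.inf (L := L))
  have : Nonempty (Seq0 M m0) := ⟨⟨fun _ => m0, 0, fun _ _ => rfl⟩⟩
  let K : Type := {fg : Seq0 M m0 × Seq0 M m0 // Agr m fg.1 fg.2 ∧ ¬ Agr (m + 1) fg.1 fg.2}
  have hK : #K ≤ #M := by
    refine (Cardinal.mk_subtype_le _).trans ?_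
    simp only [Cardinal.mk_prod, Cardinal.lift_id]
    exact (mul_le_mul' hJ hJ).trans (Cardinal.mul_eq_self (hA.inf (L := L))).le
  have cF : DirectedClosed #M (FH G0 X0 L M m0 (AH x m)) :=
    fam_closed (G := G0 × AddOmega) (X := X0 × (ℕ → Bool)) (L := L) (M := M) hJ (AH x m)
  obtain ⟨c1, ⟨z1, u⟩, hc1, ⟨hz1, hu⟩, Val, -, hV⟩ :=
    hF (Z × FH G0 X0 L M m0 (AH x m)) (prod_closed cZ cF) K Unit hK
    (fun fg _ g' c' t => Dif B fg.1.1 fg.1.2 g' c' t.1 t.2)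
    (by
      rintro fg - g1 c1 ⟨z1, u1⟩ g2 c2 ⟨z2, u2⟩ h1 h2 ⟨h3, h4⟩ h5
      exact h5.mono h1 h2 h3 h4)
    g0 c (z, castH s (AH x m))
    (by
      rintro fg g1 c1 ⟨z1, u1⟩ h1 h2 ⟨h3, h4⟩
      obtain ⟨g', c', z', u', e1, e2, e3, e4, e5⟩ := dense_taskH B hle h m fg.1.1 fg.1.2 fg.2.2
        g1 c1 z1 u1 h1 (h2.trans hc) (h3.trans hz) ((atH_mono h4 _).trans (hs.le _))
        ((atH_mono h4 _).trans (hs.le _))
      exact ⟨g', c', (z', u'), e1, e2, ⟨e3, e4⟩, (), e5⟩)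
  replace hz1 : z1 ≤ z := hz1
  replace hu : u ≤ castH s (AH x m) := hu
  obtain ⟨p', hp', hlt⟩ := succ_ext u.p
  obtain ⟨w, hw⟩ := exists_mem p'
  have hext := u.ext_le p' hp' w hw
  have hv := hext.trans hu
  set v : FH G0 X0 L M m0 (AH x m) := u.ext p' hp' w hw with hvdef
  have hvs : ∀ j, atH v j ≤ atH s j := fun j => atH_mono hv j
  refine ⟨c1, z1, castH v _, hc1, hz1, ⟨fun j => (hvs j).trans (hs.le j), ?_, ?_⟩,
    ⟨hv.1, hv.2.1, ?_⟩, ?_, ?_⟩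
  · intro f g hfg y ξ hξ
    exact hv.2.2 f g y (Or.inl hfg) (fun ξ hξ => hs.agr f g
      (fun k hk => hfg k (hk.trans (Nat.lt_succ_self m))) y ξ hξ) ξ hξ
  · intro f g hfg g1 c2 hg1 hc2
    by_cases h : Agr m f g
    · obtain ⟨g', c', h1, h2, _, -, h3⟩ := hV ⟨(f, g), h, hfg⟩ g1 c2 hg1 hc2
      have h4 : Dif B f g g' c' z1 v :=
        Dif.mono (s1 := u) (s2 := v) le_rfl le_rfl le_rfl hext h3
      exact ⟨g', c', h1, h2, h4⟩
    · obtain ⟨g', c', h1, h2, α, i, i', e0, hne, e1, e2⟩ := hs.dif f g h g1 c2 hg1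
        (hc2.trans hc1)
      exact ⟨g', c', h1, h2, α, i, i', e0.trans_le hv.1.1, hne,
        B.mono (g', c', z, atH s f) _ _ _ ⟨le_rfl, le_rfl, hz1, hvs f⟩ e1,
        B.mono (g', c', z, atH s g) _ _ _ ⟨le_rfl, le_rfl, hz1, hvs g⟩ e2⟩
  · intro j k y hy
    exact absurd hy (Set.notMem_empty y)
  · exact hu.1.1.trans_lt hlt
  · intro f g y hy h
    exact hv.2.2 f g y hy h

end

end HSAux

open HSAux

section

variable {G0 X0 CC Z L M : Type} [LinearOrder L] [Preorder G0] [PtsD G0 X0] [Preorder CC]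
  [Preorder Z] [hA : Amb L M]

variable {T : TreeName (It G0 X0 CC L M) L M} {r0 : G0 × CC × Z × Q2 G0 X0 L M}

theorem no_splittingN (hF : Fus G0 CC M) (hLM : #L ≤ #(ℕ → M)) (cC : DirectedClosed ℵ₀ CC)
    (cZ : DirectedClosed #M Z) (B : BranchName (liftT Z T) r0) {g0 : G0} {c0 : CC} {z0 : Z}
    {q0 : Q2 G0 X0 L M} (hle : (g0, c0, z0, q0) ≤ r0) {x : X0 → ℕ → Bool} (hx : LocX G0 x)
    (h : ∀ m g c z q, g ≤ g0 → c ≤ c0 → z ≤ z0 → q ≤ q0 → SplitN B g c z q (CX x m)) :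
    False := by
  classical
  have := hA.wf
  obtain ⟨m0⟩ := Amb.neM L hA
  have hJ : #(Seq0 M m0) ≤ #M := mk_seq0_le m0 (hA.inf (L := L))
  have hJne : Nonempty (Seq0 M m0) := ⟨⟨fun _ => m0, 0, fun _ _ => rfl⟩⟩
  -- the sequence of families
  let S : ℕ → Type := fun m => {t : CC × Z × FH G0 X0 L M m0 (fun _ _ => ∅) //
    t.1 ≤ c0 ∧ t.2.1 ≤ z0 ∧ InvH B g0 q0 m t.1 t.2.1 t.2.2}
  have hst : ∀ m (s : S m), ∃ s' : S (m + 1), s'.1.1 ≤ s.1.1 ∧ s'.1.2.1 ≤ s.1.2.1 ∧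
      s'.1.2.2 ≤ s.1.2.2 ∧ s.1.2.2.p.ht < s'.1.2.2.p.ht ∧
      ∀ f g, ∀ y ∈ AH x m f g, (∀ ξ, ξ < s.1.2.2.p.ht → s.1.2.2.y f y ξ = s.1.2.2.y g y ξ) →
        ∀ ξ, ξ < s'.1.2.2.p.ht → s'.1.2.2.y f y ξ = s'.1.2.2.y g y ξ := by
    rintro m ⟨⟨c, z, s⟩, h1, h2, hs⟩
    obtain ⟨c', z', s', e1, e2, e3, e4⟩ := stageH hF cZ B hle h m c z s h1 h2 hs
    exact ⟨⟨(c', z', s'), e1.trans h1, e2.trans h2, e3⟩, e1, e2, e4⟩
  choose nx hn1 hn2 hn3 hn4 hn5 using hst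
  let s : ∀ m, S m := fun m => Nat.rec ⟨(c0, z0, ⟨q0.p, fun _ => q0.y (), fun _ => q0.mem ()⟩),
    le_rfl, le_rfl, ⟨fun _ => mkQ_self_le q0, fun _ _ _ _ _ _ => rfl,
      fun f g h => absurd (fun k hk => absurd hk (Nat.not_lt_zero k)) h⟩⟩ (fun m s => nx m s) m
  have hs : ∀ m, s (m + 1) = nx m (s m) := fun m => rfl
  have hantiC : Antitone fun m => (s m).1.1 :=
    antitone_nat_of_succ_le fun m => by
      rw [hs m]
      exact hn1 m (s m)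
  have hantiZ : Antitone fun m => (s m).1.2.1 :=
    antitone_nat_of_succ_le fun m => by
      rw [hs m]
      exact hn2 m (s m)
  have hanti : Antitone fun m => (s m).1.2.2 :=
    antitone_nat_of_succ_le fun m => by
      rw [hs m]
      exact hn3 m (s m)
  have hpat : ∀ m f g, ∀ y ∈ AH x m f g,
      (∀ ξ, ξ < (s m).1.2.2.p.ht → (s m).1.2.2.y f y ξ = (s m).1.2.2.y g y ξ) →
        ∀ ξ, ξ < (s (m + 1)).1.2.2.p.ht →
          (s (m + 1)).1.2.2.y f y ξ = (s (m + 1)).1.2.2.y g y ξ := by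
    intro m f g y hy h
    rw [hs m]
    exact hn5 m (s m) f g y hy h
  -- the limits
  obtain ⟨cω, hcω⟩ := cC (Set.range fun m => (s m).1.1)
    (Cardinal.mk_range_le.trans (le_of_eq Cardinal.mk_nat))
    (by
      rintro a ⟨m, rfl⟩ b ⟨n, rfl⟩
      exact ⟨_, ⟨max m n, rfl⟩, hantiC (le_max_left m n), hantiC (le_max_right m n)⟩)
  obtain ⟨zω, hzω⟩ := cZ (Set.range fun m => (s m).1.2.1)
    ((Cardinal.mk_range_le.trans (le_of_eq Cardinal.mk_nat)).trans (hA.inf (L := L)))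
    (by
      rintro a ⟨m, rfl⟩ b ⟨n, rfl⟩
      exact ⟨_, ⟨max m n, rfl⟩, hantiZ (le_max_left m n), hantiZ (le_max_right m n)⟩)
  have hc' : ∀ m, cω ≤ (s m).1.1 := fun m => hcω _ ⟨m, rfl⟩
  have hz' : ∀ m, zω ≤ (s m).1.2.1 := fun m => hzω _ ⟨m, rfl⟩
  obtain ⟨q, hq1, hq2, hq3, -⟩ := union_level hJ
    (Set.range fun m => (s m).1.2.2)
    ((Cardinal.mk_range_le.trans (le_of_eq Cardinal.mk_nat)).trans (hA.inf (L := L)))
    ⟨_, ⟨0, rfl⟩⟩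
    (by
      rintro a ⟨m, rfl⟩ b ⟨n, rfl⟩
      exact ⟨_, ⟨max m n, rfl⟩, hanti (le_max_left m n), hanti (le_max_right m n)⟩)
    (by
      rintro a ⟨m, rfl⟩
      exact ⟨_, ⟨m + 1, rfl⟩, hn4 m (s m)⟩)
  have hq : ∀ m, q ≤ (s m).1.2.2 := fun m => hq1 _ ⟨m, rfl⟩
  have hqlt : ∀ m, (s m).1.2.2.p.ht < q.p.ht := fun m => hq2 _ ⟨m, rfl⟩
  have hex : ∀ ξ, ξ < q.p.ht → ∃ m, ξ < (s m).1.2.2.p.ht := by
    intro ξ hξ
    obtain ⟨_, ⟨m, rfl⟩, hm⟩ := hq3 ξ hξ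
    exact ⟨m, hm⟩
  choose! ν hν using hex
  -- the names for arbitrary sequences
  let Y : (ℕ → M) → Nm (X0 × (ℕ → Bool)) L :=
    fun F c ξ => (s (ν ξ)).1.2.2.y (trunc m0 F (ν ξ)) c ξ
  have hcomp : ∀ (F : ℕ → M) m m', m ≤ m' → ∀ c ξ, ξ < (s m).1.2.2.p.ht →
      (s m').1.2.2.y (trunc m0 F m') c ξ = (s m).1.2.2.y (trunc m0 F m) c ξ := by
    intro F m m' hmm c ξ hξ
    rw [(hanti hmm).2.1 _ c ξ hξ]
    exact (s m).2.2.2.agr _ _ (trunc_agr m0 F hmm le_rfl) c ξ hξ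
  have hY : ∀ (F : ℕ → M) m c ξ, ξ < (s m).1.2.2.p.ht →
      Y F c ξ = (s m).1.2.2.y (trunc m0 F m) c ξ := by
    intro F m c ξ hξ
    have hξν : ξ < (s (ν ξ)).1.2.2.p.ht := hν ξ (hξ.trans (hqlt m))
    rcases le_total m (ν ξ) with h | h
    · exact hcomp F m (ν ξ) h c ξ hξ
    · exact (hcomp F (ν ξ) m h c ξ hξν).symm
  have hanC : ∀ {m n : ℕ}, m ≤ n → CX x n ⊆ CX x m := fun h _ hc k hk => hc k (hk.trans_le h)
  have hoff : ∀ (F : ℕ → M) n c, c ∉ CX x n → ∀ m, n ≤ m → ∀ ξ, ξ < (s m).1.2.2.p.ht →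
      (s m).1.2.2.y (trunc m0 F m) c ξ = (s m).1.2.2.y (trunc m0 F n) c ξ := by
    intro F n c hc m hm
    induction m, hm using Nat.le_induction with
    | base => intro ξ _; rfl
    | succ m hm ih =>
      refine hpat m _ _ c (Or.inr fun h => hc (hanC hm h)) fun ξ hξ => ?_
      rw [← ih ξ hξ]
      exact (s m).2.2.2.agr _ _ (trunc_agr m0 F (Nat.le_succ m) le_rfl) c ξ hξ
  have hYmem : ∀ F, LocIn (G0 × AddOmega) q.p.t q.p.ht (Y F) := by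
    intro F
    refine LocIn.ofLocal ?_
    rintro ⟨g, f⟩
    obtain ⟨n', hn'⟩ := add_off' f
    obtain ⟨g', hg', σ, hσ⟩ := hx (n' + 1) g
    obtain ⟨f', hf', hfc⟩ := hn' σ
    refine ⟨(g', f'), ⟨hg', hf'⟩, q.y (trunc m0 F (n' + 1)), q.mem _, fun c hc ξ hξ => ?_⟩
    have hcX : c ∉ CX x (n' + 1) := fun hcon => hfc c.2 hc.2
      ((hcon n' (Nat.lt_succ_self n')).trans (hσ c.1 hc.1 n' (Nat.lt_succ_self n')))
    obtain ⟨m, hm, hmn⟩ : ∃ m, ξ < (s m).1.2.2.p.ht ∧ n' + 1 ≤ m :=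
      ⟨max (ν ξ) (n' + 1), lt_of_lt_of_le (hν ξ hξ) (hanti (le_max_left _ _)).1.1,
        le_max_right _ _⟩
    rw [hY F m c ξ hm, hoff F (n' + 1) c hcX m hmn ξ hm]
    exact ((hq m).2.1 _ c ξ hm).symm
  have hYle : ∀ F m, mkQ q.p (Y F) (hYmem F) ≤ atH (s m).1.2.2 (trunc m0 F m) :=
    fun F m => mkQ_le (hq m).1 fun c ξ hξ => hY F m c ξ hξ
  have hYq : ∀ F, mkQ q.p (Y F) (hYmem F) ≤ q0 :=
    fun F => (hYle F 0).trans ((s 0).2.2.2.le _)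
  -- the application of the regularity of the levels
  obtain ⟨Φ⟩ := (Cardinal.le_def _ _).1 hLM
  obtain ⟨ξ0, -⟩ := hA.bdd Empty (fun e => e.elim) (by simp)
  have cQ : DirectedClosed #M (Q2 G0 X0 L M) :=
    qq_closed (G := G0 × AddOmega) (X := X0 × (ℕ → Bool)) (L := L) (M := M)
  obtain ⟨ξ, η, hne, j, g, c, ⟨z, v⟩, hg, hc, ⟨hz, hv⟩, ⟨y1, hy1, hl1, hB1⟩, y2, hy2, hl2, hB2⟩ :=
    Fus.reg hF (Z := Z × Q2 G0 X0 L M) (prod_closed cZ cQ)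
    (fun ξ j g c t => ∃ (y : Nm (X0 × (ℕ → Bool)) L)
      (hy : LocIn (G0 × AddOmega) t.2.p.t t.2.p.ht y),
      mkQ t.2.p y hy ≤ mkQ q.p (Y (Φ ξ)) (hYmem (Φ ξ)) ∧
        B.B (g, c, t.1, mkQ t.2.p y hy) q.p.ht j)
    (by
      rintro ξ j g c ⟨z, v⟩ g' c' ⟨z', v'⟩ hg hc ⟨hz, hv⟩ ⟨y, hy, hl, hB⟩
      have hvp : v'.p ≤ v.p := hv.1
      have hm : LocIn (G0 × AddOmega) v'.p.t v'.p.ht (repl v.p.ht y (v'.y ())) :=
        v'.p.sys.repl' hvp.1 (Set.mem_Iic.2 le_rfl) (Cond.locin_mono hvp le_rfl hy) (v'.mem ())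
      have hl' : mkQ v'.p (repl v.p.ht y (v'.y ())) hm ≤ mkQ v.p y hy :=
        mkQ_le hvp fun c ξ hξ => repl_lt hξ
      exact ⟨_, hm, hl'.trans hl,
        B.mono (g, c, z, mkQ v.p y hy) (g', c', z', mkQ v'.p (repl v.p.ht y (v'.y ())) hm) _ _
          ⟨hg, hc, hz, hl'⟩ hB⟩)
    g0 cω (zω, mkQ q.p (Y (Φ ξ0)) (hYmem (Φ ξ0)))
    (by
      rintro ξ g c ⟨z, u⟩ hg hc ⟨hz, hu⟩
      replace hz : z ≤ zω := hz
      replace hu : u ≤ mkQ q.p (Y (Φ ξ0)) (hYmem (Φ ξ0)) := hu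
      have hup : u.p ≤ q.p := hu.1
      have hm : LocIn (G0 × AddOmega) u.p.t u.p.ht (repl q.p.ht (Y (Φ ξ)) (u.y ())) :=
        u.p.sys.repl' hup.1 (Set.mem_Iic.2 le_rfl)
          (Cond.locin_mono hup le_rfl (hYmem (Φ ξ))) (u.mem ())
      have hl : mkQ u.p (repl q.p.ht (Y (Φ ξ)) (u.y ())) hm ≤
          mkQ q.p (Y (Φ ξ)) (hYmem (Φ ξ)) := mkQ_le hup fun c ξ hξ => repl_lt hξ
      have hle3 : (g, c, z, mkQ u.p (repl q.p.ht (Y (Φ ξ)) (u.y ())) hm) ≤ r0 :=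
        le_trans ⟨hg, hc.trans ((hc' 0).trans le_rfl), hz.trans ((hz' 0).trans le_rfl),
          hl.trans (hYq _)⟩ hle
      obtain ⟨⟨g', c', z', v⟩, ⟨k1, k2, k3, hv⟩, j, hB⟩ := B.total _ hle3 q.p.ht
      replace k1 : g' ≤ g := k1
      replace k2 : c' ≤ c := k2
      replace k3 : z' ≤ z := k3
      replace hv : v ≤ mkQ u.p (repl q.p.ht (Y (Φ ξ)) (u.y ())) hm := hv
      have hvu : v.p ≤ u.p := hv.1
      refine ⟨g', c', (z', u.ext v.p hvu (v.y ()) (v.mem ())), k1, k2,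
        ⟨k3, u.ext_le v.p hvu (v.y ()) (v.mem ())⟩, j, v.y (), v.mem (), ?_, ?_⟩
      · exact (mkQ_self_le v).trans (hv.trans hl)
      · exact B.mono (g', c', z', v) (g', c', z', mkQ v.p (v.y ()) (v.mem ())) _ _
          ⟨le_rfl, le_rfl, le_rfl, mkQ_self_le v⟩ hB)
  replace hz : z ≤ zω := hz
  replace hl1 : mkQ v.p y1 hy1 ≤ mkQ q.p (Y (Φ ξ)) (hYmem (Φ ξ)) := hl1
  replace hl2 : mkQ v.p y2 hy2 ≤ mkQ q.p (Y (Φ η)) (hYmem (Φ η)) := hl2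
  replace hB1 : B.B (g, c, z, mkQ v.p y1 hy1) q.p.ht j := hB1
  replace hB2 : B.B (g, c, z, mkQ v.p y2 hy2) q.p.ht j := hB2
  have hΦne : Φ ξ ≠ Φ η := fun h => hne (Φ.injective h)
  obtain ⟨m, hmne⟩ := Function.ne_iff.1 hΦne
  have hnag := trunc_ne m0 hmne
  obtain ⟨g', c', hg', hc'', α, i, i', hα, hii, hBi, hBi'⟩ := (s (m + 1)).2.2.2.dif _ _ hnag g c
    hg (hc.trans (hc' (m + 1)))
  have hlt2 : α < q.p.ht := hα.trans (hqlt (m + 1))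
  have e1 : B.B (g', c', z, mkQ v.p y1 hy1) α i :=
    B.mono (g', c', (s (m + 1)).1.2.1, atH (s (m + 1)).1.2.2 (trunc m0 (Φ ξ) (m + 1))) _ _ _
      ⟨le_rfl, le_rfl, hz.trans (hz' (m + 1)), hl1.trans (hYle (Φ ξ) (m + 1))⟩ hBi
  have e2 : B.B (g', c', z, mkQ v.p y2 hy2) α i' :=
    B.mono (g', c', (s (m + 1)).1.2.1, atH (s (m + 1)).1.2.2 (trunc m0 (Φ η) (m + 1))) _ _ _
      ⟨le_rfl, le_rfl, hz.trans (hz' (m + 1)), hl2.trans (hYle (Φ η) (m + 1))⟩ hBi'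
  have e3 : B.B (g', c', z, mkQ v.p y1 hy1) q.p.ht j :=
    B.mono (g, c, z, mkQ v.p y1 hy1) _ _ _ ⟨hg', hc'', le_rfl, le_rfl⟩ hB1
  have e4 : B.B (g', c', z, mkQ v.p y2 hy2) q.p.ht j :=
    B.mono (g, c, z, mkQ v.p y2 hy2) _ _ _ ⟨hg', hc'', le_rfl, le_rfl⟩ hB2
  have c1 := B.chain _ _ _ _ _ e1 e3 hlt2
  have c2 := B.chain _ _ _ _ _ e2 e4 hlt2
  exact hii (T.uniq _ _ _ _ _ c1 c2)

end

end CTF
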