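import Pool.Agent.Lib.CTF.T2

/-!
# Unions
-/

namespace CTF

open Cardinal CAT9

section

variable {G0 X0 CC Z L M : Type} [LinearOrder L] [Preorder G0] [PtsD G0 X0] [Preorder CC]
  [Preorder Z] [hA : Amb L M]

variable {T : TreeName (It G0 X0 CC L M) L M} {r0 : G0 × CC × Z × Q2 G0 X0 L M}

theorem SplitK.mono {B : BranchName (liftT Z T) r0} {g g' : G0} {c c' : CC} {z z' : Z}
    {q q' : Q2 G0 X0 L M} {C C' : Set (X0 × (ℕ → Bool))} (hg : g' ≤ g) (hc : c' ≤ c)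
    (hz : z' ≤ z) (hq : q' ≤ q) (hC : ∀ x, x ∈ On (X0 := X0) g' → x ∈ C' → x ∈ C)
    (h : SplitK B g' c' z' q' C') : SplitK B g c z q C := by
  obtain ⟨g1, c1, z0, z1, q0, q1, e1, e2, e3, e4, e5, e6, e7, e8, e9, e10⟩ := h
  refine ⟨g1, c1, z0, z1, q0, q1, e1.trans hg, e2.trans hc, e3.trans hz, e4.trans hz,
    e5.trans hq, e6.trans hq, e7, e8, fun x hx hxC ξ hξ => ?_, e10⟩
  exact e9 x hx (fun hxC' => hxC (hC x (Pts.cy_mono _ _ e1 hx) hxC')) ξ hξ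

theorem splitK_union {B : BranchName (liftT Z T) r0} {g : G0} {c : CC} {z : Z}
    {q : Q2 G0 X0 L M} (hle : (g, c, z, q) ≤ r0) {C0 C1 : Set (X0 × (ℕ → Bool))}
    (hC0 : Clop (G0 × AddOmega) C0) (h0 : ¬ SplitK B g c z q C0)
    (h1 : ¬ SplitK B g c z q C1) : ¬ SplitK B g c z q (C0 ∪ C1) := by
  classical
  rintro ⟨g', c', z0, z1, q0, q1, hg, hc, hz0, hz1, hq0, hq1, hht, ht, hy, α, i0, i1, hne,
    b0, b1⟩
  have hOn := on_clop (X0 := X0) g'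
  -- the mixed name
  let y2 : Nm (X0 × (ℕ → Bool)) L := mix (C0 ∩ On g') (q0.y ()) (q1.y ())
  have m2 : LocIn (G0 × AddOmega) q0.p.t q0.p.ht y2 := by
    refine LocIn.ofLocal fun f => ?_
    obtain ⟨f1, hf1, hc1⟩ := hC0 f
    obtain ⟨f2, hf2, hc2⟩ := hOn f1
    rcases hc2 with hc2 | hc2
    · rcases hc1 with hc1 | hc1
      · obtain ⟨f3, hf3, i, hi⟩ := q1.mem () f2
        refine ⟨f3, hf3.trans (hf2.trans hf1), q0.p.t q0.p.ht i, ?_, fun x hx ξ hξ => ?_⟩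
        · have := Amb.neM L hA
          exact LocIn.self _ _ _ _
        · have hxOn : x ∈ On (X0 := X0) g' := hc2 (Pts.cy_mono _ _ hf3 hx)
          have hxC : x ∈ C0 := hc1 (Pts.cy_mono _ _ (hf3.trans hf2) hx)
          change mix (C0 ∩ On g') (q0.y ()) (q1.y ()) x ξ = _
          rw [mix_pos (show x ∈ C0 ∩ On (X0 := X0) g' from ⟨hxC, hxOn⟩), hi x hx ξ (hht ▸ hξ), ← hht,
            ← congrFun (ht q0.p.ht le_rfl i x hxOn) ξ]
      · refine ⟨f2, hf2.trans hf1, q0.y (), q0.mem (), fun x hx ξ _ => ?_⟩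
        exact mix_neg (fun h => hc1 x (Pts.cy_mono _ _ hf2 hx) h.1) ξ
    · refine ⟨f2, hf2.trans hf1, q0.y (), q0.mem (), fun x hx ξ _ => ?_⟩
      exact mix_neg (fun h => hc2 x hx h.2) ξ
  have hq0' := QQ.le_iff.1 hq0
  have hq1' := QQ.le_iff.1 hq1
  have l2 : mkQ q0.p y2 m2 ≤ q := by
    refine QQ.le_iff.2 ⟨hq0.1, fun x ξ hξ => ?_⟩
    change mix (C0 ∩ On g') (q0.y ()) (q1.y ()) x ξ = q.y () x ξ
    by_cases hx : x ∈ C0 ∩ On g'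
    · rw [mix_pos hx]; exact hq1'.2 x ξ hξ
    · rw [mix_neg hx]; exact hq0'.2 x ξ hξ
  have hle2 : (g', c', z0, mkQ q0.p y2 m2) ≤ (g, c, z, q) := ⟨hg, hc, hz0, l2⟩
  obtain ⟨⟨g3, c3, z3, q3⟩, ⟨hg3, hc3, hz3, hq3⟩, i2, b2⟩ := B.total _ (hle2.trans hle) α
  have hq3' := QQ.le_iff.1 hq3
  have hq3p : q3.p ≤ q0.p := hq3.1
  have hzy : ∀ x ξ, ξ < q0.p.ht → q3.y () x ξ = y2 x ξ := fun x ξ hξ => hq3'.2 x ξ hξ
  -- comparison with `q0`
  have n0 : LocIn (G0 × AddOmega) q3.p.t q3.p.ht (repl q0.p.ht (q0.y ()) (q3.y ())) :=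
    q3.p.sys.repl' hq3p.1 (Set.mem_Iic.2 le_rfl) (Cond.locin_mono hq3p le_rfl (q0.mem ()))
      (q3.mem ())
  have k0 : mkQ q3.p (repl q0.p.ht (q0.y ()) (q3.y ())) n0 ≤ q0 :=
    QQ.le_iff.2 ⟨hq3p, fun x ξ hξ => repl_lt hξ⟩
  have b0' : B.B (g3, c3, z0, mkQ q3.p (repl q0.p.ht (q0.y ()) (q3.y ())) n0) α i0 :=
    B.mono _ _ _ _ (show (g3, c3, z0, mkQ q3.p (repl q0.p.ht (q0.y ()) (q3.y ())) n0) ≤
      (g', c', z0, q0) from ⟨hg3, hc3, le_rfl, k0⟩) b0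
  have e02 : i0 = i2 := by
    by_contra hcon
    refine h0 ⟨g3, c3, z0, z3, _, q3, hg3.trans hg, hc3.trans hc, hz0, hz3.trans hz0,
      k0.trans hq0, hq3.trans l2, rfl, fun _ _ _ _ _ => rfl, ?_, α, i0, i2, hcon, b0', b2⟩
    intro x hx hxC ξ hξ
    change repl q0.p.ht (q0.y ()) (q3.y ()) x ξ = q3.y () x ξ
    rcases lt_or_ge ξ q0.p.ht with h | h
    · rw [repl_lt h, hzy x ξ h]
      exact (mix_neg (fun h' => hxC h'.1) ξ).symm
    · rw [repl_ge h]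
  -- comparison with `q1`
  have hext : ExtOn g3 q3.p q1.p := by
    refine ⟨hht ▸ hq3p.1, fun a ha i x hx => ?_⟩
    have ha' : a ≤ q0.p.ht := hht ▸ ha
    rw [hq3p.2 a ha']
    exact ht a ha' i x (Pts.cy_mono _ _ hg3 hx)
  obtain ⟨q1', k1, k2, k3, k4⟩ := transplant2 g3 q1 q3 hext
  have b1' : B.B (g3, c3, z1, q1') α i1 :=
    B.mono _ _ _ _ (show (g3, c3, z1, q1') ≤ (g', c', z1, q1) from ⟨hg3, hc3, le_rfl, k1⟩) b1
  have e21 : i2 = i1 := by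
    by_contra hcon
    refine h1 ⟨g3, c3, z3, z1, q3, q1', hg3.trans hg, hc3.trans hc, hz3.trans hz0, hz1,
      hq3.trans l2, k1.trans hq1, k2.symm, fun a _ i x hx => (k3 a i x hx).symm, ?_, α, i2, i1,
      hcon, b2, b1'⟩
    intro x hx hxC ξ hξ
    rw [k4 x hx ξ hξ]
    rcases lt_or_ge ξ q1.p.ht with h | h
    · have h' : ξ < q0.p.ht := hht ▸ h
      rw [repl_lt h, hzy x ξ h']
      have hxOn : x ∈ On (X0 := X0) g' := Pts.cy_mono _ _ hg3 hx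
      change mix (C0 ∩ On g') (q0.y ()) (q1.y ()) x ξ = q1.y () x ξ
      by_cases hxC0 : x ∈ C0
      · rw [mix_pos (show x ∈ C0 ∩ On (X0 := X0) g' from ⟨hxC0, hxOn⟩)]
      · rw [mix_neg (fun h => hxC0 h.1)]
        exact hy x hxOn (fun h => h.elim hxC0 hxC) ξ h'
    · rw [repl_ge h]
  exact hne (e02.trans e21)

end

end CTF
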