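import Pool.Agent.Lib.CTF.HX0
import Pool.Agent.Lib.CTF.HU

namespace CTF

open Cardinal CAT9

section

variable {G0 X0 CC Z L M : Type} [LinearOrder L] [Preorder G0] [PtsD G0 X0] [Preorder CC]
  [Preorder Z] [hA : Amb L M]

variable {T : TreeName (It G0 X0 CC L M) L M} {r0 : G0 × CC × Z × Q2 G0 X0 L M}

theorem exists_realX {χ : Cardinal.{0}} (hχ : ℵ₀ ≤ χ) (hχM : χ ≤ #M) (hG : #G0 ≤ χ)
    (cC : DirectedClosed χ CC) (cZ : DirectedClosed #M Z) (B : BranchName (liftT Z T) r0)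
    {g0 : G0} {c0 : CC} {z0 : Z} {q0 : Q2 G0 X0 L M} (hle : (g0, c0, z0, q0) ≤ r0)
    (h : ∀ g c z q, g ≤ g0 → c ≤ c0 → z ≤ z0 → q ≤ q0 → SplitK B g c z q Set.univ) :
    ∃ x : X0 → ℕ → Bool, LocX G0 x ∧ ∃ c1 z1 q1, c1 ≤ c0 ∧ z1 ≤ z0 ∧ q1 ≤ q0 ∧
      ∀ m g c z q, g ≤ g0 → c ≤ c1 → z ≤ z1 → q ≤ q1 → SplitK B g c z q (CX x m) :=
  HX.exists_realX_of hχ hχM hG cC cZ B (fun hl _ _ hC h0 h1 => splitK_union hl hC h0 h1) hle h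

end

end CTF
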