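import Pool.Agent.Lib.CTF.HDefs

/-!
# Transplanting conditions with names
-/

namespace CTF

open Cardinal CAT9

section

variable {G0 X0 L M : Type} [LinearOrder L] [Preorder G0] [PtsD G0 X0] [hA : Amb L M]

theorem transplant2 (g : G0) (q q1 : Q2 G0 X0 L M) (h : ExtOn g q1.p q.p) :
    ∃ q', q' ≤ q ∧ q'.p.ht = q1.p.ht ∧
      (∀ a i x, x ∈ On (X0 := X0) g → q'.p.t a i x = q1.p.t a i x) ∧
      ∀ x, x ∈ On (X0 := X0) g → ∀ ξ, ξ < q1.p.ht →
        q'.y () x ξ = repl q.p.ht (q.y ()) (q1.y ()) x ξ := by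
  have hC := on_clop (X0 := X0) g
  have key : LocIn (G0 × AddOmega) q1.p.t q.p.ht
      (mix (On g) (q1.p.t q.p.ht (Classical.choice (Amb.neM L hA))) (q.y ())) := by
    intro f
    obtain ⟨f', hf', hc | hc⟩ := hC f
    · obtain ⟨f'', hf'', i, hi⟩ := q.mem () f'
      refine ⟨f'', hf''.trans hf', i, fun c hcc ξ hξ => ?_⟩
      have hcg := hc (Pts.cy_mono _ _ hf'' hcc)
      rw [mix_pos hcg, hi c hcc ξ hξ, h.2 _ le_rfl i c hcg]
    · exact ⟨f', hf', Classical.choice (Amb.neM L hA), fun c hcc ξ _ => mix_neg (hc c hcc) ξ⟩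
  have hm := q1.p.sys.repl' h.1 (Set.mem_Iic.2 le_rfl) key (q1.mem ())
  obtain ⟨q', h1, h2, h3, h4⟩ := transplant g q (mkQ q1.p _ hm) h (fun x hx ξ hξ => by
    change repl q.p.ht _ (q1.y ()) x ξ = _
    rw [repl_lt hξ, mix_pos hx])
  refine ⟨q', h1, h2, h3, fun x hx ξ hξ => ?_⟩
  rw [h4 x hx]
  change repl q.p.ht _ (q1.y ()) x ξ = _
  rcases lt_or_ge ξ q.p.ht with hlt | hge
  · rw [repl_lt hlt, repl_lt hlt, mix_pos hx]
  · rw [repl_ge hge, repl_ge hge]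

/-- If `q0` and `q1` agree at the points of `g` and `q1'` extends `q1`, then `q0` has an extension
which agrees with `q1'` at these points. -/
theorem agr_extend (g : G0) (q0 q1 q1' : Q2 G0 X0 L M) (h : AgrOn g q0 q1) (h' : q1' ≤ q1) :
    ∃ q0', q0' ≤ q0 ∧ AgrOn g q0' q1' := by
  have h1 := QQ.le_iff.1 h'
  obtain ⟨q', h2, h3, h4, h5⟩ := transplant g q0 q1'
    ⟨h.ht.le.trans h1.1.1, fun a ha i x hx => by
      rw [h1.1.2 a (ha.trans h.ht.le), h.t a ha i x hx]⟩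
    fun x hx ξ hξ => by rw [h1.2 x ξ (hξ.trans_le h.ht.le), h.y x hx ξ hξ]
  exact ⟨q', h2, h3, fun a _ i x hx => h4 a i x hx, fun x hx ξ _ => by rw [h5 x hx]⟩

end

end CTF
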