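import Pool.Agent.Lib.CTF.FU
import Pool.Agent.Lib.CTF.RG
import Pool.Agent.Lib.CTF.T2
import Pool.Agent.Lib.CTF.H0
import Pool.Agent.Lib.CTF.HB
import Pool.Agent.Lib.CTF.HU
import Pool.Agent.Lib.CTF.HX
import Pool.Agent.Lib.CTF.HN
import Pool.Agent.Lib.CTF.HS

/-!
# A branch in the extension by the product gives a branch in the extension by the iteration
-/

namespace CTF

open Cardinal CAT9

section

variable {G0 X0 CC Z L M : Type} [LinearOrder L] [Preorder G0] [PtsD G0 X0] [Preorder CC]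
  [Preorder Z] [hA : Amb L M]

variable {T : TreeName (It G0 X0 CC L M) L M} {r0 : G0 × CC × Z × Q2 G0 X0 L M}

theorem ns1_fusion (hF : Fus G0 CC M) (hG : #G0 ≤ #M) (hLM : #L ≤ #(ℕ → M))
    (cC : DirectedClosed ℵ₀ CC) (cZ : DirectedClosed #M Z) (B : BranchName (liftT Z T) r0) :
    ∃ c1 z1 q1, c1 ≤ r0.2.1 ∧ z1 ≤ r0.2.2.1 ∧ q1 ≤ r0.2.2.2 ∧
      ∀ g1 g c, g ≤ g1 → g ≤ r0.1 → c ≤ c1 → ∃ g' c', g' ≤ g ∧ c' ≤ c ∧
        ¬ Split1 B g1 g' c' z1 q1 := by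
  classical
  have cZQ : DirectedClosed #M (Z × Q2 G0 X0 L M) := by
    intro S hS hd
    obtain ⟨z, hz⟩ := cZ (Prod.fst '' S) (Cardinal.mk_image_le.trans hS) (by
      rintro _ ⟨a, ha, rfl⟩ _ ⟨b, hb, rfl⟩
      obtain ⟨c, hc, h1, h2⟩ := hd a ha b hb
      exact ⟨c.1, ⟨c, hc, rfl⟩, h1.1, h2.1⟩)
    obtain ⟨q, hq⟩ := qq_closed (Prod.snd '' S) (Cardinal.mk_image_le.trans hS) (by
      rintro _ ⟨a, ha, rfl⟩ _ ⟨b, hb, rfl⟩
      obtain ⟨c, hc, h1, h2⟩ := hd a ha b hb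
      exact ⟨c.2, ⟨c, hc, rfl⟩, h1.2, h2.2⟩)
    exact ⟨(z, q), fun s hs => ⟨hz _ ⟨s, hs, rfl⟩, hq _ ⟨s, hs, rfl⟩⟩⟩
  obtain ⟨c1, ⟨z1, q1⟩, hc1, hz1, Val, -, hV⟩ := hF (Z × Q2 G0 X0 L M) cZQ G0 Unit hG
    (fun g1 _ g c d => (∀ k, k ≤ g → ¬ k ≤ g1) ∨ (g ≤ g1 ∧ ¬ Split1 B g1 g c d.1 d.2))
    (by
      rintro g1 - g c d g' c' d' hg hc hd (h | ⟨h, h'⟩)
      · exact Or.inl fun k hk => h k (hk.trans hg)
      · refine Or.inr ⟨hg.trans h, fun hs => h' ?_⟩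
        obtain ⟨g'', c'', z0, z1, q0, q1, e1, e2, e3, e4, e5, e6, e7⟩ := hs
        exact ⟨g'', c'', z0, z1, q0, q1, e1.trans hg, e2.trans hc, e3.trans hd.1, e4.trans hd.1,
          e5.trans hd.2, e6.trans hd.2, e7⟩)
    r0.1 r0.2.1 r0.2.2
    (by
      rintro g1 g c ⟨z, q⟩ hg hc ⟨hz, hq⟩
      by_cases h : ∃ k, k ≤ g ∧ k ≤ g1
      · obtain ⟨k, hk, hk'⟩ := h
        obtain ⟨g', c', z', q', e1, e2, e3, e4, e5⟩ := ns1_exists hF hLM cC cZ B g1 k c z q hk'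
          ⟨hk.trans hg, hc, hz, hq⟩
        exact ⟨g', c', (z', q'), e1.trans hk, e2, ⟨e3, e4⟩, (), Or.inr ⟨e1.trans hk', e5⟩⟩
      · exact ⟨g, c, (z, q), le_rfl, le_rfl, le_rfl, (), Or.inl fun k hk hk' => h ⟨k, hk, hk'⟩⟩)
  refine ⟨c1, z1, q1, hc1, hz1.1, hz1.2, fun g1 g c hg hg0 hc => ?_⟩
  obtain ⟨g', c', hg', hc', -, -, h | ⟨-, h⟩⟩ := hV g1 g c hg0 hc
  · exact absurd (hg'.trans hg) (h g' le_rfl)
  · exact ⟨g', c', hg', hc', h⟩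

/-- A branch in the extension by the product gives a branch in the extension by the iteration. -/
theorem descend (hF : Fus G0 CC M) {χ : Cardinal.{0}} (hχ : ℵ₀ ≤ χ) (hχM : χ ≤ #M)
    (hG : #G0 ≤ χ) (cC : DirectedClosed χ CC) (hLM : #L ≤ #(ℕ → M))
    (cZ : DirectedClosed #M Z) (B : BranchName (liftT Z T) r0) :
    ∃ p, p ≤ toIt r0 ∧ Nonempty (BranchName T p) := by
  have cC0 : DirectedClosed ℵ₀ CC := fun S hS hd => cC S (hS.trans hχ) hd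
  obtain ⟨c1, z1, q1, hc1, hz1, hq1, hNS⟩ := ns1_fusion hF (hG.trans hχM) hLM cC0 cZ B
  have hle : (r0.1, c1, z1, q1) ≤ r0 := ⟨le_rfl, hc1, hz1, hq1⟩
  by_contra hcon
  push Not at hcon
  have hall : ∀ g c z q, g ≤ r0.1 → c ≤ c1 → z ≤ z1 → q ≤ q1 → SplitK B g c z q Set.univ := by
    intro g c z q hg hc hz hq
    by_contra h
    have hle' : (g, c, z, q) ≤ r0 := ⟨hg, hc.trans hc1, hz.trans hz1, hq.trans hq1⟩
    obtain ⟨b⟩ := branch_of_not_splitK B hle' h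
    exact (hcon _ (toIt_proj.mono _ _ hle')).false b
  obtain ⟨x, hx, c2, z2, q2, hc2, hz2, hq2, hs⟩ := exists_realX hχ hχM hG cC cZ B hle hall
  refine no_splittingN hF hLM cC0 cZ B (g0 := r0.1) (c0 := c2) (z0 := z2) (q0 := q2)
    ⟨le_rfl, hc2.trans hc1, hz2.trans hz1, hq2.trans hq1⟩ hx fun m g c z q hg hc hz hq => ?_
  exact splitN_of_splitK B hle hNS hg (hc.trans hc2) (hz.trans hz2) (hq.trans hq2)
    (hs m g c z q hg hc hz hq)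

end

end CTF
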