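import Pool.Agent.Lib.CTF.Trans

/-!
# Splitting a branch in the presence of collapses: definitions
-/

namespace CTF

open Cardinal CAT9

/-- The pull back of a name for a tree along a projection. -/
def pullT {P Q : Type} [Preorder P] [Preorder Q] {L M : Type} [LinearOrder L] {τ : P → Q}
    (hτ : IsProj τ) (T : TreeName Q L M) : TreeName P L M where
  R p x y := T.R (τ p) x y
  mono p q x y h h' := T.mono _ _ _ _ (hτ.mono _ _ h) h'
  dense p x y h := by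
    refine T.dense _ _ _ fun r hr => ?_
    obtain ⟨b, hb, hbr⟩ := hτ.lift p r hr
    obtain ⟨c, hc, hR⟩ := h b hb
    exact ⟨τ c, (hτ.mono _ _ hc).trans hbr, hR⟩
  lt p x y h := T.lt _ _ _ h
  trans p x y z h h' := T.trans _ _ _ _ h h'
  tree p x y z h h' := T.tree _ _ _ _ h h'
  uniq p a i j z h h' := T.uniq _ _ _ _ _ h h'
  pred p y a ha := by
    obtain ⟨r, hr, i, hi⟩ := T.pred (τ p) y a ha
    obtain ⟨b, hb, hbr⟩ := hτ.lift p r hr
    exact ⟨b, hb, i, T.mono _ _ _ _ hbr hi⟩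

/-- Fusion: for at most `#M` dense sets one can find conditions `c` and `z` such that each of the
sets is met by extending the parts in `G0` and `CC` only, and with at most `#M` values. -/
def Fus (G0 CC : Type) [Preorder G0] [Preorder CC] (M : Type) : Prop :=
  ∀ (Z : Type) [Preorder Z], DirectedClosed #M Z → ∀ (K V : Type), #K ≤ #M →
    ∀ O : K → V → G0 → CC → Z → Prop,
      (∀ k v g c z g' c' z', g' ≤ g → c' ≤ c → z' ≤ z → O k v g c z → O k v g' c' z') →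
      ∀ (g0 : G0) (c0 : CC) (z0 : Z),
        (∀ k g c z, g ≤ g0 → c ≤ c0 → z ≤ z0 →
          ∃ g' c' z', g' ≤ g ∧ c' ≤ c ∧ z' ≤ z ∧ ∃ v, O k v g' c' z') →
        ∃ c1 z1, c1 ≤ c0 ∧ z1 ≤ z0 ∧ ∃ Val : K → Set V, (∀ k, #(Val k) ≤ #M) ∧
          ∀ k g c, g ≤ g0 → c ≤ c1 → ∃ g' c', g' ≤ g ∧ c' ≤ c ∧ ∃ v, v ∈ Val k ∧ O k v g' c' z1

section

variable (G0 X0 L M : Type) [LinearOrder L] [Preorder G0] [PtsD G0 X0]

/-- Conditions with a name of an element of the last level. -/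
abbrev Q2 : Type := QQ (G0 × AddOmega) L M (X0 × (ℕ → Bool))

end

section

variable {G0 X0 CC Z L M : Type} [LinearOrder L] [Preorder G0] [PtsD G0 X0] [Preorder CC]
  [Preorder Z]

/-- `q` and `q'` agree at the points of `g`. -/
structure AgrOn (g : G0) (q q' : Q2 G0 X0 L M) : Prop where
  ht : q.p.ht = q'.p.ht
  t : ∀ a, a ≤ q.p.ht → ∀ i x, x ∈ On (X0 := X0) g → q.p.t a i x = q'.p.t a i x
  y : ∀ x, x ∈ On (X0 := X0) g → ∀ ξ, ξ < q.p.ht → q.y () x ξ = q'.y () x ξ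

variable [hA : Amb L M]

variable (Z) in
/-- The name for the tree, for the product. -/
abbrev liftT (T : TreeName (It G0 X0 CC L M) L M) :
    TreeName (G0 × CC × Z × Q2 G0 X0 L M) L M := pullT toIt_proj T

variable {T : TreeName (It G0 X0 CC L M) L M} {r0 : G0 × CC × Z × Q2 G0 X0 L M}

/-- Two extensions of `(z, q)` which agree at the points of `g1` decide the branch differently. -/
def Split1 (B : BranchName (liftT Z T) r0) (g1 g : G0) (c : CC) (z : Z) (q : Q2 G0 X0 L M) :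
    Prop :=
  ∃ g' c' z0 z1 q0 q1, g' ≤ g ∧ c' ≤ c ∧ z0 ≤ z ∧ z1 ≤ z ∧ q0 ≤ q ∧ q1 ≤ q ∧ AgrOn g1 q0 q1 ∧
    ∃ α i0 i1, i0 ≠ i1 ∧ B.B (g', c', z0, q0) α i0 ∧ B.B (g', c', z1, q1) α i1

/-- Two extensions of `(z, q)` which agree at the points of the deciding condition, the names
only outside of `C`, decide the branch differently. -/
def SplitK (B : BranchName (liftT Z T) r0) (g : G0) (c : CC) (z : Z) (q : Q2 G0 X0 L M)
    (C : Set (X0 × (ℕ → Bool))) : Prop :=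
  ∃ g' c' z0 z1 q0 q1, g' ≤ g ∧ c' ≤ c ∧ z0 ≤ z ∧ z1 ≤ z ∧ q0 ≤ q ∧ q1 ≤ q ∧
    q0.p.ht = q1.p.ht ∧
    (∀ a, a ≤ q0.p.ht → ∀ i x, x ∈ On (X0 := X0) g' → q0.p.t a i x = q1.p.t a i x) ∧
    (∀ x, x ∈ On (X0 := X0) g' → x ∉ C → ∀ ξ, ξ < q0.p.ht → q0.y () x ξ = q1.y () x ξ) ∧
    ∃ α i0 i1, i0 ≠ i1 ∧ B.B (g', c', z0, q0) α i0 ∧ B.B (g', c', z1, q1) α i1

/-- Two extensions of `(z, q)` which differ only in the names, and only at points of `C`, decide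
the branch differently. -/
def SplitN (B : BranchName (liftT Z T) r0) (g : G0) (c : CC) (z : Z) (q : Q2 G0 X0 L M)
    (C : Set (X0 × (ℕ → Bool))) : Prop :=
  ∃ (g' : G0) (c' : CC) (z' : Z) (p' : Cond (G0 × AddOmega) L M (X0 × (ℕ → Bool)))
    (y0 y1 : Nm (X0 × (ℕ → Bool)) L) (h0 : LocIn (G0 × AddOmega) p'.t p'.ht y0)
    (h1 : LocIn (G0 × AddOmega) p'.t p'.ht y1), g' ≤ g ∧ c' ≤ c ∧ z' ≤ z ∧ mkQ p' y0 h0 ≤ q ∧
    mkQ p' y1 h1 ≤ q ∧ (∀ x, x ∉ C → ∀ ξ, ξ < p'.ht → y0 x ξ = y1 x ξ) ∧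
    ∃ α i0 i1, i0 ≠ i1 ∧ B.B (g', c', z', mkQ p' y0 h0) α i0 ∧
      B.B (g', c', z', mkQ p' y1 h1) α i1

/-- The points which agree with `x` below `m`. -/
def CX (x : X0 → ℕ → Bool) (m : ℕ) : Set (X0 × (ℕ → Bool)) := {c | ∀ k, k < m → c.2 k = x c.1 k}

/-- The initial segment of length `m` of the name `x` is decided densely often. -/
def LocX (G0 : Type) [Preorder G0] [PtsD G0 X0] (x : X0 → ℕ → Bool) : Prop :=
  ∀ (m : ℕ) (g : G0), ∃ g', g' ≤ g ∧ ∃ s : ℕ → Bool, ∀ y, y ∈ Pts.cy (X := X0) g' → ∀ k, k < m →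
    x y k = s k

end

end CTF
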