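import Pool.Agent.Lib.CTF.HDefs

/-!
# The name for a real at which the branch can always be split

The main part; the fact about unions is a hypothesis here.
-/

namespace CTF.HX

open Cardinal CAT9

section

variable {G0 X0 CC Z L M : Type} [LinearOrder L] [Preorder G0] [PtsD G0 X0] [Preorder CC]
  [Preorder Z] [hA : Amb L M]

variable {T : TreeName (It G0 X0 CC L M) L M} {r0 : G0 × CC × Z × Q2 G0 X0 L M}

theorem splitK_mono0 {B : BranchName (liftT Z T) r0} {g g' : G0} {c c' : CC} {z z' : Z}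
    {q q' : Q2 G0 X0 L M} {C C' : Set (X0 × (ℕ → Bool))} (hg : g' ≤ g) (hc : c' ≤ c)
    (hz : z' ≤ z) (hq : q' ≤ q) (hC : ∀ x, x ∈ On (X0 := X0) g' → x ∈ C' → x ∈ C)
    (h : SplitK B g' c' z' q' C') : SplitK B g c z q C := by
  obtain ⟨g2, c2, z0, z1, q0, q1, hg2, hc2, hz0, hz1, hq0, hq1, hht, ht, hy, hα⟩ := h
  exact ⟨g2, c2, z0, z1, q0, q1, hg2.trans hg, hc2.trans hc, hz0.trans hz, hz1.trans hz,
    hq0.trans hq, hq1.trans hq, hht, ht,
    fun x hx hxC => hy x hx fun hxC' => hxC (hC x (Pts.cy_mono _ _ hg2 hx) hxC'), hα⟩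

/-- The points with second coordinate extending `s` below `m`. -/
def CS (X0 : Type) (s : ℕ → Bool) (m : ℕ) : Set (X0 × (ℕ → Bool)) := CX (fun _ => s) m

theorem mem_CS {s : ℕ → Bool} {m : ℕ} {x : X0 × (ℕ → Bool)} :
    x ∈ CS X0 s m ↔ ∀ k, k < m → x.2 k = s k := Iff.rfl

theorem CS_congr {s t : ℕ → Bool} {m : ℕ} (h : ∀ k, k < m → s k = t k) :
    CS X0 s m = CS X0 t m := by
  ext x
  rw [mem_CS, mem_CS]
  constructor
  · intro hx k hk
    rw [hx k hk, h k hk]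
  · intro hx k hk
    rw [hx k hk, h k hk]

theorem CS_zero (s : ℕ → Bool) : CS X0 s 0 = Set.univ := by
  ext x; simp [mem_CS]

theorem CS_union (s : ℕ → Bool) (m : ℕ) :
    CS X0 s m = CS X0 (Function.update s m false) (m + 1) ∪
      CS X0 (Function.update s m true) (m + 1) := by
  ext x
  have h := Set.ext_iff.1 (cyl_union s m) x.2
  exact h

theorem CS_clop (s : ℕ → Bool) (m : ℕ) : Clop (G0 × AddOmega) (CS X0 s m) := by
  rintro ⟨g, f⟩
  obtain ⟨f', hf', h | h⟩ := cyl_clop s m f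
  · exact ⟨(g, f'), ⟨le_rfl, hf'⟩, Or.inl fun x hx => h hx.2⟩
  · exact ⟨(g, f'), ⟨le_rfl, hf'⟩, Or.inr fun x hx => h x.2 hx.2⟩

/-- A finite set as a real. -/
noncomputable def ofFin (F : Finset ℕ) : ℕ → Bool := by
  classical exact fun k => decide (k ∈ F)

/-- The trace of a real below `m`. -/
noncomputable def toFin (s : ℕ → Bool) (m : ℕ) : Finset ℕ :=
  (Finset.range m).filter fun k => s k = true

theorem ofFin_toFin (s : ℕ → Bool) (m : ℕ) : ∀ k, k < m → ofFin (toFin s m) k = s k := by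
  intro k hk
  unfold ofFin toFin
  rcases h : s k with _ | _
  · simp [h]
  · simp [h, hk]

theorem CS_fin (s : ℕ → Bool) (m : ℕ) : CS X0 (ofFin (toFin s m)) m = CS X0 s m :=
  CS_congr (ofFin_toFin s m)

/-- The splitting set is hereditarily split below. -/
def Good (B : BranchName (liftT Z T) r0) (g : G0) (c : CC) (z : Z) (q : Q2 G0 X0 L M)
    (C : Set (X0 × (ℕ → Bool))) : Prop :=
  ∀ g' c' z' q', g' ≤ g → c' ≤ c → z' ≤ z → q' ≤ q → SplitK B g' c' z' q' C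

/-- The set `C` is decided. -/
def Dcd (B : BranchName (liftT Z T) r0) (g : G0) (c : CC) (z : Z) (q : Q2 G0 X0 L M)
    (C : Set (X0 × (ℕ → Bool))) : Prop :=
  ¬ SplitK B g c z q C ∨ Good B g c z q C

theorem Dcd.anti {B : BranchName (liftT Z T) r0} {g g' : G0} {c : CC} {z : Z}
    {q : Q2 G0 X0 L M} {C : Set (X0 × (ℕ → Bool))} (hg : g' ≤ g) (h : Dcd B g c z q C) :
    Dcd B g' c z q C := by
  rcases h with h | h
  · exact Or.inl fun h' => h (splitK_mono0 hg le_rfl le_rfl le_rfl (fun _ _ h => h) h')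
  · exact Or.inr fun g2 c2 z2 q2 h1 h2 h3 h4 => h g2 c2 z2 q2 (h1.trans hg) h2 h3 h4

/-- All extensions through `y` are split. -/
def Tr (B : BranchName (liftT Z T) r0) (g0 : G0) (c : CC) (z : Z) (q : Q2 G0 X0 L M) (y : X0)
    (s : ℕ → Bool) (m : ℕ) : Prop :=
  ∀ g, g ≤ g0 → y ∈ Pts.cy (X := X0) g → SplitK B g c z q (CS X0 s m)

theorem Tr.congr {B : BranchName (liftT Z T) r0} {g0 : G0} {c : CC} {z : Z}
    {q : Q2 G0 X0 L M} {y : X0} {s t : ℕ → Bool} {m : ℕ} (h : ∀ k, k < m → s k = t k)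
    (hT : Tr B g0 c z q y s m) : Tr B g0 c z q y t m := by
  intro g hg hy
  rw [← CS_congr h]
  exact hT g hg hy

open Classical in
/-- The leftmost branch, step by step, for a property `P`. -/
noncomputable def st (P : (ℕ → Bool) → ℕ → Prop) : ℕ → (ℕ → Bool)
  | 0 => fun _ => false
  | m + 1 => if P (Function.update (st P m) m false) (m + 1) then
      Function.update (st P m) m false else Function.update (st P m) m true

/-- The leftmost branch. -/
noncomputable def lb (P : (ℕ → Bool) → ℕ → Prop) : ℕ → Bool := fun k => st P (k + 1) k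

theorem st_succ_lt (P : (ℕ → Bool) → ℕ → Prop) {m k : ℕ} (hk : k < m) :
    st P (m + 1) k = st P m k := by
  rw [st]
  split_ifs
  · exact Function.update_of_ne hk.ne _ _
  · exact Function.update_of_ne hk.ne _ _

theorem st_eq_lb (P : (ℕ → Bool) → ℕ → Prop) : ∀ m k, k < m → st P m k = lb P k := by
  intro m
  induction m with
  | zero => intro k hk; exact absurd hk (Nat.not_lt_zero k)
  | succ m ih =>
    intro k hk
    rcases Nat.lt_succ_iff_lt_or_eq.1 hk with h | rfl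
    · rw [st_succ_lt P h, ih k h]
    · rfl

theorem st_P (P : (ℕ → Bool) → ℕ → Prop) (h0 : ∀ s, P s 0)
    (hs : ∀ s m, P s m → P (Function.update s m false) (m + 1) ∨
      P (Function.update s m true) (m + 1)) : ∀ m, P (st P m) m := by
  intro m
  induction m with
  | zero => exact h0 _
  | succ m ih =>
    rw [st]
    split_ifs with h
    · exact h
    · rcases hs _ _ ih with h' | h'
      · exact absurd h' h
      · exact h'

theorem st_congr {P P' : (ℕ → Bool) → ℕ → Prop} {m : ℕ}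
    (h : ∀ s k, k ≤ m → (P s k ↔ P' s k)) : ∀ k, k ≤ m → st P k = st P' k := by
  intro k
  induction k with
  | zero => intro _; rfl
  | succ k ih =>
    intro hk
    have ek := ih (by omega)
    rw [st, st, ek]
    have := h (Function.update (st P' k) k false) (k + 1) hk
    by_cases hP : P (Function.update (st P' k) k false) (k + 1)
    · rw [if_pos hP, if_pos (this.1 hP)]
    · rw [if_neg hP, if_neg fun h' => hP (this.2 h')]

/-- The name for a real, given the fact about unions. -/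
theorem exists_realX_of {χ : Cardinal.{0}} (hχ : ℵ₀ ≤ χ) (hχM : χ ≤ #M) (hG : #G0 ≤ χ)
    (cC : DirectedClosed χ CC) (cZ : DirectedClosed #M Z) (B : BranchName (liftT Z T) r0)
    (hU : ∀ {g : G0} {c : CC} {z : Z} {q : Q2 G0 X0 L M}, (g, c, z, q) ≤ r0 →
      ∀ {C0 C1 : Set (X0 × (ℕ → Bool))}, Clop (G0 × AddOmega) C0 → ¬ SplitK B g c z q C0 →
        ¬ SplitK B g c z q C1 → ¬ SplitK B g c z q (C0 ∪ C1))
    {g0 : G0} {c0 : CC} {z0 : Z} {q0 : Q2 G0 X0 L M} (hle : (g0, c0, z0, q0) ≤ r0)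
    (h : ∀ g c z q, g ≤ g0 → c ≤ c0 → z ≤ z0 → q ≤ q0 → SplitK B g c z q Set.univ) :
    ∃ x : X0 → ℕ → Bool, LocX G0 x ∧ ∃ c1 z1 q1, c1 ≤ c0 ∧ z1 ≤ z0 ∧ q1 ≤ q0 ∧
      ∀ m g c z q, g ≤ g0 → c ≤ c1 → z ≤ z1 → q ≤ q1 → SplitK B g c z q (CX x m) := by
  classical
  -- the three parts together
  have cW : DirectedClosed χ (CC × Z × Q2 G0 X0 L M) := by
    intro S hS hd
    obtain ⟨c, hc⟩ := cC (Prod.fst '' S) (Cardinal.mk_image_le.trans hS) (by
      rintro _ ⟨a, ha, rfl⟩ _ ⟨b, hb, rfl⟩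
      obtain ⟨c, hc, h1, h2⟩ := hd a ha b hb
      exact ⟨c.1, ⟨c, hc, rfl⟩, h1.1, h2.1⟩)
    obtain ⟨z, hz⟩ := cZ ((fun s => s.2.1) '' S) ((Cardinal.mk_image_le.trans hS).trans hχM) (by
      rintro _ ⟨a, ha, rfl⟩ _ ⟨b, hb, rfl⟩
      obtain ⟨c, hc, h1, h2⟩ := hd a ha b hb
      exact ⟨c.2.1, ⟨c, hc, rfl⟩, h1.2.1, h2.2.1⟩)
    obtain ⟨q, hq⟩ := qq_closed ((fun s => s.2.2) '' S)
      ((Cardinal.mk_image_le.trans hS).trans hχM) (by
      rintro _ ⟨a, ha, rfl⟩ _ ⟨b, hb, rfl⟩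
      obtain ⟨c, hc, h1, h2⟩ := hd a ha b hb
      exact ⟨c.2.2, ⟨c, hc, rfl⟩, h1.2.2, h2.2.2⟩)
    exact ⟨(c, z, q), fun s hs => ⟨hc _ ⟨s, hs, rfl⟩, hz _ ⟨s, hs, rfl⟩, hq _ ⟨s, hs, rfl⟩⟩⟩
  have hK : #(G0 × ℕ × Finset ℕ) ≤ χ := by
    rw [Cardinal.mk_prod, Cardinal.mk_prod, Cardinal.lift_id, Cardinal.lift_id,
      Cardinal.lift_id, Cardinal.lift_id]
    refine (mul_le_mul' hG (mul_le_mul' (Cardinal.mk_le_aleph0.trans hχ)
      (Cardinal.mk_le_aleph0.trans hχ))).trans ?_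
    rw [Cardinal.mul_eq_self hχ, Cardinal.mul_eq_self hχ]
  obtain ⟨⟨c1, z1, q1⟩, hw, hD⟩ := meet hχ cW (K := G0 × ℕ × Finset ℕ) hK
    (fun k => {w | (∃ g', g' ≤ k.1 ∧ ¬ SplitK B g' w.1 w.2.1 w.2.2 (CS X0 (ofFin k.2.2) k.2.1)) ∨
      Good B k.1 w.1 w.2.1 w.2.2 (CS X0 (ofFin k.2.2) k.2.1)})
    (c0, z0, q0)
    (by
      rintro k w w' hww (⟨g', hg', hn⟩ | hgd)
      · exact Or.inl ⟨g', hg', fun h' => hn (splitK_mono0 le_rfl hww.1 hww.2.1 hww.2.2
          (fun _ _ h => h) h')⟩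
      · exact Or.inr fun g2 c2 z2 q2 h1 h2 h3 h4 => hgd g2 c2 z2 q2 h1 (h2.trans hww.1)
          (h3.trans hww.2.1) (h4.trans hww.2.2))
    (by
      intro k w _
      by_cases hgd : Good B k.1 w.1 w.2.1 w.2.2 (CS X0 (ofFin k.2.2) k.2.1)
      · exact ⟨w, le_rfl, Or.inr hgd⟩
      · unfold Good at hgd
        push Not at hgd
        obtain ⟨g', c', z', q', h1, h2, h3, h4, h5⟩ := hgd
        exact ⟨(c', z', q'), ⟨h2, h3, h4⟩, Or.inl ⟨g', h1, h5⟩⟩)
  have hc1 : c1 ≤ c0 := hw.1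
  have hz1 : z1 ≤ z0 := hw.2.1
  have hq1 : q1 ≤ q0 := hw.2.2
  -- deciding one set
  have dec1 : ∀ (g : G0) (s : ℕ → Bool) (m : ℕ), ∃ g', g' ≤ g ∧
      Dcd B g' c1 z1 q1 (CS X0 s m) := by
    intro g s m
    rcases hD (g, m, toFin s m) with ⟨g', hg', hn⟩ | hgd
    · refine ⟨g', hg', Or.inl ?_⟩
      rw [← CS_fin s m]
      exact hn
    · refine ⟨g, le_rfl, Or.inr ?_⟩
      rw [← CS_fin s m]
      exact hgd
  -- deciding finitely many sets
  have dec2 : ∀ (S : Finset (ℕ × Finset ℕ)) (g : G0), ∃ g', g' ≤ g ∧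
      ∀ k, k ∈ S → Dcd B g' c1 z1 q1 (CS X0 (ofFin k.2) k.1) := by
    intro S
    induction S using Finset.induction_on with
    | empty => intro g; exact ⟨g, le_rfl, fun k hk => absurd hk (Finset.notMem_empty k)⟩
    | insert a S _ ih =>
      intro g
      obtain ⟨g1, hg1, h1⟩ := ih g
      obtain ⟨g2, hg2, h2⟩ := dec1 g1 (ofFin a.2) a.1
      refine ⟨g2, hg2.trans hg1, fun k hk => ?_⟩
      rcases Finset.mem_insert.1 hk with rfl | hk
      · exact h2
      · exact (h1 k hk).anti hg2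
  have dec3 : ∀ (m : ℕ) (g : G0), ∃ g', g' ≤ g ∧ ∀ (s : ℕ → Bool) (k : ℕ), k ≤ m →
      Dcd B g' c1 z1 q1 (CS X0 s k) := by
    intro m g
    obtain ⟨g', hg', hd⟩ := dec2 ((Finset.range (m + 1)) ×ˢ (Finset.range m).powerset) g
    refine ⟨g', hg', fun s k hk => ?_⟩
    rw [← CS_fin s k]
    refine hd (k, toFin s k) ?_
    rw [Finset.mem_product, Finset.mem_powerset]
    refine ⟨Finset.mem_range.2 (by omega), fun i hi => ?_⟩
    have := (Finset.mem_filter.1 hi).1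
    exact Finset.mem_range.2 (lt_of_lt_of_le (Finset.mem_range.1 this) hk)
  let P : X0 → (ℕ → Bool) → ℕ → Prop := fun y s m => Tr B g0 c1 z1 q1 y s m
  -- decided sets
  have trueP : ∀ g', g' ≤ g0 → ∀ y, y ∈ Pts.cy (X := X0) g' → ∀ s m,
      Good B g' c1 z1 q1 (CS X0 s m) → P y s m := by
    intro g' hg' y hy s m hgd g hg hyg
    obtain ⟨k, hk, hk', -⟩ := PtsD.dir g g' y hyg hy
    exact splitK_mono0 hk le_rfl le_rfl le_rfl (fun _ _ h => h)
      (hgd k c1 z1 q1 hk' le_rfl le_rfl le_rfl)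
  have falseP : ∀ g', g' ≤ g0 → ∀ y, y ∈ Pts.cy (X := X0) g' → ∀ s m,
      ¬ SplitK B g' c1 z1 q1 (CS X0 s m) → ¬ P y s m :=
    fun g' hg' y hy s m hn hP => hn (hP g' hg' hy)
  have constP : ∀ g', g' ≤ g0 → ∀ y y', y ∈ Pts.cy (X := X0) g' → y' ∈ Pts.cy (X := X0) g' →
      ∀ s m, Dcd B g' c1 z1 q1 (CS X0 s m) → (P y s m ↔ P y' s m) := by
    intro g' hg' y y' hy hy' s m hd
    rcases hd with hn | hgd
    · exact iff_of_false (falseP g' hg' y hy s m hn) (falseP g' hg' y' hy' s m hn)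
    · exact iff_of_true (trueP g' hg' y hy s m hgd) (trueP g' hg' y' hy' s m hgd)
  have hP0 : ∀ y s, P y s 0 := by
    intro y s g hg _
    rw [CS_zero]
    exact h g c1 z1 q1 hg hc1 hz1 hq1
  have hPs : ∀ y s m, P y s m → P y (Function.update s m false) (m + 1) ∨
      P y (Function.update s m true) (m + 1) := by
    intro y s m hP
    by_contra hcon
    push Not at hcon
    obtain ⟨hf, ht⟩ := hcon
    have hf' : ¬ ∀ g, g ≤ g0 → y ∈ Pts.cy (X := X0) g →
      SplitK B g c1 z1 q1 (CS X0 (Function.update s m false) (m + 1)) := hf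
    have ht' : ¬ ∀ g, g ≤ g0 → y ∈ Pts.cy (X := X0) g →
      SplitK B g c1 z1 q1 (CS X0 (Function.update s m true) (m + 1)) := ht
    push Not at hf' ht'
    obtain ⟨g1, hg1, hy1, hn1⟩ := hf'
    obtain ⟨g2, hg2, hy2, hn2⟩ := ht'
    obtain ⟨k, hk1, hk2, hyk⟩ := PtsD.dir g1 g2 y hy1 hy2
    have hu := hU (g := k) (c := c1) (z := z1) (q := q1)
      (le_trans ⟨hk1.trans hg1, hc1, hz1, hq1⟩ hle)
      (CS_clop (Function.update s m false) (m + 1))
      (fun h' => hn1 (splitK_mono0 hk1 le_rfl le_rfl le_rfl (fun _ _ h => h) h'))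
      (fun h' => hn2 (splitK_mono0 hk2 le_rfl le_rfl le_rfl (fun _ _ h => h) h'))
    rw [← CS_union] at hu
    exact hu (hP k (hk1.trans hg1) hyk)
  let x : X0 → ℕ → Bool := fun y => lb (P y)
  have hPx : ∀ y m, P y (x y) m := fun y m =>
    Tr.congr (fun k hk => st_eq_lb (P y) m k hk) (st_P (P y) (hP0 y) (hPs y) m)
  have hconst : ∀ (m : ℕ) (y y' : X0), (∀ s k, k ≤ m → (P y s k ↔ P y' s k)) →
      ∀ k, k < m → x y k = x y' k := by
    intro m y y' hyy k hk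
    have := st_congr hyy m le_rfl
    change lb (P y) k = lb (P y') k
    rw [← st_eq_lb (P y) m k hk, ← st_eq_lb (P y') m k hk, this]
  refine ⟨x, fun m g => ?_, c1, z1, q1, hc1, hz1, hq1, fun m g c z q hg hc hz hq => ?_⟩
  · by_cases hcomp : ∃ k, k ≤ g ∧ k ≤ g0
    · obtain ⟨k, hk, hk0⟩ := hcomp
      obtain ⟨g', hg', hd⟩ := dec3 m k
      obtain ⟨y0, hy0⟩ := Pts.cy_ne (X := X0) g'
      exact ⟨g', hg'.trans hk, x y0, fun y hy i hi =>
        hconst m y y0 (fun s k hk => constP g' (hg'.trans hk0) y y0 hy hy0 s k (hd s k hk)) i hi⟩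
    · obtain ⟨y0, hy0⟩ := Pts.cy_ne (X := X0) g
      have hvac : ∀ y, y ∈ Pts.cy (X := X0) g → ∀ s k, P y s k := by
        intro y hy s k g2 hg2 hy2
        obtain ⟨k', hk1, hk2, -⟩ := PtsD.dir g g2 y hy hy2
        exact absurd ⟨k', hk1, hk2.trans hg2⟩ hcomp
      exact ⟨g, le_rfl, x y0, fun y hy i hi =>
        hconst m y y0 (fun s k _ => iff_of_true (hvac y hy s k) (hvac y0 hy0 s k)) i hi⟩
  · obtain ⟨g', hg', hd⟩ := dec3 m g
    obtain ⟨y0, hy0⟩ := Pts.cy_ne (X := X0) g'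
    have hg0' : g' ≤ g0 := hg'.trans hg
    have hgood : Good B g' c1 z1 q1 (CS X0 (x y0) m) := by
      rcases hd (x y0) m le_rfl with hn | hgd
      · exact absurd (hPx y0 m) (falseP g' hg0' y0 hy0 _ _ hn)
      · exact hgd
    refine splitK_mono0 hg' le_rfl le_rfl le_rfl (fun w hw hwC => ?_)
      (hgood g' c z q le_rfl hc hz hq)
    intro k hk
    rw [hconst m w.1 y0 (fun s k hk => constP g' hg0' w.1 y0 hw hy0 s k (hd s k hk)) k hk]
    exact hwC k hk

end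

end CTF.HX
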