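import Pool.Agent.Lib.CTF.Defs

/-!
# The Levy collapse

`fn_closed`: the union of a directed set of partial functions. `mk_levy_le`: for `κ` inaccessible the
support of a condition is bounded in `κ` (regularity), and for each bound `α` the condition is given by
its graph, a subset of `{a // a < α} × χ⁺ × {b // b < α}`, which has fewer than `κ` elements (strong
limit). `mk_fin0_le`: the graph is a finite subset of `ℕ × B`.
-/

set_option autoImplicit false

namespace CTF

open Cardinal CAT9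

theorem fn_closed {A B : Type} {χ : Cardinal.{0}} {C : A → B → Prop} (hχ : ℵ₀ ≤ χ) :
    DirectedClosed χ (Fn A B χ C) := by
  classical
  intro S hS hdir
  let f : A → Option B := fun a =>
    if h : ∃ s ∈ S, s.f a ≠ none then (Classical.choose h).f a else none
  have hf1 : ∀ a, (∃ s ∈ S, s.f a ≠ none) → ∃ s ∈ S, f a = s.f a ∧ s.f a ≠ none := by
    intro a h
    refine ⟨Classical.choose h, (Classical.choose_spec h).1, ?_, (Classical.choose_spec h).2⟩
    exact dif_pos h
  have hf2 : ∀ a, f a ≠ none → ∃ s ∈ S, f a = s.f a ∧ s.f a ≠ none := by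
    intro a ha
    apply hf1
    by_contra hcon
    exact ha (dif_neg hcon)
  have hsmall : #{a // f a ≠ none} ≤ χ := by
    have hsub : {a | f a ≠ none} ⊆ ⋃ s : S, {a | s.1.f a ≠ none} := by
      intro a ha
      obtain ⟨s, hs, -, h⟩ := hf2 a ha
      exact Set.mem_iUnion.2 ⟨⟨s, hs⟩, h⟩
    calc #{a // f a ≠ none} = #({a | f a ≠ none} : Set A) := rfl
      _ ≤ #(⋃ s : S, {a | s.1.f a ≠ none} : Set A) := mk_le_mk_of_subset hsub
      _ ≤ Cardinal.sum fun s : S => #({a | s.1.f a ≠ none} : Set A) := mk_iUnion_le_sum_mk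
      _ ≤ Cardinal.sum fun _ : S => χ := sum_le_sum _ _ fun s => s.1.small
      _ = #S * χ := sum_const' _ _
      _ ≤ χ * χ := mul_le_mul_left hS _
      _ = χ := mul_eq_self hχ
  refine ⟨⟨f, hsmall, fun a b hab => ?_⟩, fun s hs a b hab => ?_⟩
  · obtain ⟨s, -, h1, -⟩ := hf2 a (by rw [hab]; simp)
    exact s.cst a b (h1.symm.trans hab)
  · change f a = some b
    obtain ⟨s', hs', h1, h2⟩ := hf1 a ⟨s, hs, by rw [hab]; simp⟩
    obtain ⟨z, -, hz1, hz2⟩ := hdir s hs s' hs'
    obtain ⟨b', hb'⟩ := Option.ne_none_iff_exists'.1 h2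
    rw [h1, hb', ← hz2 a b' hb', ← hz1 a b hab]

namespace LFAux

theorem exists_bound {κ : Cardinal.{0}} (hκ : κ.IsInaccessible) (s : Set (Ot κ)) (hs : #s < κ) :
    ∃ x, ∀ y ∈ s, y < x := by
  have h : ¬ IsCofinal s := by
    intro h
    have h1 := Order.cof_le h
    rw [Ordinal.cof_toType] at h1
    exact absurd (hκ.le_cof_ord.trans h1) (not_le.2 hs)
  unfold IsCofinal at h
  push Not at h
  exact h

theorem mk_iio_lt {κ : Cardinal.{0}} (x : Ot κ) : #{a : Ot κ // a < x} < κ := by
  have h := mk_Iio_lt x (by simp)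
  rw [mk_ord_toType] at h
  exact h

end LFAux

open LFAux

theorem mk_levy_le {χ κ : Cardinal.{0}} (hκ : κ.IsInaccessible) (hχ : ℵ₀ ≤ χ) (hχκ : χ < κ) :
    #(Levy χ κ) ≤ κ := by
  classical
  have hsucc : Order.succ χ < κ := hκ.isSuccLimit.succ_lt hχκ
  let L : Ot κ → Set (Levy χ κ) := fun α => {f | ∀ a ζ, f.f (a, ζ) ≠ none → a < α}
  have hcov : (Set.univ : Set (Levy χ κ)) ⊆ ⋃ α, L α := by
    intro f _
    have h1 : #(Prod.fst '' {x | f.f x ≠ none} : Set (Ot κ)) < κ :=
      (mk_image_le.trans f.small).trans_lt hχκ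
    obtain ⟨α, hα⟩ := exists_bound hκ _ h1
    exact Set.mem_iUnion.2 ⟨α, fun a ζ h => hα a ⟨(a, ζ), h, rfl⟩⟩
  have hL : ∀ α, #(L α) ≤ κ := by
    intro α
    let X := {a : Ot κ // a < α} × Ot (Order.succ χ) × {b : Ot κ // b < α}
    have hX : #X < κ := by
      have h0 : #X = #{a : Ot κ // a < α} * (#(Ot (Order.succ χ)) * #{b : Ot κ // b < α}) := by
        change #({a : Ot κ // a < α} × Ot (Order.succ χ) × {b : Ot κ // b < α}) = _
        rw [mk_prod, mk_prod]
        simp only [lift_uzero, lift_id]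
      rw [h0, mk_ord_toType]
      exact mul_lt_of_lt hκ.aleph0_lt.le (mk_iio_lt α)
        (mul_lt_of_lt hκ.aleph0_lt.le hsucc (mk_iio_lt α))
    let g : L α → Set X := fun f => {x | f.1.f (x.1.1, x.2.1) = some x.2.2.1}
    have hg : ∀ (f : L α) (a : Ot κ) (ζ : Ot (Order.succ χ)) (b : Ot κ),
        f.1.f (a, ζ) = some b → ∃ (ha : a < α) (hb : b < α),
          ((⟨a, ha⟩, ζ, ⟨b, hb⟩) : X) ∈ g f := by
      intro f a ζ b h
      have ha : a < α := f.2 a ζ (by rw [h]; simp)
      have hb : b < a := f.1.cst (a, ζ) b h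
      exact ⟨ha, hb.trans ha, h⟩
    have hinj : Function.Injective g := by
      intro f f' h
      have key : ∀ f f' : L α, g f = g f' → ∀ x b, f.1.f x = some b → f'.1.f x = some b := by
        rintro f f' h ⟨a, ζ⟩ b hb
        obtain ⟨ha, hb', hm⟩ := hg f a ζ b hb
        rw [h] at hm
        exact hm
      have h1 : f.1.f = f'.1.f := by
        funext x
        refine Option.ext fun b => ⟨key f f' h x b, key f' f h.symm x b⟩
      obtain ⟨⟨ff, h2, h3⟩, h4⟩ := f
      obtain ⟨⟨ff', h2', h3'⟩, h4'⟩ := f'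
      change ff = ff' at h1
      subst h1
      rfl
    calc #(L α) ≤ #(Set X) := mk_le_of_injective hinj
      _ = 2 ^ #X := mk_set
      _ ≤ κ := (hκ.isStrongPrelimit hX).le
  calc #(Levy χ κ) = #(Set.univ : Set (Levy χ κ)) := mk_univ.symm
    _ ≤ #(⋃ α, L α : Set (Levy χ κ)) := mk_le_mk_of_subset hcov
    _ ≤ Cardinal.sum fun α => #(L α) := mk_iUnion_le_sum_mk
    _ ≤ Cardinal.sum fun _ : Ot κ => κ := sum_le_sum _ _ hL
    _ = #(Ot κ) * κ := sum_const' _ _
    _ = κ := by rw [mk_ord_toType, mul_eq_self hκ.aleph0_lt.le]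

theorem mk_fin0_le (B : Type) (hB : ℵ₀ ≤ #B) : #(Fin0 B) ≤ #B := by
  classical
  haveI : Infinite B := infinite_iff.2 hB
  have hfin : ∀ f : Fin0 B, {x : ℕ × B | f.1 x.1 = some x.2}.Finite := by
    intro f
    refine Set.Finite.of_injOn (f := Prod.fst) (t := {n | f.1 n ≠ none}) ?_ ?_ f.2
    · rintro ⟨n, b⟩ h
      change f.1 n = some b at h
      change f.1 n ≠ none
      rw [h]
      simp
    · rintro ⟨n, b⟩ h ⟨n', b'⟩ h' hn
      change f.1 n = some b at h
      change f.1 n' = some b' at h'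
      change n = n' at hn
      subst hn
      rw [h] at h'
      rw [Option.some.inj h']
  have hinj : Function.Injective (fun f : Fin0 B => (hfin f).toFinset) := by
    intro f f' h
    have h1 : ∀ n b, f.1 n = some b ↔ f'.1 n = some b := by
      intro n b
      have h2 : (n, b) ∈ (hfin f).toFinset ↔ (n, b) ∈ (hfin f').toFinset := by
        have h3 : (hfin f).toFinset = (hfin f').toFinset := h
        rw [h3]
      rw [Set.Finite.mem_toFinset, Set.Finite.mem_toFinset] at h2
      exact h2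
    refine Subtype.ext (funext fun n => Option.ext fun b => h1 n b)
  calc #(Fin0 B) ≤ #(Finset (ℕ × B)) := mk_le_of_injective hinj
    _ = #(ℕ × B) := mk_finset_of_infinite _
    _ = ℵ₀ * #B := by rw [mk_prod, lift_id, lift_id, mk_nat]
    _ ≤ #B * #B := mul_le_mul_left hB _
    _ = #B := mul_eq_self hB

end CTF
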