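import Pool.Agent.Lib.CTF.Defs

/-!
# Narrow systems
-/

namespace CTF

open Cardinal CAT9

/-- A name, below `p0`, for a narrow system: relations `R k` (`k` in `K`) on `L × N` which are tree
like, and an unbounded set `D` of levels, any two of which are connected by one of the relations. -/
structure NSys (P : Type) [Preorder P] (L N K : Type) [LinearOrder L] (p0 : P) where
  /-- `p` forces that `x` lies below `y` in the relation with index `k` -/
  R : K → P → L × N → L × N → Prop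
  mono : ∀ k p q x y, q ≤ p → R k p x y → R k q x y
  dense : ∀ k p x y, p ≤ p0 → (∀ q, q ≤ p → ∃ r, r ≤ q ∧ R k r x y) → R k p x y
  lt : ∀ k p x y, R k p x y → x.1 < y.1
  tree : ∀ k p x y z, R k p x z → R k p y z → x.1 < y.1 → R k p x y
  uniq : ∀ k p a i j z, R k p (a, i) z → R k p (a, j) z → i = j
  /-- `p` forces that the level `a` is in the unbounded set -/
  D : P → L → Prop
  Dmono : ∀ p q a, q ≤ p → D p a → D q a
  unbounded : ∀ p, p ≤ p0 → ∀ a, ∃ q, q ≤ p ∧ ∃ b, a < b ∧ D q b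
  pair : ∀ p, p ≤ p0 → ∀ a b, a < b → D p a → D p b →
    ∃ q, q ≤ p ∧ ∃ k i j, R k q (a, i) (b, j)

/-- A name, below `p`, for an unbounded chain in one of the relations of a narrow system. -/
structure NBranch {P : Type} [Preorder P] {L N K : Type} [LinearOrder L] {p0 : P}
    (S : NSys P L N K p0) (p : P) where
  /-- the index of the relation -/
  k : K
  /-- `q` forces that the chain goes through the node `(a, i)` -/
  B : P → L → N → Prop
  mono : ∀ q r a i, r ≤ q → B q a i → B r a i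
  uniq : ∀ q a i j, B q a i → B q a j → i = j
  unbounded : ∀ q, q ≤ p → ∀ a, ∃ r, r ≤ q ∧ ∃ b, a < b ∧ ∃ i, B r b i
  chain : ∀ q a b i j, B q a i → B q b j → a < b → S.R k q (a, i) (b, j)

/-! ### Restrictions of partial functions -/

section

variable {A B L : Type} {χ : Cardinal.{0}} {C : A → B → Prop}

/-- The conditions with support in `x`, where the arguments are coded by `ι`. -/
def Ex (ι : A → L) (x : Set L) : Set (Fn A B χ C) := {e | ∀ a, e.f a ≠ none → ι a ∈ x}

open Classical in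
/-- The restriction of a condition to `x`. -/
noncomputable def res (ι : A → L) (x : Set L) (e : Fn A B χ C) : Fn A B χ C where
  f a := if ι a ∈ x then e.f a else none
  small := by
    refine le_trans (Cardinal.mk_subtype_mono fun a ha hn => ?_) e.small
    refine ha ?_
    change (if ι a ∈ x then e.f a else none) = none
    rw [hn]
    exact ite_self none
  cst a b h := by
    by_cases h' : ι a ∈ x
    · rw [if_pos h'] at h
      exact e.cst a b h
    · rw [if_neg h'] at h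
      exact absurd h (by simp)

end

/-! ### The local situation at a set `x` of levels -/

section

variable {L N K A B SS R : Type} [LinearOrder L] [Preorder SS] [Preorder R] {χ : Cardinal.{0}}
  {C : A → B → Prop} {p0 : SS × Fn A B χ C × R}

/-- The relations between nodes in `x` are decided by conditions in `Ex ι x`. -/
def Good (S : NSys (SS × Fn A B χ C × R) L N K p0) (ι : A → L) (r : R) (x : Set L) : Prop :=
  ∀ (s : SS) (u : Fn A B χ C) (k : K) (z z' : L × N), u ∈ Ex (χ := χ) (C := C) ι x → z.1 ∈ x →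
    z'.1 ∈ x →
    (∃ s2 u2, s2 ≤ s ∧ u2 ≤ u ∧ u2 ∈ Ex (χ := χ) (C := C) ι x ∧ S.R k (s2, u2, r) z z') ∨
    ∀ s2 e2 r2, s2 ≤ s → e2 ≤ u → r2 ≤ r → ¬ S.R k (s2, e2, r2) z z'

/-- The unbounded set is forced to be unbounded in `x` by conditions in `Ex ι x`. -/
def Unb (S : NSys (SS × Fn A B χ C × R) L N K p0) (ι : A → L) (r : R) (x : Set L) : Prop :=
  ∀ (s : SS) (u : Fn A B χ C) (b : L), s ≤ p0.1 → u ≤ p0.2.1 → u ∈ Ex (χ := χ) (C := C) ι x →
    b ∈ x → ∃ s' u' b', s' ≤ s ∧ u' ≤ u ∧ u' ∈ Ex (χ := χ) (C := C) ι x ∧ b' ∈ x ∧ b < b' ∧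
      S.D (s', u', r) b'

/-- The conclusion of the local lemma: `c` names, for the small forcing notion, an unbounded chain
in `x` for the relation `k`. -/
structure LocOK (S : NSys (SS × Fn A B χ C × R) L N K p0) (ι : A → L) (x : Set L) (r : R)
    (s0 : SS) (u0 : Fn A B χ C) (k : K) (c : SS → Fn A B χ C → L × N → Prop) : Prop where
  le1 : s0 ≤ p0.1
  le2 : u0 ≤ p0.2.1
  le3 : r ≤ p0.2.2
  u0x : u0 ∈ Ex (χ := χ) (C := C) ι x
  dom : ∀ s u z, c s u z → s ≤ s0 ∧ u ≤ u0 ∧ u ∈ Ex (χ := χ) (C := C) ι x ∧ z.1 ∈ x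
  mono : ∀ s u s' u' z, s' ≤ s → u' ≤ u → u' ∈ Ex (χ := χ) (C := C) ι x → c s u z → c s' u' z
  chain : ∀ s u z z', c s u z → c s u z' → z.1 < z'.1 →
    ∀ s3 u3 r3, s3 ≤ s → u3 ≤ u → u3 ∈ Ex (χ := χ) (C := C) ι x → r3 ≤ r →
      ∃ s4 u4 r4, s4 ≤ s3 ∧ u4 ≤ u3 ∧ u4 ∈ Ex (χ := χ) (C := C) ι x ∧ r4 ≤ r3 ∧
        S.R k (s4, u4, r4) z z'
  uniq : ∀ s u a i j, c s u (a, i) → c s u (a, j) → i = j
  unb : ∀ s u b, s ≤ s0 → u ≤ u0 → u ∈ Ex (χ := χ) (C := C) ι x → b ∈ x →
    ∃ s3 u3 z, s3 ≤ s ∧ u3 ≤ u ∧ b < z.1 ∧ c s3 u3 z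

end

end CTF
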