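import Pool.Agent.Lib.CTF.Defs
import Pool.Agent.Lib.CAT9.Meet

/-!
# Lemmas on names for ultrafilters, and mixing
-/

namespace CTF

open Cardinal CAT9

section NU

variable {κ : Cardinal.{0}} {Q : Type} [Preorder Q] {L : Type} {q0 : Q}

theorem NUAux.bool_lt (hκ : ℵ₀ ≤ κ) : #Bool < κ :=
  (Cardinal.lt_aleph0_of_finite Bool).trans_le hκ

theorem SCName.and2 (U : SCName κ Q L q0) (h2 : #Bool < κ) {q : Q} {A B : Q → Set L → Prop}
    (hA : U.U q A) (hB : U.U q B) : U.U q (fun r x => A r x ∧ B r x) := by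
  have h := U.inter q Bool (fun b r x => (b = true → A r x) ∧ (b = false → B r x)) h2 (by
    intro k
    cases k with
    | true => exact U.up q _ _ hA fun r _ x hx => ⟨fun _ => hx, fun h => (by cases h)⟩
    | false => exact U.up q _ _ hB fun r _ x hx => ⟨fun h => (by cases h), fun _ => hx⟩)
  exact U.up q _ _ h fun r _ x hx => ⟨(hx true).1 rfl, (hx false).2 rfl⟩

theorem SCName.U0 (U : SCName κ Q L q0) (hκ : ℵ₀ ≤ κ) {q : Q} (hq : q ≤ q0)
    (G A : Q → Set L → Prop)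
    (hA : ∀ r s x, s ≤ r → A r x → A s x) (hG : U.U q G)
    (h : ∀ r, r ≤ q → ∀ x, G r x → ∃ s, s ≤ r ∧ A s x) : U.U q A := by
  refine U.dense q _ hq fun r hr => ?_
  obtain ⟨s, hs, h1 | h1⟩ := U.decide r A (hr.trans hq) hA
  · exact ⟨s, hs, h1⟩
  · exfalso
    have h2 := U.and2 (NUAux.bool_lt hκ) h1 (U.mono _ _ _ (hs.trans hr) hG)
    obtain ⟨t, ht, x, hx1, hx2⟩ := U.proper s (hs.trans (hr.trans hq)) _ h2
    obtain ⟨v, hv, hv'⟩ := h t (ht.trans (hs.trans hr)) x hx2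
    exact hx1 v hv hv'

theorem SCName.U1 (U : SCName κ Q L q0) {q : Q} (hq : q ≤ q0) (A : Q → Set L → Prop)
    (hA : ∀ r s x, s ≤ r → A r x → A s x) (h : ∀ r, r ≤ q → ¬ U.U r A) :
    U.U q (fun s x => ∀ t, t ≤ s → ¬ A t x) := by
  refine U.dense q _ hq fun r hr => ?_
  obtain ⟨s, hs, h1 | h1⟩ := U.decide r A (hr.trans hq) hA
  · exact absurd h1 (h s (hs.trans hr))
  · exact ⟨s, hs, h1⟩

theorem SCName.U2 (U : SCName κ Q L q0) {q : Q} (hq : q ≤ q0) {J : Type} (hJ : #J < κ)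
    (A : J → Q → Set L → Prop) (hA : ∀ j r s x, s ≤ r → A j r x → A j s x)
    (h : U.U q (fun r x => ∃ j, A j r x)) : ∃ r, r ≤ q ∧ ∃ j, U.U r (A j) := by
  by_cases h2 : #Bool < κ
  · by_contra hcon
    push Not at hcon
    have h3 : U.U q (fun s x => ∀ j, ∀ t, t ≤ s → ¬ A j t x) :=
      U.inter q J (fun j s x => ∀ t, t ≤ s → ¬ A j t x) hJ
        (fun j => U.U1 hq (A j) (hA j) fun r hr => hcon r hr j)
    obtain ⟨t, ht, x, ⟨j, hj⟩, hx2⟩ := U.proper q hq _ (U.and2 h2 h h3)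
    exact hx2 j t le_rfl hj
  · have h3 : ∀ a b : J, a = b := by
      by_contra hcon
      push Not at hcon
      have h4 : 2 ≤ #J := Cardinal.two_le_iff.2 hcon
      rw [Cardinal.mk_bool] at h2
      exact absurd (h4.trans_lt hJ) h2
    obtain ⟨t, ht, x, j, hj⟩ := U.proper q hq _ h
    refine ⟨q, le_rfl, j, U.up q _ _ h fun r _ x hx => ?_⟩
    obtain ⟨i, hi⟩ := hx
    rw [h3 j i]
    exact hi

theorem SCName.U3 (U : SCName κ Q L q0) (hκ : ℵ₀ ≤ κ) {q : Q} (hq : q ≤ q0)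
    (A : L → Q → Set L → Prop) (hA : ∀ b r s x, s ≤ r → A b r x → A b s x)
    (h : U.U q (fun r x => ∃ b, b ∈ x ∧ A b r x)) : ∃ r, r ≤ q ∧ ∃ b, U.U r (A b) := by
  by_contra hcon
  push Not at hcon
  have h3 : U.U q (fun s x => ∀ b, b ∈ x → ∀ t, t ≤ s → ¬ A b t x) :=
    U.normal q (fun b s x => ∀ t, t ≤ s → ¬ A b t x)
      (fun b => U.U1 hq (A b) (hA b) fun r hr => hcon r hr b)
  obtain ⟨t, ht, x, ⟨b, hb, hj⟩, hx2⟩ := U.proper q hq _ (U.and2 (NUAux.bool_lt hκ) h h3)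
  exact hx2 b hb t le_rfl hj

theorem SCName.U4 (U : SCName κ Q L q0) {q : Q} (hq : q ≤ q0) {J : Type} [Nonempty J]
    {χ : Cardinal.{0}} (hχ : ℵ₀ ≤ χ) (hJ : #J ≤ χ) (hχκ : χ < κ) (cQ : DirectedClosed χ Q)
    (V : Q → Set L → (J → L) → Prop) (hV : ∀ r s x f, s ≤ r → V r x f → V s x f)
    (hV' : ∀ r x f g, V r x f → V r x g → f = g)
    (h : U.U q (fun r x => ∃ f, V r x f ∧ ∀ j, f j ∈ x)) :
    ∃ r, r ≤ q ∧ ∃ f, U.U r (fun s x => V s x f) := by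
  obtain ⟨r, hr, h1⟩ := CAT9.meet hχ cQ hJ
    (fun j => {r | ∃ b, U.U r (fun s x => ∃ f, V s x f ∧ f j = b)}) q
    (by
      rintro j a b hba ⟨c, hc⟩
      exact ⟨c, U.mono _ _ _ hba hc⟩)
    (by
      intro j r hr
      refine U.U3 (hχ.trans hχκ.le) (hr.trans hq) (fun b s x => ∃ f, V s x f ∧ f j = b)
        ?_ ?_
      · rintro b a c x hca ⟨f, hf, hfb⟩
        exact ⟨f, hV _ _ _ _ hca hf, hfb⟩
      · refine U.up r _ _ (U.mono _ _ _ hr h) fun s _ x hx => ?_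
        obtain ⟨f, hf, hfx⟩ := hx
        exact ⟨f j, hfx j, f, hf, rfl⟩)
  have h2 : ∀ j, ∃ b, U.U r (fun s x => ∃ f, V s x f ∧ f j = b) := h1
  choose f hf using h2
  refine ⟨r, hr, f, U.up r _ _ (U.inter r J (fun j s x => ∃ g, V s x g ∧ g j = f j)
    (hJ.trans_lt hχκ) hf) fun s _ x hx => ?_⟩
  obtain ⟨g, hg, -⟩ := hx (Classical.arbitrary J)
  have hgf : g = f := by
    funext j
    obtain ⟨g', hg', hg''⟩ := hx j
    rw [hV' s x g g' hg hg', hg'']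
  rw [← hgf]
  exact hg

theorem SCName.U5 (U : SCName κ Q L q0) {q : Q} (hq : q ≤ q0) (F : L → L → L) :
    U.U q (fun _ x => ∀ a, a ∈ x → ∀ b, b ∈ x → F a b ∈ x) :=
  U.normal q (fun a _ x => ∀ b, b ∈ x → F a b ∈ x) fun a =>
    U.normal q (fun b _ x => F a b ∈ x) fun b => U.fine q hq (F a b)

theorem SCName.U6 (U : SCName κ Q L q0) {q : Q} (hq : q ≤ q0) (y : Set L) (hy : #y < κ) :
    U.U q (fun _ x => y ⊆ x) :=
  U.up q _ _ (U.inter q y (fun a _ x => (a : L) ∈ x) hy fun a => U.fine q hq a)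
    fun _ _ _ hx a ha => hx ⟨a, ha⟩

theorem exists_mixing {Q Sx : Type} [Preorder Q] (V : Q → Sx → Prop)
    (hV : ∀ r s d, s ≤ r → V r d → V s d) :
    ∃ V' : Q → Sx → Prop, (∀ r s d, s ≤ r → V' r d → V' s d) ∧ (∀ r d, V' r d → V r d) ∧
      (∀ r d d', V' r d → V' r d' → d = d') ∧ ∀ r d, V r d → ∃ r', r' ≤ r ∧ ∃ d', V' r' d' := by
  classical
  let S : Set (Set Q) := {W | (∀ a ∈ W, ∃ d, V a d) ∧
    ∀ a ∈ W, ∀ b ∈ W, a ≠ b → ∀ c, c ≤ a → ¬ c ≤ b}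
  obtain ⟨W, hW⟩ : ∃ W, Maximal (· ∈ S) W := by
    apply zorn_subset
    intro c hc hch
    refine ⟨⋃₀ c, ⟨?_, ?_⟩, fun s hs => Set.subset_sUnion_of_mem hs⟩
    · rintro a ⟨s, hs, ha⟩
      exact (hc hs).1 a ha
    · rintro a ⟨s, hs, ha⟩ b ⟨s', hs', hb⟩ hab
      rcases hch.total hs hs' with h | h
      · exact (hc hs').2 a (h ha) b hb hab
      · exact (hc hs).2 a ha b (h hb) hab
  have hWS : W ∈ S := hW.prop
  have hWV : ∀ w : W, ∃ d, V w d := fun w => hWS.1 w w.2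
  choose g hg using hWV
  refine ⟨fun r d => ∃ w : W, r ≤ w ∧ d = g w, ?_, ?_, ?_, ?_⟩
  · rintro r s d hsr ⟨w, hrw, hd⟩
    exact ⟨w, hsr.trans hrw, hd⟩
  · rintro r d ⟨w, hrw, rfl⟩
    exact hV _ _ _ hrw (hg w)
  · rintro r d d' ⟨w, hrw, rfl⟩ ⟨w', hrw', rfl⟩
    by_cases h : w = w'
    · rw [h]
    · exact absurd hrw' (hWS.2 w w.2 w' w'.2 (fun h' => h (Subtype.ext h')) r hrw)
  · intro r d hd
    by_contra hcon
    push Not at hcon
    have hin : ∀ w ∈ W, ∀ c, c ≤ r → ¬ c ≤ w := by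
      intro w hw c hcr hcw
      exact hcon c hcr (g ⟨w, hw⟩) ⟨w, hw⟩ hcw rfl
    have h1 : insert r W ∈ S := by
      refine ⟨?_, ?_⟩
      · rintro a (rfl | ha)
        · exact ⟨d, hd⟩
        · exact hWS.1 a ha
      · rintro a (rfl | ha) b (rfl | hb) hab c hca hcb
        · exact hab rfl
        · exact hin b hb c hca hcb
        · exact hin a ha c hcb hca
        · exact hWS.2 a ha b hb hab c hca hcb
    have h2 : r ∈ W := hW.le_of_ge h1 (Set.subset_insert r W) (Set.mem_insert r W)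
    exact hin r h2 r le_rfl le_rfl

end NU

end CTF
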