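import Pool.Agent.Lib.CTF.NU
import Pool.Agent.Lib.CTF.LF

/-!
# Module S1: supercompactness of `κ 0`

From names for trees, for all the forcing notions `GG κ i × EE κ i × Q`, to an unbounded set of
levels which are connected, in one of the trees, by nodes with small numbers.
-/

namespace CTF

open Cardinal CAT9

namespace S1Aux

/-! ### Generalities -/

theorem prod_closed {P Q : Type} [Preorder P] [Preorder Q] {χ : Cardinal.{0}}
    (hP : DirectedClosed χ P) (hQ : DirectedClosed χ Q) : DirectedClosed χ (P × Q) := by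
  intro S hS hdir
  obtain ⟨p, hp⟩ := hP (Prod.fst '' S) (Cardinal.mk_image_le.trans hS) (by
    rintro _ ⟨a, ha, rfl⟩ _ ⟨b, hb, rfl⟩
    obtain ⟨c, hc, h1, h2⟩ := hdir a ha b hb
    exact ⟨c.1, ⟨c, hc, rfl⟩, h1.1, h2.1⟩)
  obtain ⟨q, hq⟩ := hQ (Prod.snd '' S) (Cardinal.mk_image_le.trans hS) (by
    rintro _ ⟨a, ha, rfl⟩ _ ⟨b, hb, rfl⟩
    obtain ⟨c, hc, h1, h2⟩ := hdir a ha b hb
    exact ⟨c.2, ⟨c, hc, rfl⟩, h1.2, h2.2⟩)
  exact ⟨(p, q), fun s hs => ⟨hp _ ⟨s, hs, rfl⟩, hq _ ⟨s, hs, rfl⟩⟩⟩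

theorem closed_le {χ χ' : Cardinal.{0}} (h : χ' ≤ χ) {P : Type} [Preorder P]
    (hP : DirectedClosed χ P) : DirectedClosed χ' P := fun S hS => hP S (hS.trans h)

theorem uand {κ : Cardinal.{0}} (hκ : ℵ₀ < κ) {Q : Type} [Preorder Q] {L : Type} {q0 : Q}
    (U : SCName κ Q L q0) {q : Q} {A B : Q → Set L → Prop} (hA : U.U q A) (hB : U.U q B) :
    U.U q (fun r x => A r x ∧ B r x) := by
  refine U.up q _ _ (U.inter q Bool (fun k => bif k then A else B)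
    ((Cardinal.lt_aleph0_of_finite Bool).trans hκ) ?_) ?_
  · rintro (_ | _)
    · exact hB
    · exact hA
  · intro r _ x h
    exact ⟨h true, h false⟩

/-- the image of a finite partial function -/
def mapF {B B' : Type} (f : B → B') (g : Fin0 B) : Fin0 B' :=
  ⟨fun n => (g.1 n).map f, g.2.subset fun n hn h => hn (by
    change (g.1 n).map f = none
    rw [h]
    rfl)⟩

theorem mapF_inj {B B' : Type} {f : B → B'} (hf : Function.Injective f) :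
    Function.Injective (mapF f) := by
  intro g h hgh
  apply Subtype.ext
  funext n
  have h1 : (g.1 n).map f = (h.1 n).map f := congrFun (congrArg Subtype.val hgh) n
  exact Option.map_injective hf h1

theorem mk_fin0 (B : Type) {χ : Cardinal.{0}} (hχ : ℵ₀ ≤ χ) (hB : #B ≤ χ) : #(Fin0 B) ≤ χ := by
  have h1 : #B ≤ #χ.out := by rwa [Cardinal.mk_out]
  obtain ⟨f⟩ := (Cardinal.le_def _ _).1 h1
  refine (Cardinal.mk_le_of_injective (mapF_inj f.injective)).trans ?_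
  refine (mk_fin0_le χ.out (by rwa [Cardinal.mk_out])).trans ?_
  rw [Cardinal.mk_out]

theorem lift_val {M : Type} {P : M → Prop} (l : Fin0 M) (h : ∀ n m, l.1 n = some m → P m) :
    ∃ f : Fin0 {m // P m}, mapF Subtype.val f = l := by
  classical
  refine ⟨⟨fun n => if hn : ∃ m, l.1 n = some m then some ⟨hn.choose, h n _ hn.choose_spec⟩
    else none, l.2.subset fun n hn h0 => hn ?_⟩, ?_⟩
  · change (if hn : ∃ m, l.1 n = some m then
      some (⟨hn.choose, h n _ hn.choose_spec⟩ : {m // P m}) else none) = none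
    rw [dif_neg]
    rintro ⟨m, hm⟩
    rw [h0] at hm
    exact absurd hm (by simp)
  · apply Subtype.ext
    funext n
    change Option.map Subtype.val (if hn : ∃ m, l.1 n = some m then
      some ⟨hn.choose, h n _ hn.choose_spec⟩ else none) = l.1 n
    by_cases hn : ∃ m, l.1 n = some m
    · rw [dif_pos hn]
      exact hn.choose_spec.symm
    · rw [dif_neg hn]
      cases hl : l.1 n with
      | none => rfl
      | some m => exact absurd ⟨m, hl⟩ hn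

/-- an element of `Ot κ` with a given number of predecessors -/
theorem exists_seg {κ c : Cardinal.{0}} (hc : c < κ) : ∃ i : Ot κ, #{j : Ot κ // j < i} = c := by
  have hlt : c.ord < Ordinal.type (α := Ot κ) (· < ·) := by
    rw [Ordinal.type_toType]
    exact Cardinal.ord_lt_ord.2 hc
  refine ⟨Ordinal.enum (α := Ot κ) (· < ·) ⟨c.ord, hlt⟩, ?_⟩
  rw [← Ordinal.card_typein (r := (· < · : Ot κ → Ot κ → Prop)), Ordinal.typein_enum,
    Cardinal.card_ord]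

/-! ### The data at a set `x` of levels -/

/-- the data -/
structure Dat (κ : ℕ → Cardinal.{0}) (L M : Type) : Type where
  /-- the index of the tree -/
  i : Ot (κ 0)
  /-- the enumeration of the nodes in `x` -/
  π : Bi κ i → M
  /-- a level above `x` -/
  ρ : L
  /-- the conditions in `EE κ i` -/
  ee : L → EE κ i
  /-- the conditions in `GG κ i` -/
  gg : L → GG κ i
  /-- the nodes -/
  mm : L → M

section

variable {L M : Type} [LinearOrder L] {κ : ℕ → Cardinal.{0}} {Q : Type} [Preorder Q]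
  {g : ∀ i : Ot (κ 0), GG κ i} {e : ∀ i : Ot (κ 0), EE κ i} {q0 : Q}
  (T : ∀ i, TName (GG κ i × EE κ i × Q) L M (g i, e i, q0)) (ι : M → L) (m0 : M)

/-- `r` forces the properties of the data at `x` -/
structure VV (x : Set L) (r : Q) (d : Dat κ L M) : Prop where
  inj : Function.Injective d.π
  mem : ∀ j, ι (d.π j) ∈ x
  le1 : ∀ b, b ∈ x → d.ee b ≤ e d.i
  le2 : ∀ b, b ∈ x → d.gg b ≤ g d.i
  rel : ∀ b, b ∈ x → (T d.i).R (d.gg b, d.ee b, r) (b, d.mm b) (d.ρ, m0)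
  dec : ∀ a, a ∈ x → ∀ b, b ∈ x → a < b → d.ee b ≤ d.ee a

theorem VV.mono {x : Set L} {r s : Q} {d : Dat κ L M} (h : VV T ι m0 x r d) (hs : s ≤ r) :
    VV T ι m0 x s d :=
  ⟨h.inj, h.mem, h.le1, h.le2, fun b hb =>
    (T d.i).mono (d.gg b, d.ee b, r) (d.gg b, d.ee b, s) _ _ ⟨le_rfl, le_rfl, hs⟩ (h.rel b hb), h.dec⟩

theorem exists_dat [hA : Amb L M] (h0 : ℵ₀ < κ 0) (hM : κ 0 ≤ #M)
    (cQ : DirectedClosed (κ 0) Q) (hι : Function.Injective ι) (ν0 : ℕ → M)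
    (hν0 : Function.Injective ν0) (F : L → L → L) (eb : ∀ b : L, {a // a < b} → M)
    (heb : ∀ b, Function.Injective (eb b)) (hF : ∀ a b (h : a < b), F a b = ι (eb b ⟨a, h⟩))
    {x : Set L} (hx : #x < κ 0) (hx1 : ∀ j, ι (ν0 j) ∈ x)
    (hx2 : ∀ a, a ∈ x → ∀ b, b ∈ x → F a b ∈ x) (r : Q) (hr : r ≤ q0) :
    ∃ s, s ≤ r ∧ ∃ d, VV T ι m0 x s d := by
  classical
  have hwf := hA.wf
  let u := {m : M // ι m ∈ x}
  have hux : #u ≤ #x := Cardinal.mk_le_of_injective (f := fun m : u => (⟨ι m.1, m.2⟩ : x))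
    (fun a b h => Subtype.ext (hι (congrArg Subtype.val h)))
  have huκ : #u < κ 0 := hux.trans_lt hx
  have hu0 : ℵ₀ ≤ #u := by
    rw [← Cardinal.mk_nat]
    exact Cardinal.mk_le_of_injective (f := fun j : ℕ => (⟨ν0 j, hx1 j⟩ : u))
      (fun a b h => hν0 (congrArg Subtype.val h))
  obtain ⟨i, hi⟩ := exists_seg huκ
  have hB : #(Bi κ i) = #u := by
    rw [Cardinal.mk_sum, Cardinal.lift_id, Cardinal.lift_id, hi, Cardinal.mk_nat]
    exact Cardinal.add_eq_right hu0 hu0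
  obtain ⟨π0⟩ := (Cardinal.le_def _ _).1 hB.le
  obtain ⟨ρ, hρ⟩ := hA.bdd x (fun a => a.1) (hx.le.trans hM)
  have hχ0 : ℵ₀ ≤ #(Bi κ i) := hB.symm ▸ hu0
  have hχκ : #(Bi κ i) ≤ κ 0 := hB.le.trans huκ.le
  have clos : DirectedClosed #(Bi κ i) (Q × EE κ i) :=
    prod_closed (closed_le hχκ cQ) (fn_closed hχ0)
  obtain ⟨rr, h1, h2, h3⟩ := chain_meet hχ0 clos (K := x) (fun b => by
    rw [hB]
    refine Cardinal.mk_le_of_injective (f := fun a : {a : x // a < b} =>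
      (⟨eb b.1 ⟨a.1.1, a.2⟩, by
        rw [← hF a.1.1 b.1 a.2]
        exact hx2 _ a.1.2 _ b.2⟩ : u)) ?_
    intro a a' h
    have h4 := heb b.1 (congrArg Subtype.val h)
    exact Subtype.ext (Subtype.ext (congrArg (fun z : {a // a < b.1} => z.1) h4)))
    (fun b => {z : Q × EE κ i | ∃ l m, l ≤ g i ∧ (T i).R (l, z.2, z.1) (b.1, m) (ρ, m0)})
    (r, e i) (fun b z hz => by
      obtain ⟨⟨l, e', r'⟩, hle, m, hR⟩ := (T i).pred (g i, z.2, z.1) (ρ, m0) b.1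
        ⟨le_rfl, hz.2, hz.1.trans hr⟩ (hρ b)
      exact ⟨(r', e'), ⟨hle.2.2, hle.2.1⟩, l, m, hle.1, hR⟩)
  choose l m hl hR using h1
  let S : Set Q := insert r (Set.range fun k => (rr k).1)
  have hS : #S ≤ κ 0 := by
    refine (Cardinal.mk_insert_le).trans ?_
    refine (add_le_add (Cardinal.mk_range_le.trans hx.le) le_rfl).trans ?_
    exact (Cardinal.add_one_eq h0.le).le
  have hdir : DirectedOn (fun a b => b ≤ a) S := by
    rintro y (rfl | ⟨a, rfl⟩) z (rfl | ⟨b, rfl⟩)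
    · exact ⟨_, Or.inl rfl, le_rfl, le_rfl⟩
    · exact ⟨_, Or.inr ⟨b, rfl⟩, (h2 b).1, le_rfl⟩
    · exact ⟨_, Or.inr ⟨a, rfl⟩, le_rfl, (h2 a).1⟩
    · rcases lt_trichotomy a b with h | h | h
      · exact ⟨_, Or.inr ⟨b, rfl⟩, (h3 a b h).1, le_rfl⟩
      · subst h
        exact ⟨_, Or.inr ⟨a, rfl⟩, le_rfl, le_rfl⟩
      · exact ⟨_, Or.inr ⟨a, rfl⟩, le_rfl, (h3 b a h).1⟩
  obtain ⟨s, hs⟩ := cQ S hS hdir
  refine ⟨s, hs r (Or.inl rfl), ⟨i, fun j => (π0 j).1, ρ,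
    fun b => if h : b ∈ x then (rr ⟨b, h⟩).2 else e i,
    fun b => if h : b ∈ x then l ⟨b, h⟩ else g i,
    fun b => if h : b ∈ x then m ⟨b, h⟩ else m0⟩, ?_, ?_, ?_, ?_, ?_, ?_⟩
  · exact Subtype.val_injective.comp π0.injective
  · exact fun j => (π0 j).2
  · intro b hb
    simp only [dif_pos hb]
    exact (h2 ⟨b, hb⟩).2
  · intro b hb
    simp only [dif_pos hb]
    exact hl ⟨b, hb⟩
  · intro b hb
    simp only [dif_pos hb]
    exact (T i).mono (l ⟨b, hb⟩, (rr ⟨b, hb⟩).2, (rr ⟨b, hb⟩).1) (l ⟨b, hb⟩, (rr ⟨b, hb⟩).2, s) _ _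
      ⟨le_rfl, le_rfl, hs _ (Or.inr ⟨⟨b, hb⟩, rfl⟩)⟩ (hR ⟨b, hb⟩)
  · intro a ha b hb hab
    simp only [dif_pos ha, dif_pos hb]
    exact (h3 ⟨a, ha⟩ ⟨b, hb⟩ hab).2

end

/-! ### One label -/

theorem fix_label {L M : Type} [LinearOrder L] [hA : Amb L M] {κ : ℕ → Cardinal.{0}}
    (h0 : ∀ n, ℵ₀ ≤ κ n) (hM : ∀ n, κ n ≤ #M) {Q : Type} [Preorder Q] {q0 : Q}
    (cQ : DirectedClosed ℵ₀ Q)
    (hdec : ∀ n, ∃ (S R : Type) (_ : Preorder S) (_ : Preorder R) (_ : Q ≃o S × R),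
      #S ≤ κ n ∧ DirectedClosed (κ n) R)
    (Lab : ℕ → Type) (hLab : ∀ N, #(Lab N) ≤ κ N) (P : ∀ N, L → Lab N → Q → Prop)
    (mono : ∀ N b f q r, r ≤ q → P N b f q → P N b f r)
    (ha : ∀ q, q ≤ q0 → ∀ b, ∃ r, r ≤ q ∧ ∃ N f, P N b f r) :
    ∃ q, q ≤ q0 ∧ ∃ N f, ∀ r, r ≤ q → ∀ a, ∃ s, s ≤ r ∧ ∃ b, a < b ∧ P N b f s := by
  have hinf := hA.inf
  -- the level of the labels
  have h1b : ∃ N, ∃ q, q ≤ q0 ∧ ∀ q', q' ≤ q → ∀ a, ∃ r, r ≤ q' ∧ ∃ b, a < b ∧ ∃ f, P N b f r := by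
    by_contra hcon
    push Not at hcon
    obtain ⟨r, hr, hrD⟩ := meet le_rfl cQ (K := ℕ) (by simp)
      (fun N => {q | ∃ a, ∀ r, r ≤ q → ∀ b, a < b → ∀ f, ¬ P N b f r}) q0
      (fun N q' r' h ⟨a, ha⟩ => ⟨a, fun s hs => ha s (hs.trans h)⟩)
      (fun N q' hq' => by
        obtain ⟨q2, hq2, a, ha⟩ := hcon N q' hq'
        exact ⟨q2, hq2, a, ha⟩)
    choose a haa using hrD
    obtain ⟨a', ha'⟩ := hA.bdd ℕ a (by simpa using hinf)
    obtain ⟨r', hr', N, f, hn⟩ := ha r hr a'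
    exact haa N r' hr' a' (ha' N) f hn
  obtain ⟨N, q1, hq1, h⟩ := h1b
  obtain ⟨S, R, iS, iR, φ, hS, cR⟩ := hdec N
  by_contra hcon
  push Not at hcon
  have hK : #(Lab N × S) ≤ κ N := by
    rw [← Cardinal.mul_def]
    exact (mul_le_mul' (hLab N) hS).trans (Cardinal.mul_eq_self (h0 N)).le
  obtain ⟨ρ, hρ, hρD⟩ := meet (h0 N) cR (K := Lab N × S) hK
    (fun k => {ρ | k.2 ≤ (φ q1).1 → ∃ σ', σ' ≤ k.2 ∧ ∃ a, ∀ s, s ≤ φ.symm (σ', ρ) → ∀ b, a < b →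
      ¬ P N b k.1 s}) (φ q1).2
    (by
      intro k ρ ρ' hρ h h1
      obtain ⟨σ', h2, a, h3⟩ := h h1
      exact ⟨σ', h2, a, fun s hs => h3 s (hs.trans (φ.symm.monotone ⟨le_rfl, hρ⟩))⟩)
    (by
      rintro ⟨f, σ⟩ ρ hρ
      by_cases hσ : σ ≤ (φ q1).1
      · have h1 : φ.symm (σ, ρ) ≤ q1 := by
          rw [← φ.symm_apply_apply q1]
          exact φ.symm.monotone ⟨hσ, hρ⟩
        obtain ⟨q', hq', a, h2⟩ := hcon (φ.symm (σ, ρ)) (h1.trans hq1) N f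
        have h3 : φ q' ≤ (σ, ρ) := by
          have h4 := φ.monotone hq'
          rwa [φ.apply_symm_apply] at h4
        refine ⟨(φ q').2, h3.2, fun _ => ⟨(φ q').1, h3.1, a, fun s hs => ?_⟩⟩
        refine h2 s (hs.trans_eq ?_)
        exact φ.symm_apply_apply q'
      · exact ⟨ρ, le_rfl, fun h => absurd h hσ⟩)
  have h2 : ∀ k : Lab N × S, ∃ a : L, k.2 ≤ (φ q1).1 → ∃ σ', σ' ≤ k.2 ∧
      ∀ s, s ≤ φ.symm (σ', ρ) → ∀ b, a < b → ¬ P N b k.1 s := by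
    intro k
    by_cases hk : k.2 ≤ (φ q1).1
    · obtain ⟨σ', h3, a, h4⟩ := hρD k hk
      exact ⟨a, fun _ => ⟨σ', h3, h4⟩⟩
    · obtain ⟨a, -⟩ := hA.bdd Empty (fun e => e.elim) (by simp)
      exact ⟨a, fun h => absurd h hk⟩
  choose a ha2 using h2
  obtain ⟨a', ha'⟩ := hA.bdd _ a (hK.trans (hM N))
  have h5 : φ.symm ((φ q1).1, ρ) ≤ q1 := by
    have h6 : φ.symm ((φ q1).1, ρ) ≤ φ.symm (φ q1) := φ.symm.monotone ⟨le_rfl, hρ⟩
    rwa [φ.symm_apply_apply] at h6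
  obtain ⟨r, hr, b, hb, f, hP⟩ := h _ h5 a'
  have h6 : φ r ≤ ((φ q1).1, ρ) := by
    have h7 := φ.monotone hr
    rwa [φ.apply_symm_apply] at h7
  obtain ⟨σ', h8, h9⟩ := ha2 (f, (φ r).1) h6.1
  refine h9 (φ.symm (σ', (φ r).2)) (φ.symm.monotone ⟨le_rfl, h6.2⟩) b ((ha' _).trans hb) ?_
  refine mono _ _ _ r _ ?_ hP
  have h10 : φ.symm (σ', (φ r).2) ≤ φ.symm (φ r) := φ.symm.monotone ⟨h8, le_rfl⟩
  rwa [φ.symm_apply_apply] at h10

/-! ### The names of sets of `x` -/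

section

variable {L M : Type} [LinearOrder L] {κ : ℕ → Cardinal.{0}} {Q : Type} [Preorder Q]
  {g : ∀ i : Ot (κ 0), GG κ i} {e : ∀ i : Ot (κ 0), EE κ i} {q0 : Q}
  (T : ∀ i, TName (GG κ i × EE κ i × Q) L M (g i, e i, q0)) (ι : M → L) (m0 : M)

/-- the name of the set of the `x` for which the label at the level `b` is `f` -/
def AA (ν : M → ℕ) (V : Set L → Q → Dat κ L M → Prop) (N : ℕ) (b : L)
    (f : Fin0 {m : M // ν m ≤ N}) (r : Q) (x : Set L) : Prop :=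
  b ∈ x ∧ ∃ d, V x r d ∧ mapF d.π (d.gg b) = mapF Subtype.val f ∧ ν (d.mm b) ≤ N

/-- the code of a finite partial function -/
def cd (c0 c1 : L) (ι : M → L) (l : Fin0 M) : ℕ ⊕ ℕ → L :=
  Sum.elim (fun j => (l.1 j).elim c0 ι) (fun j => (l.1 j).elim c0 fun _ => c1)

omit [LinearOrder L] in
theorem cd_inj {c0 c1 : L} (hc : c0 ≠ c1) (hι : Function.Injective ι) :
    Function.Injective (cd c0 c1 ι) := by
  intro l l' h
  apply Subtype.ext
  funext j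
  have h1 : (l.1 j).elim c0 ι = (l'.1 j).elim c0 ι := congrFun h (Sum.inl j)
  have h2 : (l.1 j).elim c0 (fun _ => c1) = (l'.1 j).elim c0 (fun _ => c1) :=
    congrFun h (Sum.inr j)
  generalize l.1 j = y at h1 h2
  generalize l'.1 j = y' at h1 h2
  rcases y with _ | y <;> rcases y' with _ | y'
  · rfl
  · exact absurd h2 hc
  · exact absurd h2.symm hc
  · exact congrArg some (hι h1)

theorem exists_label (h0 : ℵ₀ < κ 0) (cQ : DirectedClosed (κ 0) Q)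
    (hι : Function.Injective ι) (ν : M → ℕ) (U : SCName (κ 0) Q L q0)
    {V : Set L → Q → Dat κ L M → Prop} (hV1 : ∀ x r s d, s ≤ r → V x r d → V x s d)
    (hV2 : ∀ x r d, V x r d → VV T ι m0 x r d) (hV3 : ∀ x r d d', V x r d → V x r d' → d = d')
    {c0 c1 : L} (hc : c0 ≠ c1) {G : Set L → Prop} (hc0 : ∀ x, G x → c0 ∈ x)
    (hc1 : ∀ x, G x → c1 ∈ x) (hGU : ∀ q, q ≤ q0 → U.U q (fun _ x => G x))
    (hG : ∀ x, G x → ∀ r, r ≤ q0 → ∃ s, s ≤ r ∧ ∃ d, V x s d) {q : Q} (hq : q ≤ q0) (b : L) :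
    ∃ r, r ≤ q ∧ ∃ N f, U.U r (AA ν V N b f) := by
  have hG' : U.U q (fun _ x => b ∈ x ∧ G x) := uand h0 U (U.fine q hq b) (hGU q hq)
  let V4 : Q → Set L → (ℕ ⊕ ℕ → L) → Prop := fun s x φ =>
    ∃ d, V x s d ∧ φ = cd c0 c1 ι (mapF d.π (d.gg b)) ∧ b ∈ x
  have hm : ∀ r s x φ, s ≤ r → V4 r x φ → V4 s x φ := by
    rintro r s x φ hs ⟨d, h1, h2⟩
    exact ⟨d, hV1 _ _ _ _ hs h1, h2⟩
  have h1 : U.U q (fun r x => ∃ φ, V4 r x φ ∧ ∀ j, φ j ∈ x) := by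
    refine U.U0 h0.le hq (fun _ x => b ∈ x ∧ G x) _ ?_ hG' ?_
    · rintro r s x hs ⟨φ, h2, h3⟩
      exact ⟨φ, hm _ _ _ _ hs h2, h3⟩
    · rintro r hr x ⟨hb, hx⟩
      obtain ⟨s, hs, d, hd⟩ := hG x hx r (hr.trans hq)
      refine ⟨s, hs, _, ⟨d, hd, rfl, hb⟩, ?_⟩
      have hVV := hV2 _ _ _ hd
      rintro (j | j)
      · change ((d.gg b).1 j |>.map d.π).elim c0 ι ∈ x
        cases hj : (d.gg b).1 j with
        | none => exact hc0 x hx
        | some z => exact hVV.mem z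
      · change ((d.gg b).1 j |>.map d.π).elim c0 (fun _ => c1) ∈ x
        cases hj : (d.gg b).1 j with
        | none => exact hc0 x hx
        | some z => exact hc1 x hx
  obtain ⟨r1, hr1, φ, hφ⟩ := U.U4 hq (J := ℕ ⊕ ℕ) (χ := ℵ₀) le_rfl (by simp) h0
    (closed_le h0.le cQ) V4 hm (by
      rintro r x f f' ⟨d, h1, h2, -⟩ ⟨d', h1', h2', -⟩
      rw [h2, h2', hV3 _ _ _ _ h1 h1']) h1
  obtain ⟨r', -, x', d', -, hφ', -⟩ := U.proper r1 (hr1.trans hq) _ hφ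
  set l : Fin0 M := mapF d'.π (d'.gg b) with hl
  obtain ⟨N0, hN0⟩ : ∃ N0, ∀ n m, l.1 n = some m → ν m ≤ N0 := by
    refine ⟨l.2.toFinset.sup fun n => (l.1 n).elim 0 ν, fun n m h => ?_⟩
    have h2 : n ∈ l.2.toFinset := by
      rw [Set.Finite.mem_toFinset]
      change l.1 n ≠ none
      rw [h]
      simp
    have h3 := Finset.le_sup (f := fun n => (l.1 n).elim 0 ν) h2
    simp only [h, Option.elim_some] at h3
    exact h3
  obtain ⟨r2, hr2, n, hn⟩ := U.U2 (hr1.trans hq) (J := ℕ) (by simpa using h0)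
    (fun n s x => b ∈ x ∧ ∃ d, V x s d ∧ mapF d.π (d.gg b) = l ∧ ν (d.mm b) = n)
    (by
      rintro n r s x hs ⟨h2, d, h3, h4⟩
      exact ⟨h2, d, hV1 _ _ _ _ hs h3, h4⟩)
    (by
      refine U.up _ _ _ hφ ?_
      rintro r - x ⟨d, h2, h3, h4⟩
      exact ⟨_, h4, d, h2, cd_inj ι hc hι (h3.symm.trans hφ'), rfl⟩)
  obtain ⟨f, hf⟩ := lift_val (P := fun m => ν m ≤ max N0 n) l
    (fun k m h => (hN0 k m h).trans (le_max_left _ _))
  refine ⟨r2, hr2.trans hr1, max N0 n, f, U.up _ _ _ hn ?_⟩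
  rintro r - x ⟨h2, d, h3, h4, h5⟩
  exact ⟨h2, d, h3, h4.trans hf.symm, h5.le.trans (le_max_right _ _)⟩

end

end S1Aux

open S1Aux

/-- MODULE S1: from names for trees, for all the forcing notions `GG κ i × EE κ i × Q`, to an
unbounded set of levels which are connected, in one of the trees, by nodes with small numbers. -/
theorem step_one {L M : Type} [LinearOrder L] [hA : Amb L M] (κ : ℕ → Cardinal.{0})
    (hκ : StrictMono κ) (h0 : ℵ₀ < κ 0) (hM : ∀ n, κ n ≤ #M) (hreg : (κ 0).IsRegular)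
    (hML : #M ≤ #L) (ν : M → ℕ) (hν : ∀ n, #{i // ν i ≤ n} ≤ κ n)
    {Q : Type} [Preorder Q] (cQ : DirectedClosed (κ 0) Q)
    (hdec : ∀ n, ∃ (S R : Type) (_ : Preorder S) (_ : Preorder R) (_ : Q ≃o S × R),
      #S ≤ κ n ∧ DirectedClosed (κ n) R)
    (g : ∀ i : Ot (κ 0), GG κ i) (e : ∀ i : Ot (κ 0), EE κ i) (q0 : Q)
    (T : ∀ i, TName (GG κ i × EE κ i × Q) L M (g i, e i, q0)) (U : SCName (κ 0) Q L q0) :
    ∃ q, q ≤ q0 ∧ ∃ (n : ℕ) (D : Q → L → Prop), (∀ r s a, s ≤ r → D r a → D s a) ∧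
      (∀ r, r ≤ q → ∀ a, ∃ s, s ≤ r ∧ ∃ b, a < b ∧ D s b) ∧
      ∀ r, r ≤ q → ∀ a b, a < b → D r a → D r b → ∃ s, s ≤ r ∧ ∃ i g' e' m m', g' ≤ g i ∧
        e' ≤ e i ∧ ν m ≤ n ∧ ν m' ≤ n ∧ (T i).R (g', e', s) (a, m) (b, m') := by
  classical
  have hκ0 : ∀ n, ℵ₀ ≤ κ n := fun n => h0.le.trans (hκ.monotone (Nat.zero_le n))
  obtain ⟨ι⟩ := (Cardinal.le_def _ _).1 hML
  have hinf : Infinite M := Cardinal.aleph0_le_mk_iff.1 hA.inf
  let ν0 : ℕ ↪ M := Infinite.natEmbedding M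
  have heb : ∀ b : L, Nonempty ({a : L // a < b} ↪ M) := fun b => (Cardinal.le_def _ _).1 (hA.init b)
  let eb : ∀ b : L, {a : L // a < b} ↪ M := fun b => (heb b).some
  let F : L → L → L := fun a b => if h : a < b then ι (eb b ⟨a, h⟩) else a
  have hF : ∀ a b (h : a < b), F a b = ι (eb b ⟨a, h⟩) := fun a b h => dif_pos h
  let m0 : M := ν0 0
  -- almost all `x` are in `G`
  let G : Set L → Prop := fun x => #x < κ 0 ∧ (∀ j, ι (ν0 j) ∈ x) ∧ ∀ a, a ∈ x → ∀ b, b ∈ x →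
    F a b ∈ x
  have hGU : ∀ q, q ≤ q0 → U.U q (fun _ x => G x) := by
    intro q hq
    have h1 : U.U q (fun _ x => Set.range (fun j => ι (ν0 j)) ⊆ x) := by
      refine U.U6 hq _ (Cardinal.mk_range_le.trans_lt ?_)
      simpa using h0
    refine uand h0 U (U.small q hq) (uand h0 U (U.up q _ _ h1 ?_) (U.U5 hq F))
    intro r _ x h j
    exact h ⟨j, rfl⟩
  -- the data
  choose V hV1 hV2 hV3 hV4 using fun x : Set L =>
    exists_mixing (fun (r : Q) (d : Dat κ L M) => VV T ι m0 x r d)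
      (fun r s d hs h => VV.mono T ι m0 h hs)
  have hG : ∀ x, G x → ∀ r, r ≤ q0 → ∃ s, s ≤ r ∧ ∃ d, V x s d := by
    rintro x ⟨h1, h2, h3⟩ r hr
    obtain ⟨s, hs, d, hd⟩ := exists_dat T ι m0 h0 (hM 0) cQ ι.injective ν0 ν0.injective F
      (fun b => eb b) (fun b => (eb b).injective) hF h1 h2 h3 r hr
    obtain ⟨s', hs', d', hd'⟩ := hV4 x s d hd
    exact ⟨s', hs'.trans hs, d', hd'⟩
  have hc : ι (ν0 0) ≠ ι (ν0 1) := fun h => absurd (ν0.injective (ι.injective h)) (by simp)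
  obtain ⟨q, hq, N, f, h⟩ := fix_label hκ0 hM (closed_le h0.le cQ) hdec
    (fun N => Fin0 {m : M // ν m ≤ N}) (fun N => mk_fin0 _ (hκ0 N) (hν N))
    (fun N b f r => U.U r (AA ν V N b f)) (fun N b f q r hr h => U.mono _ _ _ hr h)
    (fun q hq b => exists_label T ι m0 h0 cQ ι.injective ν U hV1 hV2 hV3 hc
      (fun x hx => hx.2.1 0) (fun x hx => hx.2.1 1) hGU hG hq b)
  refine ⟨q, hq, N, fun r b => U.U r (AA ν V N b f), fun r s a hs h => U.mono _ _ _ hs h, h, ?_⟩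
  intro r hr a b hab hDa hDb
  obtain ⟨s, hs, x, ⟨ha, d, hd, h1, h2⟩, ⟨hb, d', hd', h1', h2'⟩⟩ :=
    U.proper r (hr.trans hq) _ (uand h0 U hDa hDb)
  have hdd : d = d' := hV3 _ _ _ _ hd hd'
  subst hdd
  have hVV := hV2 _ _ _ hd
  have hgg : d.gg a = d.gg b := mapF_inj hVV.inj (h1.trans h1'.symm)
  have h3 : (T d.i).R (d.gg a, d.ee b, s) (a, d.mm a) (d.ρ, m0) :=
    (T d.i).mono (d.gg a, d.ee a, s) (d.gg a, d.ee b, s) _ _ ⟨le_rfl, hVV.dec a ha b hb hab, le_rfl⟩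
      (hVV.rel a ha)
  have h4 : (T d.i).R (d.gg a, d.ee b, s) (b, d.mm b) (d.ρ, m0) := by
    rw [hgg]
    exact hVV.rel b hb
  exact ⟨s, hs, d.i, d.gg a, d.ee b, d.mm a, d.mm b, hVV.le2 a ha, hVV.le1 b hb, h2, h2',
    (T d.i).tree _ _ _ _ h3 h4 hab⟩

end CTF
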