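import Pool.Agent.Lib.CTF.Trans

namespace CTF

open Cardinal CAT9

/-! MODULE LF: the Levy collapse -/

theorem fn_closed {A B : Type} {χ : Cardinal.{0}} {C : A → B → Prop} (hχ : ℵ₀ ≤ χ) :
    DirectedClosed χ (Fn A B χ C) := by
  sorry

theorem mk_levy_le {χ κ : Cardinal.{0}} (hκ : κ.IsInaccessible) (hχ : ℵ₀ ≤ χ) (hχκ : χ < κ) :
    #(Levy χ κ) ≤ κ := by
  sorry

theorem mk_fin0_le (B : Type) (hB : ℵ₀ ≤ #B) : #(Fin0 B) ≤ #B := by
  sorry

/-! MODULE CN: cardinals in the extension -/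

/-- A name, below `p`, for a function from `A` to `B`. -/
structure FName (P : Type) [Preorder P] (A B : Type) (p : P) where
  /-- `q` forces that the value at `a` is `b` -/
  F : P → A → B → Prop
  mono : ∀ q r a b, r ≤ q → F q a b → F r a b
  uniq : ∀ q a b b', F q a b → F q a b' → b = b'
  total : ∀ q, q ≤ p → ∀ a, ∃ r, r ≤ q ∧ ∃ b, F r a b

/-- `P` forces that there is a function from `A` onto `B`. -/
def ForcesSurj (P : Type) [Preorder P] (A B : Type) : Prop :=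
  ∀ p : P, ∃ q, q ≤ p ∧ ∃ f : FName P A B q, ∀ b, ∀ r, r ≤ q → ∃ s, s ≤ r ∧ ∃ a, f.F s a b

/-- `P` forces that there is no function from `A` onto `B`. -/
def ForcesNoSurj (P : Type) [Preorder P] (A B : Type) : Prop :=
  ∀ (p : P) (f : FName P A B p), ¬ ∀ b, ∀ r, r ≤ p → ∃ s, s ≤ r ∧ ∃ a, f.F s a b

/-- CN1: a small and a closed forcing notion. -/
theorem no_surj_small {S R A B : Type} [Preorder S] [Preorder R] {χ : Cardinal.{0}}
    (hχ : ℵ₀ ≤ χ) (hS : #S ≤ χ) (cR : DirectedClosed χ R) (hA : #A ≤ χ) (hB : χ < #B) :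
    ForcesNoSurj (S × R) A B := by
  sorry

/-- CN2: the Levy collapse does not collapse `κ`. -/
theorem no_surj_levy {S R A B : Type} [Preorder S] [Preorder R] {χ κ : Cardinal.{0}}
    (hκ : κ.IsInaccessible) (hχ : ℵ₀ ≤ χ) (hχκ : χ < κ) (hS : #S ≤ χ) (cR : DirectedClosed κ R)
    (hA : #A ≤ Order.succ χ) (hB : κ ≤ #B) : ForcesNoSurj (S × Levy χ κ × R) A B := by
  sorry

/-- CN3: projections. -/
theorem ForcesNoSurj.proj {P Q A B : Type} [Preorder P] [Preorder Q] {τ : P → Q} (hτ : IsProj τ)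
    (hd : ∀ q, ∃ p, τ p ≤ q) (h : ForcesNoSurj P A B) : ForcesNoSurj Q A B := by
  sorry

/-- CN4: the generic surjections. -/
theorem surj_fin0 {P B : Type} [Preorder P] [Nonempty B] {τ : P → Fin0 B} (hτ : IsProj τ) :
    ForcesSurj P ℕ B := by
  sorry

theorem surj_levy {P : Type} [Preorder P] {χ κ : Cardinal.{0}} (hχ : ℵ₀ ≤ χ)
    {τ : P → Levy χ κ} (hτ : IsProj τ) (a : Ot κ) (ha : ∃ b, b < a) :
    ForcesSurj P (Ot (Order.succ χ)) {b : Ot κ // b < a} := by
  sorry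

/-- CN5: change of the sets. -/
theorem ForcesSurj.congr {P A A' B B' : Type} [Preorder P] (h : ForcesSurj P A B)
    (hA : #A ≤ #A') (hne : Nonempty B') (hB : #B' ≤ #B) : ForcesSurj P A' B' := by
  sorry

theorem ForcesNoSurj.congr {P A A' B B' : Type} [Preorder P] (h : ForcesNoSurj P A B)
    (hA : #A' ≤ #A) (hne : Nonempty B) (hB : #B ≤ #B') : ForcesNoSurj P A' B' := by
  sorry

/-! MODULE AR: the Aronszajn tree in the extension by the iteration and a Cohen real -/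

theorem it_aron {G0 X0 CC L M : Type} [LinearOrder L] [Preorder G0] [PtsD G0 X0] [Preorder CC]
    [hA : Amb L M] [LinearOrder M] [WellFoundedLT M] {χ : Cardinal.{0}} (hχ : ℵ₀ ≤ χ)
    (hχM : χ ≤ #M) (hG : #G0 ≤ χ) (cCC : DirectedClosed χ CC) :
    ∃ T : TreeName (It G0 X0 CC L M × AddOmega) L M, ∀ p, ¬ Nonempty (BranchName T p) := by
  sorry

end CTF
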