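import Pool.Agent.Lib.CTF.NDefs

namespace CTF

open Cardinal CAT9

/-! MODULE NU: lemmas on names for ultrafilters -/

section NU

variable {κ : Cardinal.{0}} {Q : Type} [Preorder Q] {L : Type} {q0 : Q}

theorem SCName.U0 (U : SCName κ Q L q0) {q : Q} (hq : q ≤ q0) (G A : Q → Set L → Prop)
    (hA : ∀ r s x, s ≤ r → A r x → A s x) (hG : U.U q G)
    (h : ∀ r, r ≤ q → ∀ x, G r x → ∃ s, s ≤ r ∧ A s x) : U.U q A := by
  sorry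

theorem SCName.U1 (U : SCName κ Q L q0) {q : Q} (hq : q ≤ q0) (A : Q → Set L → Prop)
    (hA : ∀ r s x, s ≤ r → A r x → A s x) (h : ∀ r, r ≤ q → ¬ U.U r A) :
    U.U q (fun s x => ∀ t, t ≤ s → ¬ A t x) := by
  sorry

theorem SCName.U2 (U : SCName κ Q L q0) {q : Q} (hq : q ≤ q0) {J : Type} (hJ : #J < κ)
    (A : J → Q → Set L → Prop) (hA : ∀ j r s x, s ≤ r → A j r x → A j s x)
    (h : U.U q (fun r x => ∃ j, A j r x)) : ∃ r, r ≤ q ∧ ∃ j, U.U r (A j) := by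
  sorry

theorem SCName.U3 (U : SCName κ Q L q0) {q : Q} (hq : q ≤ q0)
    (A : L → Q → Set L → Prop) (hA : ∀ b r s x, s ≤ r → A b r x → A b s x)
    (h : U.U q (fun r x => ∃ b, b ∈ x ∧ A b r x)) : ∃ r, r ≤ q ∧ ∃ b, U.U r (A b) := by
  sorry

theorem SCName.U4 (U : SCName κ Q L q0) {q : Q} (hq : q ≤ q0) {J : Type} [Nonempty J]
    {χ : Cardinal.{0}} (hχ : ℵ₀ ≤ χ) (hJ : #J ≤ χ) (hχκ : χ < κ) (cQ : DirectedClosed χ Q)
    (V : Q → Set L → (J → L) → Prop) (hV : ∀ r s x f, s ≤ r → V r x f → V s x f)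
    (hV' : ∀ r x f g, V r x f → V r x g → f = g)
    (h : U.U q (fun r x => ∃ f, V r x f ∧ ∀ j, f j ∈ x)) :
    ∃ r, r ≤ q ∧ ∃ f, U.U r (fun s x => V s x f) := by
  sorry

theorem SCName.U5 (U : SCName κ Q L q0) {q : Q} (hq : q ≤ q0) (F : L → L → L) :
    U.U q (fun _ x => ∀ a, a ∈ x → ∀ b, b ∈ x → F a b ∈ x) := by
  sorry

theorem SCName.U6 (U : SCName κ Q L q0) {q : Q} (hq : q ≤ q0) (y : Set L) (hy : #y < κ) :
    U.U q (fun _ x => y ⊆ x) := by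
  sorry

theorem exists_mixing {Q Sx : Type} [Preorder Q] (V : Q → Sx → Prop)
    (hV : ∀ r s d, s ≤ r → V r d → V s d) :
    ∃ V' : Q → Sx → Prop, (∀ r s d, s ≤ r → V' r d → V' s d) ∧ (∀ r d, V' r d → V r d) ∧
      (∀ r d d', V' r d → V' r d' → d = d') ∧ ∀ r d, V r d → ∃ r', r' ≤ r ∧ ∃ d', V' r' d' := by
  sorry

end NU

/-! MODULE NL: the local lemma -/

section NL

theorem local_lemma {L N K A B S1 S2 R : Type} [LinearOrder L] [WellFoundedLT L]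
    [Preorder S1] [Preorder S2] [Preorder R] (C : A → B → Prop) {χ0 χ κ : Cardinal.{0}}
    (h0 : ℵ₀ ≤ χ0) (h01 : χ0 < χ) (h1 : χ < κ)
    (hS1 : #S1 ≤ χ0) (hS2 : #S2 ≤ χ) (cS2 : DirectedClosed χ0 S2)
    (cR : DirectedClosed κ R) (hE : #(Fn A B χ C) ≤ κ) (hN : #N ≤ χ0) (hK : #K ≤ χ0)
    (ι : A → L) {p0 : (S1 × S2) × Fn A B χ C × R}
    (S : NSys ((S1 × S2) × Fn A B χ C × R) L N K p0)
    (x : Set L) (hxκ : #x < κ)
    (P2 : ∀ (J : Type) (f : J → L), #J ≤ χ → (∀ j, f j ∈ x) → ∃ b, b ∈ x ∧ ∀ j, f j < b)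
    (r : R) (hr : r ≤ p0.2.2) (good : Good S ι r x) (unb : Unb S ι r x)
    (he0 : p0.2.1 ∈ Ex (χ := χ) (C := C) ι x)
    (s : S1 × S2) (e : Fn A B χ C) (hs : s ≤ p0.1) (he : e ≤ p0.2.1)
    (β : L) (hβ : ∀ a, a ∈ x → a < β) (hD : S.D (s, e, r) β) :
    ∃ r' s' u' k c, r' ≤ r ∧ LocOK S ι x r' s' u' k c := by
  sorry

end NL

/-! MODULE NB: the narrow system theorem -/

theorem narrow_branch {L N K A B S1 S2 R : Type} [LinearOrder L] [WellFoundedLT L]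
    [Preorder S1] [Preorder S2] [Preorder R] (C : A → B → Prop) {χ0 χ κ : Cardinal.{0}}
    (h0 : ℵ₀ ≤ χ0) (h01 : χ0 < χ) (h1 : χ < κ)
    (hS1 : #S1 ≤ χ0) (hS2 : #S2 ≤ χ) (cS2 : DirectedClosed χ0 S2)
    (cR : DirectedClosed κ R) (hE : #(Fn A B χ C) ≤ κ) (hA : #A ≤ κ) (hB : #B ≤ κ)
    (hC : ∀ a, #{b // C a b} < κ) (hN : #N ≤ χ0) (hK : #K ≤ χ0) (hL : κ ≤ #L)
    (hbd : ∀ (J : Type) (f : J → L), #J ≤ κ → ∃ a, ∀ j, f j < a)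
    {p0 : (S1 × S2) × Fn A B χ C × R}
    (S : NSys ((S1 × S2) × Fn A B χ C × R) L N K p0)
    (U : SCName κ R L p0.2.2) :
    ∃ p, p ≤ p0 ∧ Nonempty (NBranch S p) := by
  sorry

end CTF
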