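import Pool.Agent.Lib.CTF.NDefs

namespace CTF

open Cardinal CAT9

/-- MODULE S1: from names for trees, for all the forcing notions `GG κ i × EE κ i × Q`, to an
unbounded set of levels which are connected, in one of the trees, by nodes with small numbers. -/
theorem step_one {L M : Type} [LinearOrder L] [hA : Amb L M] (κ : ℕ → Cardinal.{0})
    (hκ : StrictMono κ) (h0 : ℵ₀ < κ 0) (hM : ∀ n, κ n ≤ #M) (hreg : (κ 0).IsRegular)
    (hML : #M ≤ #L) (ν : M → ℕ) (hν : ∀ n, #{i // ν i ≤ n} ≤ κ n)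
    {Q : Type} [Preorder Q] (cQ : DirectedClosed (κ 0) Q)
    (hdec : ∀ n, ∃ (S R : Type) (_ : Preorder S) (_ : Preorder R) (_ : Q ≃o S × R),
      #S ≤ κ n ∧ DirectedClosed (κ n) R)
    (g : ∀ i : Ot (κ 0), GG κ i) (e : ∀ i : Ot (κ 0), EE κ i) (q0 : Q)
    (T : ∀ i, TName (GG κ i × EE κ i × Q) L M (g i, e i, q0)) (U : SCName (κ 0) Q L q0) :
    ∃ q, q ≤ q0 ∧ ∃ (n : ℕ) (D : Q → L → Prop), (∀ r s a, s ≤ r → D r a → D s a) ∧
      (∀ r, r ≤ q → ∀ a, ∃ s, s ≤ r ∧ ∃ b, a < b ∧ D s b) ∧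
      ∀ r, r ≤ q → ∀ a b, a < b → D r a → D r b → ∃ s, s ≤ r ∧ ∃ i g' e' m m', g' ≤ g i ∧
        e' ≤ e i ∧ ν m ≤ n ∧ ν m' ≤ n ∧ (T i).R (g', e', s) (a, m) (b, m') := by
  sorry

end CTF
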